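import Pool.Agent.Helper290.Sym.Measure

set_option autoImplicit false

namespace Pool.Agent.Helper290.Sym

open scoped symmDiff
open SymSystem

/-- what is needed about the ordered field of reals -/
structure RF {S : SymSystem} (Δ : S.B) (R a l o i : S.M) : Prop where
  grp : Δ ≤ S.model.group R a
  com : Δ ≤ S.model.comm R a
  neu : Δ ≤ S.model.neutral R a o
  one : Δ ≤ mem' i R
  ne : Δ ≤ (eq' o i)ᶜ
  le01 : Δ ≤ S.model.rel l o i
  tot : ∀ x y : S.M, Δ ≤ mem' x R → Δ ≤ mem' y R →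
    Δ ≤ S.model.rel l x y ⊔ S.model.rel l y x
  anti : ∀ x y : S.M, Δ ≤ mem' x R → Δ ≤ mem' y R → Δ ≤ S.model.rel l x y →
    Δ ≤ S.model.rel l y x → Δ ≤ eq' x y
  tr : ∀ x y z : S.M, Δ ≤ mem' x R → Δ ≤ mem' y R → Δ ≤ mem' z R → Δ ≤ S.model.rel l x y →
    Δ ≤ S.model.rel l y z → Δ ≤ S.model.rel l x z
  add : ∀ x y z u v : S.M, Δ ≤ mem' x R → Δ ≤ mem' y R → Δ ≤ mem' z R →
    Δ ≤ S.model.rel l x y → Δ ≤ S.model.op a x z u → Δ ≤ S.model.op a y z v →
    Δ ≤ S.model.rel l u v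

section
variable {S : SymSystem} {Δ : S.B} {R a m l o i : S.M}

theorem RF.of_reals (h : Δ ≤ S.model.reals R a m l o i) : RF Δ R a l o i := by
  unfold BStr.reals at h
  simp only [le_inf_iff] at h
  obtain ⟨⟨⟨⟨⟨⟨⟨⟨⟨⟨⟨⟨⟨⟨⟨⟨hG, hC⟩, hO⟩, _⟩, _⟩, _⟩, hI⟩, hne⟩, h01⟩, _⟩, _⟩, htot⟩, hanti⟩, htr⟩,
    hadd⟩, _⟩, _⟩ := h
  exact
    { grp := hG
      com := hC
      neu := hO
      one := hI.trans inf_le_left
      ne := hne
      le01 := h01
      tot := fun x y hx hy => mp (all_elim (all_elim htot x) y) (le_inf hx hy)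
      anti := fun x y hx hy h1 h2 => mp (all_elim (all_elim hanti x) y)
        (le_inf (le_inf (le_inf hx hy) h1) h2)
      tr := fun x y z hx hy hz h1 h2 => mp (all_elim (all_elim (all_elim htr x) y) z)
        (le_inf (le_inf (le_inf (le_inf hx hy) hz) h1) h2)
      add := fun x y z u v hx hy hz h1 h2 h3 =>
        mp (all_elim (all_elim (all_elim (all_elim (all_elim hadd x) y) z) u) v)
        (le_inf (le_inf (le_inf (le_inf (le_inf hx hy) hz) h1) h2) h3) }

theorem fun_op {R a x y z z' : S.M} (h : Δ ≤ S.model.group R a) (hx : Δ ≤ mem' x R)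
    (hy : Δ ≤ mem' y R) (h1 : Δ ≤ S.model.op a x y z) (h2 : Δ ≤ S.model.op a x y z') :
    Δ ≤ eq' z z' := by
  have h3 := mp (all_elim (all_elim (h.trans (inf_le_left.trans inf_le_left)) x) y) (le_inf hx hy)
  exact mp (all_elim (all_elim (h3.trans inf_le_right) z) z') (le_inf h1 h2)

theorem tot_op {R a x y : S.M} (h : Δ ≤ S.model.group R a) (hx : Δ ≤ mem' x R)
    (hy : Δ ≤ mem' y R) : Δ ≤ ⨆ z : S.M, mem' z R ⊓ S.model.op a x y z := by
  have h3 := mp (all_elim (all_elim (h.trans (inf_le_left.trans inf_le_left)) x) y) (le_inf hx hy)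
  exact h3.trans inf_le_left

theorem assoc_op {R a x y z u v w : S.M} (h : Δ ≤ S.model.group R a) (hx : Δ ≤ mem' x R)
    (hy : Δ ≤ mem' y R) (hz : Δ ≤ mem' z R) (h1 : Δ ≤ S.model.op a x y u)
    (h2 : Δ ≤ S.model.op a y z v) (h3 : Δ ≤ S.model.op a u z w) : Δ ≤ S.model.op a x v w := by
  have h4 : Δ ≤ S.model.assoc R a := h.trans (inf_le_left.trans inf_le_right)
  exact mp (all_elim (all_elim (all_elim (all_elim (all_elim (all_elim h4 x) y) z) u) v) w)
    (le_inf (le_inf (le_inf (le_inf (le_inf hx hy) hz) h1) h2) h3)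

theorem comm_op {R a x y z : S.M} (h : Δ ≤ S.model.comm R a) (hx : Δ ≤ mem' x R)
    (hy : Δ ≤ mem' y R) (h1 : Δ ≤ S.model.op a x y z) : Δ ≤ S.model.op a y x z :=
  mp (all_elim (all_elim (all_elim h x) y) z) (le_inf (le_inf hx hy) h1)

theorem neu_op {R a o x : S.M} (h : Δ ≤ S.model.neutral R a o) (hx : Δ ≤ mem' x R) :
    Δ ≤ S.model.op a o x x ∧ Δ ≤ S.model.op a x o x := by
  have h1 := mp (all_elim (h.trans inf_le_right) x) hx
  exact ⟨h1.trans inf_le_left, h1.trans inf_le_right⟩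

/-- in an ordered group there are no `r, s, u ≥ 0` with `r + s = 1`, `s + u = r` and
`r + r + r ≤ 1` -/
theorem core (h : Δ ≤ S.model.reals R a m l o i) {r s u w y : S.M} (hr : Δ ≤ mem' r R) (hs : Δ ≤ mem' s R)
    (hu : Δ ≤ mem' u R) (hw : Δ ≤ mem' w R) (hy : Δ ≤ mem' y R)
    (h1 : Δ ≤ S.model.op a r s i) (h2 : Δ ≤ S.model.op a s u r) (h3 : Δ ≤ S.model.op a r r w)
    (h4 : Δ ≤ S.model.op a w r y) (_h5 : Δ ≤ S.model.rel l o r) (h6 : Δ ≤ S.model.rel l o u)
    (h7 : Δ ≤ S.model.rel l y i) : Δ ≤ ⊥ := by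
  have F := RF.of_reals h
  have ho : Δ ≤ mem' o R := F.neu.trans inf_le_left
  have hsr : Δ ≤ S.model.rel l s r :=
    F.add o u s s r ho hu hs h6 (neu_op F.neu hs).1 (comm_op F.com hs hu h2)
  have hiw : Δ ≤ S.model.rel l i w :=
    F.add s r r i w hs hr hr hsr (comm_op F.com hr hs h1) h3
  have hyw : Δ ≤ S.model.rel l y w := F.tr y i w hy F.one hw h7 hiw
  have hro : Δ ≤ S.model.rel l r o := by
    refine ex_elim (F.grp.trans inf_le_right) fun e Δ1 k1 k2 => ?_
    have he : Δ1 ≤ mem' e R := k2.trans (inf_le_left.trans inf_le_left)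
    have heo : Δ1 ≤ eq' e o := fun_op (k1.trans F.grp) he (k1.trans ho)
      (neu_op (k1.trans F.neu) he).2 (neu_op (k2.trans inf_le_left) (k1.trans ho)).1
    refine ex_elim (mp (all_elim (k2.trans inf_le_right) w) (k1.trans hw)) fun w' Δ2 k3 k4 => ?_
    have hw' : Δ2 ≤ mem' w' R := k4.trans (inf_le_left.trans inf_le_left)
    have k5 : Δ2 ≤ S.model.op a w w' o :=
      op_congr (rfl' _) (rfl' _) (k3.trans heo) (k4.trans (inf_le_left.trans inf_le_right))
    have k31 := k3.trans k1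
    refine ex_elim (tot_op (k31.trans F.grp) (k31.trans hy) hw') fun q Δ3 k6 k7 => ?_
    have k631 := k6.trans k31
    have hq : Δ3 ≤ mem' q R := k7.trans inf_le_left
    have k8 : Δ3 ≤ S.model.op a y w' q := k7.trans inf_le_right
    have k9 : Δ3 ≤ S.model.op a r o q := assoc_op (k631.trans F.grp) (k631.trans hr)
      (k631.trans hw) (k6.trans hw') (comm_op (k631.trans F.com) (k631.trans hw) (k631.trans hr)
        (k631.trans h4)) (k6.trans k5) k8
    have k10 : Δ3 ≤ eq' q r := fun_op (k631.trans F.grp) (k631.trans hr) (k631.trans ho) k9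
      (neu_op (k631.trans F.neu) (k631.trans hr)).2
    have k11 : Δ3 ≤ S.model.rel l q o :=
      (RF.of_reals (k631.trans h)).add y w w' q o (k631.trans hy) (k631.trans hw) (k6.trans hw')
        (k631.trans hyw) k8 (k6.trans k5)
    exact rel_congr k10 (rfl' _) k11
  have his : Δ ≤ S.model.rel l i s := F.add r o s i s hr ho hs hro h1 (neu_op F.neu hs).1
  have hio : Δ ≤ S.model.rel l i o := F.tr i s o F.one hs ho his (F.tr s r o hs hr ho hsr hro)
  exact not_elim F.ne (F.anti o i ho F.one F.le01 hio)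

end

variable {T Γ : Type} [Group T] [Group Γ] [MulDistribMulAction Γ T]

/-! ### the group of all atoms is amenable -/

theorem amenable_AM (q : Seq T Γ) {Δ : (sys T Γ).B} {R a m l o i : (sys T Γ).M}
    (h : Δ ≤ (sys T Γ).model.reals R a m l o i) :
    Δ ≤ (sys T Γ).model.amenable R a l o i AM opM := by
  obtain ⟨P, hP⟩ := power_exists (AM : (sys T Γ).M)
  obtain ⟨Eo, hEo, ho⟩ := exists_support o
  obtain ⟨Ei, hEi, hi⟩ := exists_support i
  obtain ⟨μ, hμ⟩ := rel_exists P R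
    (fun X r => (Psi q X ⊓ eq' r i) ⊔ ((Psi q X)ᶜ ⊓ eq' r o)) (by
      intro x y x' y' Δ h1 h2 h3
      refine or_elim h3 (fun Δ1 h4 h5 => ?_) (fun Δ1 h4 h5 => ?_)
      · exact le_sup_of_le_left (le_inf (Psi_ext q _ _ _ (h4.trans h1) (h5.trans inf_le_left))
          (trans (symm (h4.trans h2)) (h5.trans inf_le_right)))
      · refine le_sup_of_le_right (le_inf (not_intro fun Δ2 h6 h7 => ?_)
          (trans (symm (h4.trans h2)) (h5.trans inf_le_right)))
        exact not_elim (h6.trans (h5.trans inf_le_left))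
          (Psi_ext q _ _ _ (symm (h6.trans (h4.trans h1))) h7))
    (Eo ∪ Ei) (hEo.union hEi) (by
      intro g hg x y
      have h1 : Psi q (g • x) = (sys T Γ).ρ g (Psi q x) := Psi_smul q g x
      show (Psi q (g • x) ⊓ eq' (g • y) i) ⊔ ((Psi q (g • x))ᶜ ⊓ eq' (g • y) o) =
        (sys T Γ).ρ g ((Psi q x ⊓ eq' y i) ⊔ ((Psi q x)ᶜ ⊓ eq' y o))
      rw [h1, eq_smul_left (hi g (fun x hx => hg x (Or.inr hx))),
        eq_smul_left (ho g (fun x hx => hg x (Or.inl hx))), map_sup, map_inf, map_inf, map_compl])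
  have F := RF.of_reals h
  have hoR : Δ ≤ mem' o R := F.neu.trans inf_le_left
  -- introduction and elimination for `μ(X) = r`
  have intro1 : ∀ {Δ1 : (sys T Γ).B} {X : (sys T Γ).M}, Δ1 ≤ Δ → Δ1 ≤ subv X AM →
      Δ1 ≤ Psi q X → Δ1 ≤ (sys T Γ).model.rel μ X i := by
    intro Δ1 X h1 h2 h3
    rw [rel_eq, hμ, hP]
    exact le_inf (le_inf h2 (h1.trans F.one)) (le_sup_of_le_left (le_inf h3 (rfl' _)))
  have intro0 : ∀ {Δ1 : (sys T Γ).B} {X : (sys T Γ).M}, Δ1 ≤ Δ → Δ1 ≤ subv X AM →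
      Δ1 ≤ (Psi q X)ᶜ → Δ1 ≤ (sys T Γ).model.rel μ X o := by
    intro Δ1 X h1 h2 h3
    rw [rel_eq, hμ, hP]
    exact le_inf (le_inf h2 (h1.trans hoR)) (le_sup_of_le_right (le_inf h3 (rfl' _)))
  have elim : ∀ {Δ1 ψ : (sys T Γ).B} {X r : (sys T Γ).M}, Δ1 ≤ (sys T Γ).model.rel μ X r →
      (∀ Δ2, Δ2 ≤ Δ1 → Δ2 ≤ Psi q X → Δ2 ≤ eq' r i → Δ2 ≤ ψ) →
      (∀ Δ2, Δ2 ≤ Δ1 → Δ2 ≤ (Psi q X)ᶜ → Δ2 ≤ eq' r o → Δ2 ≤ ψ) → Δ1 ≤ ψ := by
    intro Δ1 ψ X r h1 k1 k2
    rw [rel_eq, hμ] at h1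
    exact or_elim (h1.trans inf_le_right)
      (fun Δ2 h3 h4 => k1 Δ2 h3 (h4.trans inf_le_left) (h4.trans inf_le_right))
      (fun Δ2 h3 h4 => k2 Δ2 h3 (h4.trans inf_le_left) (h4.trans inf_le_right))
  refine ex_intro μ (le_inf (le_inf (le_inf (le_inf ?_ ?_) ?_) ?_) ?_)
  · refine le_iInf fun X => imp_intro fun Δ1 h1 h2 => ?_
    have hrefl : ∀ x : (sys T Γ).M, ∀ Δ2, Δ2 ≤ Δ1 → Δ2 ≤ mem' x R →
        Δ2 ≤ (sys T Γ).model.rel l x x := by
      intro x Δ2 h3 h4
      exact or_elim ((RF.of_reals (h3.trans (h1.trans h))).tot x x h4 h4)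
        (fun _ _ h5 => h5) (fun _ _ h5 => h5)
    refine em_elim (Psi q X) (fun Δ2 h3 h4 => ?_) (fun Δ2 h3 h4 => ?_)
    · exact ex_intro i (le_inf (le_inf (le_inf (h3.trans (h1.trans F.one))
        (h3.trans (h1.trans F.le01))) (hrefl i Δ2 h3 (h3.trans (h1.trans F.one))))
        (intro1 (h3.trans h1) (h3.trans h2) h4))
    · exact ex_intro o (le_inf (le_inf (le_inf (h3.trans (h1.trans hoR))
        (hrefl o Δ2 h3 (h3.trans (h1.trans hoR)))) (h3.trans (h1.trans F.le01)))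
        (intro0 (h3.trans h1) (h3.trans h2) h4))
  · refine le_iInf fun X => le_iInf fun r => le_iInf fun s => imp_intro fun Δ1 h1 h2 => ?_
    refine elim (h2.trans (inf_le_left.trans inf_le_right)) (fun Δ2 h3 h4 h5 => ?_)
      (fun Δ2 h3 h4 h5 => ?_)
    · refine elim (h3.trans (h2.trans inf_le_right)) (fun Δ3 h6 h7 h8 => ?_)
        (fun Δ3 h6 h7 h8 => ?_)
      · exact trans (h6.trans h5) (symm h8)
      · exact not_elim h7 (h6.trans h4)
    · refine elim (h3.trans (h2.trans inf_le_right)) (fun Δ3 h6 h7 h8 => ?_)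
        (fun Δ3 h6 h7 h8 => ?_)
      · exact not_elim (h6.trans h4) h7
      · exact trans (h6.trans h5) (symm h8)
  · refine intro1 le_rfl (le_iInf fun z => imp_intro fun Δ1 _ h1 => h1) ?_
    obtain ⟨N, hN⟩ := Psi_eq q AM
    rw [hN N le_rfl]
    exact at_mem_AM _ _
  · refine le_iInf fun X => le_iInf fun Y => le_iInf fun Z => le_iInf fun r => le_iInf fun s =>
      le_iInf fun u => imp_intro fun Δ1 h1 h2 => ?_
    have hd : Δ1 ≤ (sys T Γ).model.disj X Y := h2.trans
      (inf_le_left.trans (inf_le_left.trans (inf_le_left.trans (inf_le_left.trans inf_le_right))))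
    have hu : Δ1 ≤ (sys T Γ).model.union Z X Y := h2.trans
      (inf_le_left.trans (inf_le_left.trans (inf_le_left.trans inf_le_right)))
    have hr : Δ1 ≤ (sys T Γ).model.rel μ X r := h2.trans
      (inf_le_left.trans (inf_le_left.trans inf_le_right))
    have hs : Δ1 ≤ (sys T Γ).model.rel μ Y s := h2.trans (inf_le_left.trans inf_le_right)
    have ht : Δ1 ≤ (sys T Γ).model.rel μ Z u := h2.trans inf_le_right
    refine elim hr (fun Δ2 h3 h4 h5 => ?_) (fun Δ2 h3 h4 h5 => ?_)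
    · refine elim (h3.trans hs) (fun Δ3 h6 h7 h8 => ?_) (fun Δ3 h6 h7 h8 => ?_)
      · exact (Psi_disj q (h6.trans (h3.trans hd)) (h6.trans h4) h7).trans bot_le
      · refine elim (h6.trans (h3.trans ht)) (fun Δ4 h9 h10 h11 => ?_) (fun Δ4 h9 h10 h11 => ?_)
        · exact op_congr (symm (h9.trans (h6.trans h5))) (symm (h9.trans h8)) (symm h11)
            (neu_op (h9.trans (h6.trans (h3.trans (h1.trans F.neu))))
              (h9.trans (h6.trans (h3.trans (h1.trans F.one))))).2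
        · exact not_elim h10 ((Psi_union q (h9.trans (h6.trans (h3.trans hu)))).2
            (le_sup_of_le_left (h9.trans (h6.trans h4))))
    · refine elim (h3.trans hs) (fun Δ3 h6 h7 h8 => ?_) (fun Δ3 h6 h7 h8 => ?_)
      · refine elim (h6.trans (h3.trans ht)) (fun Δ4 h9 h10 h11 => ?_) (fun Δ4 h9 h10 h11 => ?_)
        · exact op_congr (symm (h9.trans (h6.trans h5))) (symm (h9.trans h8)) (symm h11)
            (neu_op (h9.trans (h6.trans (h3.trans (h1.trans F.neu))))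
              (h9.trans (h6.trans (h3.trans (h1.trans F.one))))).1
        · exact not_elim h10 ((Psi_union q (h9.trans (h6.trans (h3.trans hu)))).2
            (le_sup_of_le_right (h9.trans h7)))
      · refine elim (h6.trans (h3.trans ht)) (fun Δ4 h9 h10 h11 => ?_) (fun Δ4 h9 h10 h11 => ?_)
        · refine or_elim ((Psi_union q (h9.trans (h6.trans (h3.trans hu)))).1 h10)
            (fun Δ5 h12 h13 => ?_) (fun Δ5 h12 h13 => ?_)
          · exact not_elim (h12.trans (h9.trans (h6.trans h4))) h13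
          · exact not_elim (h12.trans (h9.trans h7)) h13
        · exact op_congr (symm (h9.trans (h6.trans h5))) (symm (h9.trans h8)) (symm h11)
            (neu_op (h9.trans (h6.trans (h3.trans (h1.trans F.neu))))
              (h9.trans (h6.trans (h3.trans (h1.trans hoR))))).2
  · refine le_iInf fun g => le_iInf fun X => le_iInf fun Z => le_iInf fun r =>
      imp_intro fun Δ0 h1 h2 => ?_
    refine setM_elim FS_univ (h2.trans (inf_le_left.trans (inf_le_left.trans inf_le_left)))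
      fun t _ Δ1 h3 h4 => ?_
    have hX : Δ1 ≤ subv X AM := h3.trans (h2.trans (inf_le_left.trans
      (inf_le_left.trans inf_le_right)))
    have ht : Δ1 ≤ (sys T Γ).model.translate opM (at' t) X Z := by
      have h3 : Δ1 ≤ (sys T Γ).model.translate opM g X Z := h3.trans (h2.trans
        (inf_le_left.trans inf_le_right))
      refine le_iInf fun w => iff_intro (fun Δ2 h5 h6 => ?_) (fun Δ2 h5 h6 => ?_)
      · refine ex_elim (iff_mp (all_elim (h5.trans h3) w) h6) fun y Δ3 h7 h8 => ?_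
        exact ex_intro y (le_inf (h8.trans inf_le_left)
          (op_congr (h7.trans (h5.trans h4)) (rfl' _) (rfl' _) (h8.trans inf_le_right)))
      · refine iff_mpr (all_elim (h5.trans h3) w) (ex_elim h6 fun y Δ3 h7 h8 => ?_)
        exact ex_intro y (le_inf (h8.trans inf_le_left)
          (op_congr (symm (h7.trans (h5.trans h4))) (rfl' _) (rfl' _) (h8.trans inf_le_right)))
    have hZ : Δ1 ≤ subv Z AM := by
      refine le_iInf fun z => imp_intro fun Δ3 h5 h6 => ?_
      refine ex_elim (iff_mp (all_elim (h5.trans ht) z) h6) fun y Δ4 _ h7 => ?_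
      refine op_elim (h7.trans inf_le_right) fun g1 k1 Δ5 _ _ _ h8 => ?_
      exact setM_intro _ (g1 * k1) (Subgroup.mem_top _) h8
    refine elim (h3.trans (h2.trans inf_le_right)) (fun Δ2 h5 h6 h7 => ?_)
      (fun Δ2 h5 h6 h7 => ?_)
    · exact rel_congr (rfl' _) (symm h7) (intro1 (h5.trans (h3.trans h1)) (h5.trans hZ)
        ((Psi_translate q (h5.trans ht)).2 h6))
    · refine rel_congr (rfl' _) (symm h7) (intro0 (h5.trans (h3.trans h1)) (h5.trans hZ) ?_)
      exact not_intro fun Δ3 h8 h9 => not_elim (h8.trans h6)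
        ((Psi_translate q (h8.trans (h5.trans ht))).1 h9)

end Pool.Agent.Helper290.Sym
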