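import Pool.Agent.Helper290.Sym.System

set_option autoImplicit false

namespace Pool.Agent.Helper290.Sym

open scoped symmDiff
open SymSystem

variable {T Γ : Type} [Group Γ] [MulAction Γ T]

instance : MulAction (Gp T Γ) (sys T Γ).M := SymSystem.mulActM (S := sys T Γ)

/-- the Cohen real with index `i` -/
def xr (i : Idx T) : (sys T Γ).M :=
  mkM (fun k : ℕ => num k) (fun k => Cond.bit ⟨i, k⟩ true)
    (supp_fam (fun _ k => k) (fun _ => Function.surjective_id) _ _ {Spt.idx i}
      (Set.finite_singleton _) (by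
        intro g hg k
        refine ⟨num_fix k g, ?_⟩
        have h1 : g • i = i := by
          have := hg (Spt.idx i) rfl
          rw [smul_idx] at this
          injection this
        show Cond.bit _ _ = Cond.rho (Gp T Γ) (Pos T) g _
        rw [Cond.rho_bit, smul_Pos, h1]))

theorem mem_xr (i : Idx T) (z : (sys T Γ).M) :
    mem' z (xr i) = ⨆ k : ℕ, Cond.bit ⟨i, k⟩ true ⊓ eq' z (num k) := rfl

theorem smul_xr (g : Gp T Γ) (i : Idx T) :
    eq' (S := sys T Γ) (g • (xr i : (sys T Γ).M)) (xr (g • i)) = ⊤ := by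
  apply smul_char
  intro z
  rw [mem_xr, mem_xr, map_iSup]
  refine iSup_congr fun k => ?_
  rw [map_inf, show eq' (g • z) (num k) = (sys T Γ).ρ g (eq' z (num k)) from
    eq_smul_left (S := sys T Γ) (num_fix k g) z]
  congr 1
  show _ = Cond.rho (Gp T Γ) (Pos T) g _
  rw [Cond.rho_bit, smul_Pos]

theorem num_mem_xr (i : Idx T) (k : ℕ) :
    mem' (num k : (sys T Γ).M) (xr i) = Cond.bit ⟨i, k⟩ true := by
  rw [mem_xr]
  apply eq_of_forall
  · intro Δ h
    refine ex_elim h ?_
    intro n Δ1 h1 h2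
    by_cases hkn : k = n
    · rw [hkn]
      exact h2.trans inf_le_left
    · have h3 := h2.trans inf_le_right
      rw [eq_num k n hkn] at h3
      exact h3.trans bot_le
  · intro Δ h
    exact ex_intro k (le_inf h (rfl' _))

theorem xr_ne (i j : Idx T) (h : i ≠ j) : eq' (xr i : (sys T Γ).M) (xr j) = ⊥ := by
  rw [eq_bot_iff]
  intro p hp
  exfalso
  -- find a fresh position
  obtain ⟨N, hN⟩ : ∃ N, ∀ q ∈ p.s, q.k < N := by
    obtain ⟨N, hN⟩ := (p.fin.image (fun q => q.k)).bddAbove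
    exact ⟨N + 1, fun q hq => Nat.lt_succ_of_le (hN ⟨q, hq, rfl⟩)⟩
  have hi : ¬ (⟨i, N⟩ : Pos T) ∈ p.s := fun h' => lt_irrefl N (hN _ h')
  have hj : ¬ (⟨j, N⟩ : Pos T) ∈ p.s := fun h' => lt_irrefl N (hN _ h')
  obtain ⟨q, hq, hqs, hqb⟩ := Cond.exists_bit p ⟨i, N⟩ hi true
  have hj2 : ¬ (⟨j, N⟩ : Pos T) ∈ q.s := by
    rw [hqs]
    rintro (h' | h')
    · injection h' with h'
      exact h h'.symm
    · exact hj h'
  obtain ⟨r, hr, hrs, hrb⟩ := Cond.exists_bit q ⟨j, N⟩ hj2 false
  have h1 : r ∈ Cond.bit (⟨i, N⟩ : Pos T) true := Reg.down hr ⟨by rw [hqs]; exact Set.mem_insert _ _, hqb⟩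
  have h2 : r ∈ Cond.bit (⟨j, N⟩ : Pos T) false := ⟨by rw [hrs]; exact Set.mem_insert _ _, hrb⟩
  have h3 : r ∈ eq' (xr i : (sys T Γ).M) (xr j) := Reg.down (hr.trans hq) hp
  rw [← num_mem_xr (Γ := Γ)] at h1
  have h4 : mem' (num N : (sys T Γ).M) (xr i) ⊓ eq' (xr i) (xr j) ≤
      mem' (num N : (sys T Γ).M) (xr j) := memR inf_le_right inf_le_left
  have h5 := h4 r ⟨h1, h3⟩
  rw [num_mem_xr] at h5
  rw [Cond.bit_compl] at h2
  exact h2 r le_rfl h5

open Classical in
/-- the atom `t`: the set of the Cohen reals with first index `t` -/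
noncomputable def at' (t : T) : (sys T Γ).M :=
  mkM (fun i : Idx T => xr i) (fun i => if i.t = t then ⊤ else ⊥)
    (supp_fam (S := sys T Γ) (fun (g : Gp T Γ) (i : Idx T) => g • i)
      (fun g => MulAction.surjective g) _ _ {Spt.pt t}
      (Set.finite_singleton _) (by
        intro g hg i
        refine ⟨smul_xr g i, ?_⟩
        have h1 : g • t = t := by
          have := hg (Spt.pt t) rfl
          rw [smul_pt] at this
          injection this
        have h2 : (g • i).t = t ↔ i.t = t := by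
          rw [smul_Idx_t]
          constructor
          · intro h
            exact MulAction.injective g (h.trans h1.symm)
          · intro h
            rw [h, h1]
        by_cases h3 : i.t = t
        · rw [if_pos h3, if_pos (h2.2 h3)]
          exact (map_top _).symm
        · rw [if_neg h3, if_neg (fun h => h3 (h2.1 h))]
          exact (map_bot _).symm))

open Classical in
theorem mem_at (t : T) (z : (sys T Γ).M) :
    mem' z (at' t) = ⨆ i : Idx T, (if i.t = t then ⊤ else ⊥) ⊓ eq' z (xr i) := rfl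

theorem smul_at (g : Gp T Γ) (t : T) :
    eq' (S := sys T Γ) (g • (at' t : (sys T Γ).M)) (at' (g • t)) = ⊤ := by
  classical
  apply smul_char
  intro z
  rw [mem_at, mem_at, map_iSup,
    ← (MulAction.surjective (β := Idx T) g).iSup_comp (g := fun i : Idx T =>
      (if i.t = g • t then (⊤ : (sys T Γ).B) else ⊥) ⊓ eq' (S := sys T Γ) (g • z) (xr i))]
  refine iSup_congr fun i => ?_
  rw [map_inf, ← smul_eq]
  have h2 : (g • i).t = g • t ↔ i.t = t := by
    rw [smul_Idx_t]
    exact ⟨fun h => MulAction.injective g h, fun h => by rw [h]⟩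
  have h3 : eq' (S := sys T Γ) (g • z) (xr (g • i)) = eq' (S := sys T Γ) (g • z) (g • xr i) := by
    apply eq_of_forall
    · intro Δ h
      exact trans h (symm (eq_top_of (smul_xr g i)))
    · intro Δ h
      exact trans h (eq_top_of (smul_xr g i))
  rw [h3]
  congr 1
  by_cases h4 : i.t = t
  · rw [if_pos h4, if_pos (h2.2 h4)]
    exact (map_top _).symm
  · rw [if_neg h4, if_neg (fun h => h4 (h2.1 h))]
    exact (map_bot _).symm

theorem at_ne (t t' : T) (h : t ≠ t') : eq' (at' t : (sys T Γ).M) (at' t') = ⊥ := by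
  classical
  rw [eq_bot_iff]
  have h1 : eq' (at' t : (sys T Γ).M) (at' t') ≤ mem' (xr ⟨t, 0⟩ : (sys T Γ).M) (at' t) := by
    rw [mem_at]
    refine ex_intro ⟨t, 0⟩ (le_inf ?_ (rfl' _))
    rw [if_pos rfl]
    exact le_top
  have h2 := memR le_rfl h1
  refine h2.trans ?_
  rw [mem_at]
  refine iSup_le fun i => ?_
  by_cases hi : i.t = t'
  · have h3 : (⟨t, 0⟩ : Idx T) ≠ i := by
      intro h4
      apply h
      rw [← hi, ← h4]
    rw [xr_ne _ _ h3, inf_bot_eq]
  · rw [if_neg hi, bot_inf_eq]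

theorem at_inj {t t' : T} {Δ : (sys T Γ).B} (h : Δ ≤ eq' (at' t : (sys T Γ).M) (at' t')) :
    t = t' ∨ Δ ≤ ⊥ := by
  by_cases ht : t = t'
  · exact Or.inl ht
  · rw [at_ne t t' ht] at h
    exact Or.inr h

/-! ### sets of atoms -/

/-- a set of elements of `T` with a finite support -/
def FS (Γ : Type) [Group Γ] [MulAction Γ T] (W : Set T) : Prop :=
  ∃ E : Set T, E.Finite ∧ ∀ γ : Γ, (∀ t ∈ E, γ • t = t) → ∀ t, γ • t ∈ W ↔ t ∈ W

open Classical in
/-- the set of the atoms in `W` -/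
noncomputable def setM (W : Set T) (h : FS Γ W) : (sys T Γ).M :=
  mkM (fun t : T => at' t) (fun t => if t ∈ W then ⊤ else ⊥)
    (by
      obtain ⟨E, hE, h⟩ := h
      refine supp_fam (S := sys T Γ) (fun (g : Gp T Γ) (t : T) => g • t)
        (fun g => MulAction.surjective g) _ _ (Spt.pt '' E) (hE.image _) ?_
      intro g hg t
      refine ⟨smul_at g t, ?_⟩
      have h1 : ∀ t ∈ E, g.1.1 • t = t := by
        intro t ht
        have := hg (Spt.pt t) ⟨t, ht, rfl⟩
        rw [smul_pt] at this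
        injection this
      have h2 : g • t ∈ W ↔ t ∈ W := h g.1.1 h1 t
      by_cases h3 : t ∈ W
      · rw [if_pos h3, if_pos (h2.2 h3)]
        exact (map_top _).symm
      · rw [if_neg h3, if_neg (fun h => h3 (h2.1 h))]
        exact (map_bot _).symm)

theorem mem_setM {W : Set T} (h : FS Γ W) (z : (sys T Γ).M) :
    mem' z (setM W h) = ⨆ t : W, eq' z (at' t.1) := by
  classical
  have h1 : mem' z (setM W h) =
    ⨆ t : T, (if t ∈ W then (⊤ : (sys T Γ).B) else ⊥) ⊓ eq' z (at' t) := rfl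
  rw [h1]
  apply le_antisymm
  · refine iSup_le fun t => ?_
    by_cases ht : t ∈ W
    · exact ex_intro (⟨t, ht⟩ : W) inf_le_right
    · rw [if_neg ht, bot_inf_eq]
      exact bot_le
  · refine iSup_le fun t => ?_
    refine ex_intro t.1 (le_inf ?_ le_rfl)
    rw [if_pos t.2]
    exact le_top

theorem setM_elim {W : Set T} (h : FS Γ W) {z : (sys T Γ).M} {Δ ψ : (sys T Γ).B}
    (h1 : Δ ≤ mem' z (setM W h))
    (k : ∀ t ∈ W, ∀ Δ1, Δ1 ≤ Δ → Δ1 ≤ eq' z (at' t) → Δ1 ≤ ψ) : Δ ≤ ψ := by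
  rw [mem_setM] at h1
  exact ex_elim h1 (fun t Δ1 h2 h3 => k t.1 t.2 Δ1 h2 h3)

theorem setM_intro {W : Set T} (h : FS Γ W) {z : (sys T Γ).M} {Δ : (sys T Γ).B}
    (t : T) (ht : t ∈ W) (h1 : Δ ≤ eq' z (at' t)) : Δ ≤ mem' z (setM W h) := by
  rw [mem_setM]
  exact ex_intro (⟨t, ht⟩ : W) h1

theorem at_mem_setM {W : Set T} (h : FS Γ W) {t : T} {Δ : (sys T Γ).B}
    (h1 : Δ ≤ mem' (at' t) (setM W h)) : t ∈ W ∨ Δ ≤ ⊥ := by
  by_cases ht : t ∈ W
  · exact Or.inl ht
  · refine Or.inr (setM_elim h h1 fun t' ht' Δ1 _ h3 => ?_)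
    rcases at_inj h3 with h4 | h4
    · exact absurd (h4 ▸ ht') ht
    · exact h4

/-! ### invariance -/

/-- For a member `Y` of the model there is a finite set of atoms such that whenever `γ` fixes
its elements, `t` and `γ t` belong to `Y` with the same value. -/
theorem mem_invariant (Y : (sys T Γ).M) : ∃ E : Set T, E.Finite ∧ ∀ γ : Γ,
    (∀ t ∈ E, γ • t = t) → ∀ t : T, mem' (at' (γ • t)) Y = mem' (at' t) Y := by
  obtain ⟨E, hE, hY⟩ := exists_support Y
  let E' : Set T := {t | Spt.pt t ∈ E ∨ ∃ m, Spt.idx ⟨t, m⟩ ∈ E}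
  have hE' : E'.Finite := by
    refine ((hE.image (fun x : Spt T => match x with
      | .pt t => t
      | .idx i => i.t))).subset ?_
    rintro t (h | ⟨m, h⟩)
    · exact ⟨_, h, rfl⟩
    · exact ⟨_, h, rfl⟩
  refine ⟨E', hE', fun γ hγ t => ?_⟩
  symm
  refine key_eq E γ hγ _ _ (fun g hg hfix => ?_)
  have h1 : mem' (at' (γ • t)) Y = mem' (S := sys T Γ) (g • at' t) Y := by
    have h2 : γ • t = g • t := by
      rw [← hg]
      rfl
    rw [h2]
    apply eq_of_forall
    · intro Δ h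
      exact memL (symm (eq_top_of (smul_at g t))) h
    · intro Δ h
      exact memL (eq_top_of (smul_at g t)) h
  rw [h1]
  exact mem_smul_left (hY g hfix) _

end Pool.Agent.Helper290.Sym
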