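import Pool.Agent.Helper290.Sym.Reg

set_option autoImplicit false

namespace Pool.Agent.Helper290.Sym

/-- Finite partial functions from `J` to `{0,1}`: a finite domain `s` and a function, of which
only the values on `s` matter.  Stronger conditions extend weaker ones. -/
structure Cond (J : Type) where
  s : Set J
  fin : s.Finite
  f : J → Bool

namespace Cond

variable {J : Type}

instance : Preorder (Cond J) where
  le q p := p.s ⊆ q.s ∧ ∀ j ∈ p.s, q.f j = p.f j
  le_refl p := ⟨subset_rfl, fun _ _ => rfl⟩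
  le_trans a b c h1 h2 := ⟨h2.1.trans h1.1, fun j hj => by rw [h1.2 j (h2.1 hj), h2.2 j hj]⟩

theorem le_def {p q : Cond J} : q ≤ p ↔ p.s ⊆ q.s ∧ ∀ j ∈ p.s, q.f j = p.f j := Iff.rfl

instance : Nonempty (Cond J) := ⟨⟨∅, Set.finite_empty, fun _ => true⟩⟩

open Classical in
/-- the union of two conditions -/
noncomputable def union (p q : Cond J) : Cond J where
  s := p.s ∪ q.s
  fin := p.fin.union q.fin
  f j := if j ∈ p.s then p.f j else q.f j

theorem union_le_left (p q : Cond J) : union p q ≤ p :=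
  ⟨Set.subset_union_left, fun j hj => by simp [union, hj]⟩

theorem union_le_right {p q : Cond J} (h : ∀ j, j ∈ p.s → j ∈ q.s → p.f j = q.f j) :
    union p q ≤ q :=
  ⟨Set.subset_union_right, fun j hj => by
    by_cases h1 : j ∈ p.s
    · simp [union, h1, h j h1 hj]
    · simp [union, h1]⟩

/-- `j` has the value `b` -/
def bit (j : J) (b : Bool) : Reg (Cond J) where
  carrier := {p | j ∈ p.s ∧ p.f j = b}
  reg' := by
    classical
    intro p h
    by_cases hj : j ∈ p.s
    · obtain ⟨r, hr, h1⟩ := h p le_rfl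
      exact ⟨hj, by rw [← h1.2, hr.2 j hj]⟩
    · exfalso
      let q : Cond J := ⟨insert j p.s, p.fin.insert j, fun k => if k = j then !b else p.f k⟩
      have hq : q ≤ p := ⟨Set.subset_insert _ _, fun k hk => by
        have : k ≠ j := fun h => hj (h ▸ hk)
        simp [q, this]⟩
      obtain ⟨r, hr, h1⟩ := h q hq
      have h2 := hr.2 j (Set.mem_insert _ _)
      rw [h1.2] at h2
      simp [q] at h2
  down' := fun p q h hp => ⟨h.1 hp.1, by rw [h.2 j hp.1, hp.2]⟩

theorem mem_bit {j : J} {b : Bool} {p : Cond J} : p ∈ bit j b ↔ j ∈ p.s ∧ p.f j = b := Iff.rfl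

theorem exists_bit (p : Cond J) (j : J) (h : ¬ j ∈ p.s) (b : Bool) :
    ∃ q, q ≤ p ∧ q.s = insert j p.s ∧ q.f j = b := by
  classical
  refine ⟨⟨insert j p.s, p.fin.insert j, fun k => if k = j then b else p.f k⟩, ?_, rfl, by simp⟩
  refine ⟨Set.subset_insert _ _, fun k hk => ?_⟩
  have : k ≠ j := fun h' => h (h' ▸ hk)
  simp [this]

theorem bit_compl (j : J) : (bit j false) = (bit j true)ᶜ := by
  apply Reg.ext'
  intro p
  constructor
  · rintro ⟨h1, h2⟩ q hq ⟨_, h4⟩
    rw [hq.2 j h1, h2] at h4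
    exact Bool.false_ne_true h4
  · intro h
    by_cases hj : j ∈ p.s
    · refine ⟨hj, ?_⟩
      by_contra h2
      exact h p le_rfl ⟨hj, by simpa using h2⟩
    · obtain ⟨q, hq, hs, hb⟩ := exists_bit p j hj true
      exact absurd ⟨by rw [hs]; exact Set.mem_insert _ _, hb⟩ (h q hq)

variable {G : Type} [Group G] [MulAction G J]

instance : MulAction G (Cond J) where
  smul g p := ⟨(fun j => g • j) '' p.s, p.fin.image _, fun j => p.f (g⁻¹ • j)⟩
  one_smul p := by
    show (⟨(fun j => (1 : G) • j) '' p.s, _, fun j => p.f ((1 : G)⁻¹ • j)⟩ : Cond J) = p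
    simp only [one_smul, inv_one, Set.image_id']
  mul_smul g k p := by
    show (⟨(fun j => (g * k) • j) '' p.s, _, fun j => p.f ((g * k)⁻¹ • j)⟩ : Cond J) =
      ⟨(fun j => g • j) '' ((fun j => k • j) '' p.s), _, fun j => p.f (k⁻¹ • g⁻¹ • j)⟩
    simp only [Set.image_image, mul_smul, mul_inv_rev]

theorem smul_s (g : G) (p : Cond J) : (g • p).s = (fun j => g • j) '' p.s := rfl
theorem smul_f (g : G) (p : Cond J) (j : J) : (g • p).f j = p.f (g⁻¹ • j) := rfl

theorem mem_smul_s (g : G) (p : Cond J) (j : J) : j ∈ (g • p).s ↔ g⁻¹ • j ∈ p.s := by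
  rw [smul_s]
  constructor
  · rintro ⟨k, hk, rfl⟩
    simpa using hk
  · intro h
    exact ⟨g⁻¹ • j, h, by simp⟩

theorem smul_mono (g : G) (p q : Cond J) (h : p ≤ q) : g • p ≤ g • q := by
  refine ⟨?_, fun j hj => ?_⟩
  · intro j hj
    rw [mem_smul_s] at hj ⊢
    exact h.1 hj
  · rw [mem_smul_s] at hj
    rw [smul_f, smul_f]
    exact h.2 _ hj

/-- the action on the complete Boolean algebra -/
def rho (G J : Type) [Group G] [MulAction G J] : G →* (Reg (Cond J) ≃o Reg (Cond J)) :=
  Reg.rho (smul_mono (G := G) (J := J))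

theorem rho_bit (g : G) (j : J) (b : Bool) : rho G J g (bit j b) = bit (g • j) b := by
  apply Reg.ext'
  intro p
  show g⁻¹ • p ∈ bit j b ↔ p ∈ bit (g • j) b
  rw [mem_bit, mem_bit, mem_smul_s, smul_f, inv_inv]

end Cond

end Pool.Agent.Helper290.Sym
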