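import Pool.Agent.Helper290.Sym.Formulas

set_option autoImplicit false
set_option linter.unusedSimpArgs false

namespace Pool.Agent.Helper290.Sym

open scoped symmDiff

namespace Fml

variable {n : ℕ}

def neg (φ : Fml n) : Fml n := .imp φ .fls
def or' (φ ψ : Fml n) : Fml n := .imp φ.neg ψ
def and' (φ ψ : Fml n) : Fml n := neg (.imp φ ψ.neg)
def iff' (φ ψ : Fml n) : Fml n := and' (φ.imp ψ) (ψ.imp φ)
def ex (φ : Fml (n + 1)) : Fml n := neg (.all φ.neg)

variable {B : Type} [CompleteBooleanAlgebra B] {V : BStr B} (s : Fin n → V.carrier)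

theorem val_eq (i j : Fin n) : (Fml.eq i j).val V s = V.eq (s i) (s j) := rfl
theorem val_mem (i j : Fin n) : (Fml.mem i j).val V s = V.mem (s i) (s j) := rfl
theorem val_fls : (Fml.fls : Fml n).val V s = ⊥ := rfl
theorem val_imp (φ ψ : Fml n) : (φ.imp ψ).val V s = (φ.val V s ⇨ ψ.val V s) := rfl
theorem val_all (φ : Fml (n + 1)) : (Fml.all φ).val V s = ⨅ x, φ.val V (Fin.cons x s) := rfl
theorem val_neg (φ : Fml n) : (neg φ).val V s = (φ.val V s)ᶜ := himp_bot _
theorem val_or (φ ψ : Fml n) : (or' φ ψ).val V s = φ.val V s ⊔ ψ.val V s := by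
  rw [or', val_imp, val_neg, himp_eq, compl_compl, sup_comm]
theorem val_and (φ ψ : Fml n) : (and' φ ψ).val V s = φ.val V s ⊓ ψ.val V s := by
  rw [and', val_neg, val_imp, val_neg, himp_eq, compl_sup, compl_compl, compl_compl, inf_comm]
theorem val_iff (φ ψ : Fml n) : (iff' φ ψ).val V s = (φ.val V s ⇔ ψ.val V s) := by
  rw [iff', val_and, val_imp, val_imp, bihimp_def, inf_comm]
theorem val_ex (φ : Fml (n + 1)) : (ex φ).val V s = ⨆ x, φ.val V (Fin.cons x s) := by
  rw [ex, val_neg, val_all, compl_iInf]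
  refine iSup_congr fun x => ?_
  rw [val_neg, compl_compl]

/-- renaming of variables -/
def ren : {n m : ℕ} → (Fin n → Fin m) → Fml n → Fml m
  | _, _, f, .eq i j => .eq (f i) (f j)
  | _, _, f, .mem i j => .mem (f i) (f j)
  | _, _, _, .fls => .fls
  | _, _, f, .imp φ ψ => .imp (φ.ren f) (ψ.ren f)
  | _, _, f, .all φ => .all (φ.ren (Fin.cons 0 (fun i => (f i).succ)))

theorem val_ren {n m : ℕ} (f : Fin n → Fin m) (φ : Fml n) (s : Fin m → V.carrier) :
    (φ.ren f).val V s = φ.val V (fun i => s (f i)) := by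
  induction φ generalizing m with
  | eq i j => rfl
  | mem i j => rfl
  | fls => rfl
  | imp φ ψ ih1 ih2 =>
    show (φ.ren f).val V s ⇨ (ψ.ren f).val V s = _
    rw [ih1, ih2]
    rfl
  | all φ ih =>
    show (⨅ x, (φ.ren (Fin.cons 0 (fun i => (f i).succ))).val V (Fin.cons x s)) =
      ⨅ x, φ.val V (Fin.cons x (fun i => s (f i)))
    refine iInf_congr fun x => ?_
    rw [ih]
    congr 1
    funext i
    refine Fin.cases ?_ (fun i => ?_) i
    · rfl
    · rfl

def d_sub {n : ℕ} (x y : Fin n) : Fml n :=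
  (.all (.imp (.mem (0) (x.succ)) (.mem (0) (y.succ))))

theorem val_sub {n : ℕ} (x y : Fin n) (s : Fin n → V.carrier) :
    (d_sub x y).val V s = V.sub (s x) (s y) := by
  simp only [d_sub, BStr.sub, val_eq, val_mem, val_imp, val_all, val_neg, val_or, val_and, val_iff, val_ex,
    Fin.cons_zero, Fin.cons_succ]

def d_union {n : ℕ} (z x y : Fin n) : Fml n :=
  (.all (Fml.iff' (.mem (0) (z.succ)) (Fml.or' (.mem (0) (x.succ)) (.mem (0) (y.succ)))))

theorem val_union {n : ℕ} (z x y : Fin n) (s : Fin n → V.carrier) :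
    (d_union z x y).val V s = V.union (s z) (s x) (s y) := by
  simp only [d_union, BStr.union, val_eq, val_mem, val_imp, val_all, val_neg, val_or, val_and, val_iff, val_ex,
    Fin.cons_zero, Fin.cons_succ, val_sub]

def d_disj {n : ℕ} (x y : Fin n) : Fml n :=
  (.all (Fml.neg (Fml.and' (.mem (0) (x.succ)) (.mem (0) (y.succ)))))

theorem val_disj {n : ℕ} (x y : Fin n) (s : Fin n → V.carrier) :
    (d_disj x y).val V s = V.disj (s x) (s y) := by
  simp only [d_disj, BStr.disj, val_eq, val_mem, val_imp, val_all, val_neg, val_or, val_and, val_iff, val_ex,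
    Fin.cons_zero, Fin.cons_succ, val_sub, val_union]

def d_upair {n : ℕ} (z x y : Fin n) : Fml n :=
  (.all (Fml.iff' (.mem (0) (z.succ)) (Fml.or' (.eq (0) (x.succ)) (.eq (0) (y.succ)))))

theorem val_upair {n : ℕ} (z x y : Fin n) (s : Fin n → V.carrier) :
    (d_upair z x y).val V s = V.upair (s z) (s x) (s y) := by
  simp only [d_upair, BStr.upair, val_eq, val_mem, val_imp, val_all, val_neg, val_or, val_and, val_iff, val_ex,
    Fin.cons_zero, Fin.cons_succ, val_sub, val_union, val_disj]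

def d_pair {n : ℕ} (p x y : Fin n) : Fml n :=
  (.all (Fml.iff' (.mem (0) (p.succ)) (Fml.or' (d_upair (0) (x.succ) (x.succ)) (d_upair (0) (x.succ) (y.succ)))))

theorem val_pair {n : ℕ} (p x y : Fin n) (s : Fin n → V.carrier) :
    (d_pair p x y).val V s = V.pair (s p) (s x) (s y) := by
  simp only [d_pair, BStr.pair, val_eq, val_mem, val_imp, val_all, val_neg, val_or, val_and, val_iff, val_ex,
    Fin.cons_zero, Fin.cons_succ, val_sub, val_union, val_disj, val_upair]

def d_rel {n : ℕ} (f x y : Fin n) : Fml n :=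
  (Fml.ex (Fml.and' (d_pair (0) (x.succ) (y.succ)) (.mem (0) (f.succ))))

theorem val_rel {n : ℕ} (f x y : Fin n) (s : Fin n → V.carrier) :
    (d_rel f x y).val V s = V.rel (s f) (s x) (s y) := by
  simp only [d_rel, BStr.rel, val_eq, val_mem, val_imp, val_all, val_neg, val_or, val_and, val_iff, val_ex,
    Fin.cons_zero, Fin.cons_succ, val_sub, val_union, val_disj, val_upair, val_pair]

def d_op {n : ℕ} (t x y z : Fin n) : Fml n :=
  (Fml.ex (Fml.and' (d_pair (0) (x.succ) (y.succ)) (d_rel (t.succ) (0) (z.succ))))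

theorem val_op {n : ℕ} (t x y z : Fin n) (s : Fin n → V.carrier) :
    (d_op t x y z).val V s = V.op (s t) (s x) (s y) (s z) := by
  simp only [d_op, BStr.op, val_eq, val_mem, val_imp, val_all, val_neg, val_or, val_and, val_iff, val_ex,
    Fin.cons_zero, Fin.cons_succ, val_sub, val_union, val_disj, val_upair, val_pair, val_rel]

def d_isOp {n : ℕ} (A t : Fin n) : Fml n :=
  (.all (.all (.imp (Fml.and' (.mem (Fin.succ (0)) (A.succ.succ)) (.mem (0) (A.succ.succ))) (Fml.and' (Fml.ex (Fml.and' (.mem (0) (A.succ.succ.succ)) (d_op (t.succ.succ.succ) (Fin.succ (Fin.succ (0))) (Fin.succ (0)) (0)))) (.all (.all (.imp (Fml.and' (d_op (t.succ.succ.succ.succ) (Fin.succ (Fin.succ (Fin.succ (0)))) (Fin.succ (Fin.succ (0))) (Fin.succ (0))) (d_op (t.succ.succ.succ.succ) (Fin.succ (Fin.succ (Fin.succ (0)))) (Fin.succ (Fin.succ (0))) (0))) (.eq (Fin.succ (0)) (0)))))))))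

theorem val_isOp {n : ℕ} (A t : Fin n) (s : Fin n → V.carrier) :
    (d_isOp A t).val V s = V.isOp (s A) (s t) := by
  simp only [d_isOp, BStr.isOp, val_eq, val_mem, val_imp, val_all, val_neg, val_or, val_and, val_iff, val_ex,
    Fin.cons_zero, Fin.cons_succ, val_sub, val_union, val_disj, val_upair, val_pair, val_rel, val_op]

def d_assoc {n : ℕ} (A t : Fin n) : Fml n :=
  (.all (.all (.all (.all (.all (.all (.imp (Fml.and' (Fml.and' (Fml.and' (Fml.and' (Fml.and' (.mem (Fin.succ (Fin.succ (Fin.succ (Fin.succ (Fin.succ (0)))))) (A.succ.succ.succ.succ.succ.succ)) (.mem (Fin.succ (Fin.succ (Fin.succ (Fin.succ (0))))) (A.succ.succ.succ.succ.succ.succ))) (.mem (Fin.succ (Fin.succ (Fin.succ (0)))) (A.succ.succ.succ.succ.succ.succ))) (d_op (t.succ.succ.succ.succ.succ.succ) (Fin.succ (Fin.succ (Fin.succ (Fin.succ (Fin.succ (0)))))) (Fin.succ (Fin.succ (Fin.succ (Fin.succ (0))))) (Fin.succ (Fin.succ (0))))) (d_op (t.succ.succ.succ.succ.succ.succ) (Fin.succ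 (Fin.succ (Fin.succ (Fin.succ (0))))) (Fin.succ (Fin.succ (Fin.succ (0)))) (Fin.succ (0)))) (d_op (t.succ.succ.succ.succ.succ.succ) (Fin.succ (Fin.succ (0))) (Fin.succ (Fin.succ (Fin.succ (0)))) (0))) (d_op (t.succ.succ.succ.succ.succ.succ) (Fin.succ (Fin.succ (Fin.succ (Fin.succ (Fin.succ (0)))))) (Fin.succ (0)) (0)))))))))

theorem val_assoc {n : ℕ} (A t : Fin n) (s : Fin n → V.carrier) :
    (d_assoc A t).val V s = V.assoc (s A) (s t) := by
  simp only [d_assoc, BStr.assoc, val_eq, val_mem, val_imp, val_all, val_neg, val_or, val_and, val_iff, val_ex,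
    Fin.cons_zero, Fin.cons_succ, val_sub, val_union, val_disj, val_upair, val_pair, val_rel, val_op, val_isOp]

def d_comm {n : ℕ} (A t : Fin n) : Fml n :=
  (.all (.all (.all (.imp (Fml.and' (Fml.and' (.mem (Fin.succ (Fin.succ (0))) (A.succ.succ.succ)) (.mem (Fin.succ (0)) (A.succ.succ.succ))) (d_op (t.succ.succ.succ) (Fin.succ (Fin.succ (0))) (Fin.succ (0)) (0))) (d_op (t.succ.succ.succ) (Fin.succ (0)) (Fin.succ (Fin.succ (0))) (0))))))

theorem val_comm {n : ℕ} (A t : Fin n) (s : Fin n → V.carrier) :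
    (d_comm A t).val V s = V.comm (s A) (s t) := by
  simp only [d_comm, BStr.comm, val_eq, val_mem, val_imp, val_all, val_neg, val_or, val_and, val_iff, val_ex,
    Fin.cons_zero, Fin.cons_succ, val_sub, val_union, val_disj, val_upair, val_pair, val_rel, val_op, val_isOp, val_assoc]

def d_neutral {n : ℕ} (A t e : Fin n) : Fml n :=
  (Fml.and' (.mem e A) (.all (.imp (.mem (0) (A.succ)) (Fml.and' (d_op (t.succ) (e.succ) (0) (0)) (d_op (t.succ) (0) (e.succ) (0))))))

theorem val_neutral {n : ℕ} (A t e : Fin n) (s : Fin n → V.carrier) :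
    (d_neutral A t e).val V s = V.neutral (s A) (s t) (s e) := by
  simp only [d_neutral, BStr.neutral, val_eq, val_mem, val_imp, val_all, val_neg, val_or, val_and, val_iff, val_ex,
    Fin.cons_zero, Fin.cons_succ, val_sub, val_union, val_disj, val_upair, val_pair, val_rel, val_op, val_isOp, val_assoc, val_comm]

def d_group {n : ℕ} (A t : Fin n) : Fml n :=
  (Fml.and' (Fml.and' (d_isOp A t) (d_assoc A t)) (Fml.ex (Fml.and' (d_neutral (A.succ) (t.succ) (0)) (.all (.imp (.mem (0) (A.succ.succ)) (Fml.ex (Fml.and' (Fml.and' (.mem (0) (A.succ.succ.succ)) (d_op (t.succ.succ.succ) (Fin.succ (0)) (0) (Fin.succ (Fin.succ (0))))) (d_op (t.succ.succ.succ) (0) (Fin.succ (0)) (Fin.succ (Fin.succ (0)))))))))))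

theorem val_group {n : ℕ} (A t : Fin n) (s : Fin n → V.carrier) :
    (d_group A t).val V s = V.group (s A) (s t) := by
  simp only [d_group, BStr.group, val_eq, val_mem, val_imp, val_all, val_neg, val_or, val_and, val_iff, val_ex,
    Fin.cons_zero, Fin.cons_succ, val_sub, val_union, val_disj, val_upair, val_pair, val_rel, val_op, val_isOp, val_assoc, val_comm, val_neutral]

def d_reals {n : ℕ} (R a m l o i : Fin n) : Fml n :=
  (Fml.and' (Fml.and' (Fml.and' (Fml.and' (Fml.and' (Fml.and' (Fml.and' (Fml.and' (Fml.and' (Fml.and' (Fml.and' (Fml.and' (Fml.and' (Fml.and' (Fml.and' (Fml.and' (d_group R a) (d_comm R a)) (d_neutral R a o)) (d_isOp R m)) (d_assoc R m)) (d_comm R m)) (d_neutral R m i)) (Fml.neg (.eq o i))) (d_rel l o i)) (.all (.imp (Fml.and' (.mem (0) (R.succ)) (Fml.neg (.eq (0) (o.succ)))) (Fml.ex (Fml.and' (.mem (0) (R.succ.succ)) (d_op (m.succ.succ) (Fin.succ (0)) (0) (i.succ.succ))))))) (.all (.all (.all (.all (.all (.all (.all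 (.imp (Fml.and' (Fml.and' (Fml.and' (Fml.and' (Fml.and' (Fml.and' (.mem (Fin.succ (Fin.succ (Fin.succ (Fin.succ (Fin.succ (Fin.succ (0))))))) (R.succ.succ.succ.succ.succ.succ.succ)) (.mem (Fin.succ (Fin.succ (Fin.succ (Fin.succ (Fin.succ (0)))))) (R.succ.succ.succ.succ.succ.succ.succ))) (.mem (Fin.succ (Fin.succ (Fin.succ (Fin.succ (0))))) (R.succ.succ.succ.succ.succ.succ.succ))) (d_op (a.succ.succ.succ.succ.succ.succ.succ) (Fin.succ (Fin.succ (Fin.succ (Fin.succ (Fin.succ (0)))))) (Fin.succ (Fin.succ (Fin.succ (Fin.succ (0))))) (Fin.succ (Fin.succ (Fin.succ (0)))))) (d_op (m.succ.succ.succ.succ.succ.succ.succ) (Fin.succ (Fin.succ (Fin.succ (Fin.succ (Fin.succ (Fin.succ (0))))))) (Fin.succ (Fin.succ (Fin.succ (0)))) (0))) (d_op (m.succ.succ.succ.succ.succ.succ.succ) (Fin.succ (Fin.succ (Fin.succ (Fin.succ (Fin.succ (Fin.succ (0))))))) (Fin.succ (Fin.succ (Fin.succ (Fin.succ (Fin.succ (0)))))) (Fin.succ (Fin.succ (0))))) (d_op (m.succ.succ.succ.succ.succ.succ.succ)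 (Fin.succ (Fin.succ (Fin.succ (Fin.succ (Fin.succ (Fin.succ (0))))))) (Fin.succ (Fin.succ (Fin.succ (Fin.succ (0))))) (Fin.succ (0)))) (d_op (a.succ.succ.succ.succ.succ.succ.succ) (Fin.succ (Fin.succ (0))) (Fin.succ (0)) (0))))))))))) (.all (.all (.imp (Fml.and' (.mem (Fin.succ (0)) (R.succ.succ)) (.mem (0) (R.succ.succ))) (Fml.or' (d_rel (l.succ.succ) (Fin.succ (0)) (0)) (d_rel (l.succ.succ) (0) (Fin.succ (0)))))))) (.all (.all (.imp (Fml.and' (Fml.and' (Fml.and' (.mem (Fin.succ (0)) (R.succ.succ)) (.mem (0) (R.succ.succ))) (d_rel (l.succ.succ) (Fin.succ (0)) (0))) (d_rel (l.succ.succ) (0) (Fin.succ (0)))) (.eq (Fin.succ (0)) (0)))))) (.all (.all (.all (.imp (Fml.and' (Fml.and' (Fml.and' (Fml.and' (.mem (Fin.succ (Fin.succ (0))) (R.succ.succ.succ)) (.mem (Fin.succ (0)) (R.succ.succ.succ))) (.mem (0) (R.succ.succ.succ))) (d_rel (l.succ.succ.succ) (Fin.succ (Fin.succ (0))) (Fin.succ (0)))) (d_rel (l.succ.succ.succ) (Fin.succ (0)) (0))) (d_rel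 (l.succ.succ.succ) (Fin.succ (Fin.succ (0))) (0))))))) (.all (.all (.all (.all (.all (.imp (Fml.and' (Fml.and' (Fml.and' (Fml.and' (Fml.and' (.mem (Fin.succ (Fin.succ (Fin.succ (Fin.succ (0))))) (R.succ.succ.succ.succ.succ)) (.mem (Fin.succ (Fin.succ (Fin.succ (0)))) (R.succ.succ.succ.succ.succ))) (.mem (Fin.succ (Fin.succ (0))) (R.succ.succ.succ.succ.succ))) (d_rel (l.succ.succ.succ.succ.succ) (Fin.succ (Fin.succ (Fin.succ (Fin.succ (0))))) (Fin.succ (Fin.succ (Fin.succ (0)))))) (d_op (a.succ.succ.succ.succ.succ) (Fin.succ (Fin.succ (Fin.succ (Fin.succ (0))))) (Fin.succ (Fin.succ (0))) (Fin.succ (0)))) (d_op (a.succ.succ.succ.succ.succ) (Fin.succ (Fin.succ (Fin.succ (0)))) (Fin.succ (Fin.succ (0))) (0))) (d_rel (l.succ.succ.succ.succ.succ) (Fin.succ (0)) (0))))))))) (.all (.all (.all (.imp (Fml.and' (Fml.and' (Fml.and' (Fml.and' (.mem (Fin.succ (Fin.succ (0))) (R.succ.succ.succ)) (.mem (Fin.succ (0)) (R.succ.succ.succ))) (d_rel (l.succ.succ.succ)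 (o.succ.succ.succ) (Fin.succ (Fin.succ (0))))) (d_rel (l.succ.succ.succ) (o.succ.succ.succ) (Fin.succ (0)))) (d_op (m.succ.succ.succ) (Fin.succ (Fin.succ (0))) (Fin.succ (0)) (0))) (d_rel (l.succ.succ.succ) (o.succ.succ.succ) (0))))))) (.all (.imp (Fml.and' (Fml.and' (d_sub (0) (R.succ)) (Fml.ex (.mem (0) (Fin.succ (0))))) (Fml.ex (Fml.and' (.mem (0) (R.succ.succ)) (.all (.imp (.mem (0) (Fin.succ (Fin.succ (0)))) (d_rel (l.succ.succ.succ) (0) (Fin.succ (0)))))))) (Fml.ex (Fml.and' (Fml.and' (.mem (0) (R.succ.succ)) (.all (.imp (.mem (0) (Fin.succ (Fin.succ (0)))) (d_rel (l.succ.succ.succ) (0) (Fin.succ (0)))))) (.all (.imp (Fml.and' (.mem (0) (R.succ.succ.succ)) (.all (.imp (.mem (0) (Fin.succ (Fin.succ (Fin.succ (0))))) (d_rel (l.succ.succ.succ.succ) (0) (Fin.succ (0)))))) (d_rel (l.succ.succ.succ) (Fin.succ (0)) (0)))))))))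

theorem val_reals {n : ℕ} (R a m l o i : Fin n) (s : Fin n → V.carrier) :
    (d_reals R a m l o i).val V s = V.reals (s R) (s a) (s m) (s l) (s o) (s i) := by
  simp only [d_reals, BStr.reals, val_eq, val_mem, val_imp, val_all, val_neg, val_or, val_and, val_iff, val_ex,
    Fin.cons_zero, Fin.cons_succ, val_sub, val_union, val_disj, val_upair, val_pair, val_rel, val_op, val_isOp, val_assoc, val_comm, val_neutral, val_group]

def d_translate {n : ℕ} (t g x z : Fin n) : Fml n :=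
  (.all (Fml.iff' (.mem (0) (z.succ)) (Fml.ex (Fml.and' (.mem (0) (x.succ.succ)) (d_op (t.succ.succ) (g.succ.succ) (0) (Fin.succ (0)))))))

theorem val_translate {n : ℕ} (t g x z : Fin n) (s : Fin n → V.carrier) :
    (d_translate t g x z).val V s = V.translate (s t) (s g) (s x) (s z) := by
  simp only [d_translate, BStr.translate, val_eq, val_mem, val_imp, val_all, val_neg, val_or, val_and, val_iff, val_ex,
    Fin.cons_zero, Fin.cons_succ, val_sub, val_union, val_disj, val_upair, val_pair, val_rel, val_op, val_isOp, val_assoc, val_comm, val_neutral, val_group, val_reals]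

def d_amenable {n : ℕ} (R a l o i G t : Fin n) : Fml n :=
  (Fml.ex (Fml.and' (Fml.and' (Fml.and' (Fml.and' (.all (.imp (d_sub (0) (G.succ.succ)) (Fml.ex (Fml.and' (Fml.and' (Fml.and' (.mem (0) (R.succ.succ.succ)) (d_rel (l.succ.succ.succ) (o.succ.succ.succ) (0))) (d_rel (l.succ.succ.succ) (0) (i.succ.succ.succ))) (d_rel (Fin.succ (Fin.succ (0))) (Fin.succ (0)) (0)))))) (.all (.all (.all (.imp (Fml.and' (Fml.and' (d_sub (Fin.succ (Fin.succ (0))) (G.succ.succ.succ.succ)) (d_rel (Fin.succ (Fin.succ (Fin.succ (0)))) (Fin.succ (Fin.succ (0))) (Fin.succ (0)))) (d_rel (Fin.succ (Fin.succ (Fin.succ (0)))) (Fin.succ (Fin.succ (0))) (0))) (.eq (Fin.succ (0)) (0))))))) (d_rel (0) (G.succ) (i.succ))) (.all (.all (.all (.all (.all (.all (.imp (Fml.and' (Fml.and' (Fml.and' (Fml.and' (Fml.and' (Fml.and' (d_sub (Fin.succ (Fin.succ (Fin.succ (Fin.succ (Fin.succ (0)))))) (G.succ.succ.succ.succ.succ.succ.succ)) (d_sub (Fin.succ (Fin.succ (Fin.succ (Fin.succ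 (0))))) (G.succ.succ.succ.succ.succ.succ.succ))) (d_disj (Fin.succ (Fin.succ (Fin.succ (Fin.succ (Fin.succ (0)))))) (Fin.succ (Fin.succ (Fin.succ (Fin.succ (0))))))) (d_union (Fin.succ (Fin.succ (Fin.succ (0)))) (Fin.succ (Fin.succ (Fin.succ (Fin.succ (Fin.succ (0)))))) (Fin.succ (Fin.succ (Fin.succ (Fin.succ (0))))))) (d_rel (Fin.succ (Fin.succ (Fin.succ (Fin.succ (Fin.succ (Fin.succ (0))))))) (Fin.succ (Fin.succ (Fin.succ (Fin.succ (Fin.succ (0)))))) (Fin.succ (Fin.succ (0))))) (d_rel (Fin.succ (Fin.succ (Fin.succ (Fin.succ (Fin.succ (Fin.succ (0))))))) (Fin.succ (Fin.succ (Fin.succ (Fin.succ (0))))) (Fin.succ (0)))) (d_rel (Fin.succ (Fin.succ (Fin.succ (Fin.succ (Fin.succ (Fin.succ (0))))))) (Fin.succ (Fin.succ (Fin.succ (0)))) (0))) (d_op (a.succ.succ.succ.succ.succ.succ.succ) (Fin.succ (Fin.succ (0))) (Fin.succ (0)) (0)))))))))) (.all (.all (.all (.all (.imp (Fml.and' (Fml.and' (Fml.and' (.mem (Fin.succ (Fin.succ (Fin.succ (0)))) (G.succ.succ.succ.succ.succ))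 (d_sub (Fin.succ (Fin.succ (0))) (G.succ.succ.succ.succ.succ))) (d_translate (t.succ.succ.succ.succ.succ) (Fin.succ (Fin.succ (Fin.succ (0)))) (Fin.succ (Fin.succ (0))) (Fin.succ (0)))) (d_rel (Fin.succ (Fin.succ (Fin.succ (Fin.succ (0))))) (Fin.succ (Fin.succ (0))) (0))) (d_rel (Fin.succ (Fin.succ (Fin.succ (Fin.succ (0))))) (Fin.succ (0)) (0)))))))))

theorem val_amenable {n : ℕ} (R a l o i G t : Fin n) (s : Fin n → V.carrier) :
    (d_amenable R a l o i G t).val V s = V.amenable (s R) (s a) (s l) (s o) (s i) (s G) (s t) := by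
  simp only [d_amenable, BStr.amenable, val_eq, val_mem, val_imp, val_all, val_neg, val_or, val_and, val_iff, val_ex,
    Fin.cons_zero, Fin.cons_succ, val_sub, val_union, val_disj, val_upair, val_pair, val_rel, val_op, val_isOp, val_assoc, val_comm, val_neutral, val_group, val_reals, val_translate]

def d_twoValued {n : ℕ} (G t : Fin n) : Fml n :=
  (Fml.ex (Fml.and' (Fml.and' (.mem (G.succ) (0)) (.all (.all (.all (.imp (Fml.and' (Fml.and' (Fml.and' (d_sub (Fin.succ (Fin.succ (0))) (G.succ.succ.succ.succ)) (d_sub (Fin.succ (0)) (G.succ.succ.succ.succ))) (d_disj (Fin.succ (Fin.succ (0))) (Fin.succ (0)))) (d_union (0) (Fin.succ (Fin.succ (0))) (Fin.succ (0)))) (Fml.and' (Fml.iff' (.mem (0) (Fin.succ (Fin.succ (Fin.succ (0))))) (Fml.or' (.mem (Fin.succ (Fin.succ (0))) (Fin.succ (Fin.succ (Fin.succ (0))))) (.mem (Fin.succ (0)) (Fin.succ (Fin.succ (Fin.succ (0))))))) (Fml.neg (Fml.and' (.mem (Fin.succ (Fin.succ (0))) (Fin.succ (Fin.succ (Fin.succ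 (0))))) (.mem (Fin.succ (0)) (Fin.succ (Fin.succ (Fin.succ (0))))))))))))) (.all (.all (.all (.imp (Fml.and' (Fml.and' (.mem (Fin.succ (Fin.succ (0))) (G.succ.succ.succ.succ)) (d_sub (Fin.succ (0)) (G.succ.succ.succ.succ))) (d_translate (t.succ.succ.succ.succ) (Fin.succ (Fin.succ (0))) (Fin.succ (0)) (0))) (Fml.iff' (.mem (0) (Fin.succ (Fin.succ (Fin.succ (0))))) (.mem (Fin.succ (0)) (Fin.succ (Fin.succ (Fin.succ (0))))))))))))

theorem val_twoValued {n : ℕ} (G t : Fin n) (s : Fin n → V.carrier) :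
    (d_twoValued G t).val V s = V.twoValued (s G) (s t) := by
  simp only [d_twoValued, BStr.twoValued, val_eq, val_mem, val_imp, val_all, val_neg, val_or, val_and, val_iff, val_ex,
    Fin.cons_zero, Fin.cons_succ, val_sub, val_union, val_disj, val_upair, val_pair, val_rel, val_op, val_isOp, val_assoc, val_comm, val_neutral, val_group, val_reals, val_translate, val_amenable]

def d_paradoxical {n : ℕ} (H t : Fin n) : Fml n :=
  (Fml.ex (Fml.ex (Fml.ex (Fml.ex (Fml.ex (Fml.ex (Fml.ex (Fml.and' (Fml.and' (Fml.and' (Fml.and' (Fml.and' (Fml.and' (Fml.and' (Fml.and' (Fml.and' (Fml.and' (d_sub (Fin.succ (Fin.succ (Fin.succ (Fin.succ (Fin.succ (Fin.succ (0))))))) (H.succ.succ.succ.succ.succ.succ.succ)) (.mem (Fin.succ (Fin.succ (Fin.succ (Fin.succ (Fin.succ (0)))))) (H.succ.succ.succ.succ.succ.succ.succ))) (.mem (Fin.succ (Fin.succ (Fin.succ (Fin.succ (0))))) (H.succ.succ.succ.succ.succ.succ.succ))) (.mem (Fin.succ (Fin.succ (Fin.succ (0)))) (H.succ.succ.succ.succ.succ.succ.succ)))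 (d_translate (t.succ.succ.succ.succ.succ.succ.succ) (Fin.succ (Fin.succ (Fin.succ (Fin.succ (Fin.succ (0)))))) (Fin.succ (Fin.succ (Fin.succ (Fin.succ (Fin.succ (Fin.succ (0))))))) (Fin.succ (Fin.succ (0))))) (d_translate (t.succ.succ.succ.succ.succ.succ.succ) (Fin.succ (Fin.succ (Fin.succ (Fin.succ (0))))) (Fin.succ (Fin.succ (Fin.succ (Fin.succ (Fin.succ (Fin.succ (0))))))) (Fin.succ (0)))) (d_translate (t.succ.succ.succ.succ.succ.succ.succ) (Fin.succ (Fin.succ (Fin.succ (0)))) (Fin.succ (Fin.succ (Fin.succ (Fin.succ (Fin.succ (Fin.succ (0))))))) (0))) (d_union (H.succ.succ.succ.succ.succ.succ.succ) (Fin.succ (Fin.succ (Fin.succ (Fin.succ (Fin.succ (Fin.succ (0))))))) (Fin.succ (Fin.succ (0))))) (d_disj (Fin.succ (Fin.succ (Fin.succ (Fin.succ (Fin.succ (Fin.succ (0))))))) (Fin.succ (0)))) (d_disj (Fin.succ (Fin.succ (Fin.succ (Fin.succ (Fin.succ (Fin.succ (0))))))) (0))) (d_disj (Fin.succ (0)) (0))))))))))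

theorem val_paradoxical {n : ℕ} (H t : Fin n) (s : Fin n → V.carrier) :
    (d_paradoxical H t).val V s = V.paradoxical (s H) (s t) := by
  simp only [d_paradoxical, BStr.paradoxical, val_eq, val_mem, val_imp, val_all, val_neg, val_or, val_and, val_iff, val_ex,
    Fin.cons_zero, Fin.cons_succ, val_sub, val_union, val_disj, val_upair, val_pair, val_rel, val_op, val_isOp, val_assoc, val_comm, val_neutral, val_group, val_reals, val_translate, val_amenable, val_twoValued]

def d_failsS {n : ℕ} : Fml n :=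
  (Fml.ex (Fml.ex (Fml.ex (Fml.and' (Fml.and' (Fml.and' (Fml.and' (Fml.and' (d_group (Fin.succ (Fin.succ (0))) (0)) (d_sub (Fin.succ (0)) (Fin.succ (Fin.succ (0))))) (d_group (Fin.succ (0)) (0))) (d_twoValued (Fin.succ (Fin.succ (0))) (0))) (d_paradoxical (Fin.succ (0)) (0))) (.all (.all (.all (.all (.all (.all (.imp (d_reals (Fin.succ (Fin.succ (Fin.succ (Fin.succ (Fin.succ (0)))))) (Fin.succ (Fin.succ (Fin.succ (Fin.succ (0))))) (Fin.succ (Fin.succ (Fin.succ (0)))) (Fin.succ (Fin.succ (0))) (Fin.succ (0)) (0)) (Fml.and' (d_amenable (Fin.succ (Fin.succ (Fin.succ (Fin.succ (Fin.succ (0)))))) (Fin.succ (Fin.succ (Fin.succ (Fin.succ (0))))) (Fin.succ (Fin.succ (0))) (Fin.succ (0)) (0) (Fin.succ (Fin.succ (Fin.succ (Fin.succ (Fin.succ (Fin.succ (Fin.succ (Fin.succ (0))))))))) (Fin.succ (Fin.succ (Fin.succ (Fin.succ (Fin.succ (Fin.succ (0)))))))) (Fml.neg (d_amenable (Fin.succ (Fin.succ (Fin.succ (Fin.succ (Fin.succ (0)))))) (Fin.succ (Fin.succ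 (Fin.succ (Fin.succ (0))))) (Fin.succ (Fin.succ (0))) (Fin.succ (0)) (0) (Fin.succ (Fin.succ (Fin.succ (Fin.succ (Fin.succ (Fin.succ (Fin.succ (0)))))))) (Fin.succ (Fin.succ (Fin.succ (Fin.succ (Fin.succ (Fin.succ (0)))))))))))))))))))))

theorem val_failsS {n : ℕ}  (s : Fin n → V.carrier) :
    (d_failsS ).val V s = V.failsS  := by
  simp only [d_failsS, BStr.failsS, val_eq, val_mem, val_imp, val_all, val_neg, val_or, val_and, val_iff, val_ex,
    Fin.cons_zero, Fin.cons_succ, val_sub, val_union, val_disj, val_upair, val_pair, val_rel, val_op, val_isOp, val_assoc, val_comm, val_neutral, val_group, val_reals, val_translate, val_amenable, val_twoValued, val_paradoxical]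

end Fml

end Pool.Agent.Helper290.Sym
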