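import Pool.Agent.Helper290.Sym.Deep

set_option autoImplicit false
set_option linter.unusedSimpArgs false

namespace Pool.Agent.Helper290.Sym

open scoped symmDiff

namespace Fml

variable {B : Type} [CompleteBooleanAlgebra B] {V : BStr B}

def ax_refl {n : ℕ} (x : Fin n) : Fml n :=
  (.eq x x)

theorem val_ax_refl {n : ℕ} (x : Fin n) (s : Fin n → V.carrier) :
    (ax_refl x).val V s =
      (V.eq (s x) (s x)) := by
  simp only [ax_refl, val_eq, val_mem, val_imp, val_all, val_neg, val_or, val_and, val_iff, val_ex,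
    Fin.cons_zero, Fin.cons_succ]

def ax_symm {n : ℕ} (x y : Fin n) : Fml n :=
  (.imp (.eq x y) (.eq y x))

theorem val_ax_symm {n : ℕ} (x y : Fin n) (s : Fin n → V.carrier) :
    (ax_symm x y).val V s =
      (V.eq (s x) (s y) ⇨ V.eq (s y) (s x)) := by
  simp only [ax_symm, val_eq, val_mem, val_imp, val_all, val_neg, val_or, val_and, val_iff, val_ex,
    Fin.cons_zero, Fin.cons_succ]

def ax_trans {n : ℕ} (x y z : Fin n) : Fml n :=
  (.imp (Fml.and' (.eq x y) (.eq y z)) (.eq x z))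

theorem val_ax_trans {n : ℕ} (x y z : Fin n) (s : Fin n → V.carrier) :
    (ax_trans x y z).val V s =
      (V.eq (s x) (s y) ⊓ V.eq (s y) (s z) ⇨ V.eq (s x) (s z)) := by
  simp only [ax_trans, val_eq, val_mem, val_imp, val_all, val_neg, val_or, val_and, val_iff, val_ex,
    Fin.cons_zero, Fin.cons_succ]

def ax_memL {n : ℕ} (x y z : Fin n) : Fml n :=
  (.imp (Fml.and' (.eq x y) (.mem x z)) (.mem y z))

theorem val_ax_memL {n : ℕ} (x y z : Fin n) (s : Fin n → V.carrier) :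
    (ax_memL x y z).val V s =
      (V.eq (s x) (s y) ⊓ V.mem (s x) (s z) ⇨ V.mem (s y) (s z)) := by
  simp only [ax_memL, val_eq, val_mem, val_imp, val_all, val_neg, val_or, val_and, val_iff, val_ex,
    Fin.cons_zero, Fin.cons_succ]

def ax_memR {n : ℕ} (x y z : Fin n) : Fml n :=
  (.imp (Fml.and' (.eq x y) (.mem z x)) (.mem z y))

theorem val_ax_memR {n : ℕ} (x y z : Fin n) (s : Fin n → V.carrier) :
    (ax_memR x y z).val V s =
      (V.eq (s x) (s y) ⊓ V.mem (s z) (s x) ⇨ V.mem (s z) (s y)) := by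
  simp only [ax_memR, val_eq, val_mem, val_imp, val_all, val_neg, val_or, val_and, val_iff, val_ex,
    Fin.cons_zero, Fin.cons_succ]

def ax_ext {n : ℕ} (x y : Fin n) : Fml n :=
  (.imp (.all (Fml.iff' (.mem (0) (x.succ)) (.mem (0) (y.succ)))) (.eq x y))

theorem val_ax_ext {n : ℕ} (x y : Fin n) (s : Fin n → V.carrier) :
    (ax_ext x y).val V s =
      ((⨅ z, (V.mem z (s x) ⇔ V.mem z (s y))) ⇨ V.eq (s x) (s y)) := by
  simp only [ax_ext, val_eq, val_mem, val_imp, val_all, val_neg, val_or, val_and, val_iff, val_ex,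
    Fin.cons_zero, Fin.cons_succ]

def ax_found {n : ℕ} (x : Fin n) : Fml n :=
  (.imp (Fml.ex (.mem (0) (x.succ))) (Fml.ex (Fml.and' (.mem (0) (x.succ)) (.all (.imp (.mem (0) (x.succ.succ)) (Fml.neg (.mem (0) (Fin.succ (0)))))))))

theorem val_ax_found {n : ℕ} (x : Fin n) (s : Fin n → V.carrier) :
    (ax_found x).val V s =
      ((⨆ y, V.mem y (s x)) ⇨ ⨆ y, V.mem y (s x) ⊓ ⨅ z, (V.mem z (s x) ⇨ (V.mem z y)ᶜ)) := by
  simp only [ax_found, val_eq, val_mem, val_imp, val_all, val_neg, val_or, val_and, val_iff, val_ex,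
    Fin.cons_zero, Fin.cons_succ]

def ax_pair {n : ℕ} (x y : Fin n) : Fml n :=
  (Fml.ex (.all (Fml.iff' (.mem (0) (Fin.succ (0))) (Fml.or' (.eq (0) (x.succ.succ)) (.eq (0) (y.succ.succ))))))

theorem val_ax_pair {n : ℕ} (x y : Fin n) (s : Fin n → V.carrier) :
    (ax_pair x y).val V s =
      (⨆ p, ⨅ z, (V.mem z p ⇔ (V.eq z (s x) ⊔ V.eq z (s y)))) := by
  simp only [ax_pair, val_eq, val_mem, val_imp, val_all, val_neg, val_or, val_and, val_iff, val_ex,
    Fin.cons_zero, Fin.cons_succ]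

def ax_union {n : ℕ} (x : Fin n) : Fml n :=
  (Fml.ex (.all (Fml.iff' (.mem (0) (Fin.succ (0))) (Fml.ex (Fml.and' (.mem (0) (x.succ.succ.succ)) (.mem (Fin.succ (0)) (0)))))))

theorem val_ax_union {n : ℕ} (x : Fin n) (s : Fin n → V.carrier) :
    (ax_union x).val V s =
      (⨆ u, ⨅ z, (V.mem z u ⇔ ⨆ y, V.mem y (s x) ⊓ V.mem z y)) := by
  simp only [ax_union, val_eq, val_mem, val_imp, val_all, val_neg, val_or, val_and, val_iff, val_ex,
    Fin.cons_zero, Fin.cons_succ]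

def ax_power {n : ℕ} (x : Fin n) : Fml n :=
  (Fml.ex (.all (Fml.iff' (.mem (0) (Fin.succ (0))) (.all (.imp (.mem (0) (Fin.succ (0))) (.mem (0) (x.succ.succ.succ)))))))

theorem val_ax_power {n : ℕ} (x : Fin n) (s : Fin n → V.carrier) :
    (ax_power x).val V s =
      (⨆ p, ⨅ y, (V.mem y p ⇔ ⨅ z, (V.mem z y ⇨ V.mem z (s x)))) := by
  simp only [ax_power, val_eq, val_mem, val_imp, val_all, val_neg, val_or, val_and, val_iff, val_ex,
    Fin.cons_zero, Fin.cons_succ]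

def ax_inf {n : ℕ}  : Fml n :=
  (Fml.ex (Fml.and' (Fml.ex (Fml.and' (.mem (0) (Fin.succ (0))) (.all (Fml.neg (.mem (0) (Fin.succ (0))))))) (.all (.imp (.mem (0) (Fin.succ (0))) (Fml.ex (Fml.and' (.mem (0) (Fin.succ (Fin.succ (0)))) (.all (Fml.iff' (.mem (0) (Fin.succ (0))) (Fml.or' (.mem (0) (Fin.succ (Fin.succ (0)))) (.eq (0) (Fin.succ (Fin.succ (0)))))))))))))

theorem val_ax_inf {n : ℕ}  (s : Fin n → V.carrier) :
    (ax_inf ).val V s =
      (⨆ w, (⨆ e, V.mem e w ⊓ ⨅ z, (V.mem z e)ᶜ) ⊓ ⨅ x, (V.mem x w ⇨ ⨆ y, V.mem y w ⊓ ⨅ z, (V.mem z y ⇔ (V.mem z x ⊔ V.eq z x)))) := by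
  simp only [ax_inf, val_eq, val_mem, val_imp, val_all, val_neg, val_or, val_and, val_iff, val_ex,
    Fin.cons_zero, Fin.cons_succ]


/-- separation: variable `0` is the set `x`, the others are the parameters -/
def ax_sep {n : ℕ} (φ : Fml (n + 1)) : Fml (n + 1) :=
  ex (.all (iff' (.mem 0 (Fin.succ 0)) (and' (.mem 0 (Fin.succ (Fin.succ 0)))
    (φ.ren (Fin.cons 0 (fun i => i.succ.succ.succ))))))

theorem val_ax_sep {n : ℕ} (φ : Fml (n + 1)) (s : Fin n → V.carrier) (x : V.carrier) :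
    (ax_sep φ).val V (Fin.cons x s) =
      ⨆ y, ⨅ z, (V.mem z y ⇔ (V.mem z x ⊓ φ.val V (Fin.cons z s))) := by
  simp only [ax_sep, val_mem, val_all, val_and, val_iff, val_ex, Fin.cons_zero, Fin.cons_succ,
    val_ren]
  refine iSup_congr fun y => iInf_congr fun z => ?_
  congr 3
  funext i
  refine Fin.cases ?_ (fun i => ?_) i
  · rfl
  · rfl

/-- replacement: variable `0` is the set `x`, the others are the parameters -/
def ax_repl {n : ℕ} (φ : Fml (n + 2)) : Fml (n + 1) :=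
  .imp
    (.all (.imp (.mem 0 (Fin.succ 0)) (.all (.all (.imp
      (and' (φ.ren (Fin.cons (Fin.succ (Fin.succ 0))
          (Fin.cons (Fin.succ 0) (fun i => i.succ.succ.succ.succ))))
        (φ.ren (Fin.cons (Fin.succ (Fin.succ 0))
          (Fin.cons 0 (fun i => i.succ.succ.succ.succ)))))
      (.eq (Fin.succ 0) 0))))))
    (ex (.all (iff' (.mem 0 (Fin.succ 0)) (ex (and' (.mem 0 (Fin.succ (Fin.succ (Fin.succ 0))))
      (φ.ren (Fin.cons 0 (Fin.cons (Fin.succ 0) (fun i => i.succ.succ.succ.succ)))))))))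

theorem val_ax_repl {n : ℕ} (φ : Fml (n + 2)) (s : Fin n → V.carrier) (x : V.carrier) :
    (ax_repl φ).val V (Fin.cons x s) =
      ((⨅ y, (V.mem y x ⇨ ⨅ z, ⨅ z', (φ.val V (Fin.cons y (Fin.cons z s)) ⊓
      φ.val V (Fin.cons y (Fin.cons z' s)) ⇨ V.eq z z'))) ⇨
    ⨆ w, ⨅ z, (V.mem z w ⇔ ⨆ y, V.mem y x ⊓ φ.val V (Fin.cons y (Fin.cons z s)))) := by
  simp only [ax_repl, val_mem, val_eq, val_imp, val_all, val_and, val_iff, val_ex, Fin.cons_zero,
    Fin.cons_succ, val_ren]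
  congr 1
  · refine iInf_congr fun y => ?_
    congr 1
    refine iInf_congr fun z => iInf_congr fun z' => ?_
    congr 3
    · funext i
      refine Fin.cases ?_ (fun i => Fin.cases ?_ (fun i => ?_) i) i <;> rfl
    · funext i
      refine Fin.cases ?_ (fun i => Fin.cases ?_ (fun i => ?_) i) i <;> rfl
  · refine iSup_congr fun w => iInf_congr fun z => ?_
    congr 1
    refine iSup_congr fun y => ?_
    congr 2
    funext i
    refine Fin.cases ?_ (fun i => Fin.cases ?_ (fun i => ?_) i) i <;> rfl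

end Fml

end Pool.Agent.Helper290.Sym
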