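import Mathlib

set_option autoImplicit false

namespace Pool.Agent.Helper290.Sym

/-- Names over `B` (the class of all `B`-valued sets over the universe `Type`). -/
inductive Name (B : Type) : Type 1
  | mk (α : Type) (A : α → Name B) (v : α → B) : Name B

namespace Name

variable {B : Type} [CompleteBooleanAlgebra B]

/-- The Boolean value of `u = w`. -/
def eq : Name B → Name B → B
  | mk _ A v, mk _ C w =>
    (⨅ i, (v i ⇨ ⨆ j, w j ⊓ eq (A i) (C j))) ⊓ (⨅ j, (w j ⇨ ⨆ i, v i ⊓ eq (A i) (C j)))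

/-- The Boolean value of `x ∈ u`. -/
def mem (x : Name B) : Name B → B
  | mk _ C w => ⨆ j, w j ⊓ eq x (C j)

/-- An automorphism of `B` acts on names. -/
def act (π : B ≃o B) : Name B → Name B
  | mk α A v => mk α (fun i => act π (A i)) (fun i => π (v i))

end Name

/-- A symmetric system: a complete Boolean algebra `B`, a group `G` acting on `B` by
automorphisms (through `ρ`) and acting on a set `X` of possible elements of supports. -/
structure SymSystem where
  B : Type
  [cba : CompleteBooleanAlgebra B]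
  G : Type
  [grp : Group G]
  X : Type
  [mulAct : MulAction G X]
  ρ : G →* (B ≃o B)

attribute [instance] SymSystem.cba SymSystem.grp SymSystem.mulAct

namespace SymSystem

variable (S : SymSystem)

/-- A name is symmetric if it has a finite support: a finite set `E ⊆ X` such that every group
element fixing `E` pointwise fixes the name (with Boolean value `⊤`). -/
def Symm (u : Name S.B) : Prop :=
  ∃ E : Set S.X, E.Finite ∧ ∀ g : S.G, (∀ x ∈ E, g • x = x) → (u.act (S.ρ g)).eq u = ⊤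

/-- Hereditarily symmetric names. -/
def HS : Name S.B → Prop
  | .mk α A v => S.Symm (.mk α A v) ∧ ∀ i, HS (A i)

/-- The symmetric model: all hereditarily symmetric names. -/
def M : Type 1 := {u : Name S.B // S.HS u}

end SymSystem

/-- A Boolean-valued structure for the language of set theory. -/
structure BStr (B : Type) where
  carrier : Type 1
  eq : carrier → carrier → B
  mem : carrier → carrier → B

/-- The symmetric model as a Boolean-valued structure. -/
abbrev SymSystem.model (S : SymSystem) : BStr S.B where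
  carrier := S.M
  eq := fun x y => x.1.eq y.1
  mem := fun x y => x.1.mem y.1

/-- First-order formulas of the language of set theory with free variables among `n` (the
variable `0` is the innermost one). -/
inductive Fml : ℕ → Type
  | eq {n : ℕ} (i j : Fin n) : Fml n
  | mem {n : ℕ} (i j : Fin n) : Fml n
  | fls {n : ℕ} : Fml n
  | imp {n : ℕ} (φ ψ : Fml n) : Fml n
  | all {n : ℕ} (φ : Fml (n + 1)) : Fml n

/-- The Boolean value of a formula. -/
def Fml.val {B : Type} [CompleteBooleanAlgebra B] (V : BStr B) :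
    {n : ℕ} → Fml n → (Fin n → V.carrier) → B
  | _, .eq i j, s => V.eq (s i) (s j)
  | _, .mem i j, s => V.mem (s i) (s j)
  | _, .fls, _ => ⊥
  | _, .imp φ ψ, s => φ.val V s ⇨ ψ.val V s
  | _, .all φ, s => ⨅ x, φ.val V (Fin.cons x s)

open scoped symmDiff in
/-- The Boolean-valued structure `V` is a model of ZF: the axioms of equality and all the axioms
of ZF have value `⊤` (a statement `∀ x, ...` is expressed by `⨅ x, ...` or by quantifying over all
`x`, and `∃ y, ...` by `⨆ y, ...`). -/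
structure ModelsZF {B : Type} [CompleteBooleanAlgebra B] (V : BStr B) : Prop where
  eq_refl : ∀ x, V.eq x x = ⊤
  eq_symm : ∀ x y, V.eq x y ≤ V.eq y x
  eq_trans : ∀ x y z, V.eq x y ⊓ V.eq y z ≤ V.eq x z
  mem_congr_left : ∀ x y z, V.eq x y ⊓ V.mem x z ≤ V.mem y z
  mem_congr_right : ∀ x y z, V.eq x y ⊓ V.mem z x ≤ V.mem z y
  extensionality : ∀ x y, (⨅ z, (V.mem z x ⇔ V.mem z y)) ≤ V.eq x y
  foundation : ∀ x, (⨆ y, V.mem y x) ≤
    ⨆ y, V.mem y x ⊓ ⨅ z, (V.mem z x ⇨ (V.mem z y)ᶜ)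
  pairing : ∀ x y, (⨆ p, ⨅ z, (V.mem z p ⇔ (V.eq z x ⊔ V.eq z y))) = ⊤
  union : ∀ x, (⨆ u, ⨅ z, (V.mem z u ⇔ ⨆ y, V.mem y x ⊓ V.mem z y)) = ⊤
  power : ∀ x, (⨆ p, ⨅ y, (V.mem y p ⇔ ⨅ z, (V.mem z y ⇨ V.mem z x))) = ⊤
  infinity : (⨆ w, (⨆ e, V.mem e w ⊓ ⨅ z, (V.mem z e)ᶜ) ⊓
    ⨅ x, (V.mem x w ⇨ ⨆ y, V.mem y w ⊓ ⨅ z, (V.mem z y ⇔ (V.mem z x ⊔ V.eq z x)))) = ⊤
  separation : ∀ {n : ℕ} (φ : Fml (n + 1)) (s : Fin n → V.carrier) (x : V.carrier),
    (⨆ y, ⨅ z, (V.mem z y ⇔ (V.mem z x ⊓ φ.val V (Fin.cons z s)))) = ⊤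
  replacement : ∀ {n : ℕ} (φ : Fml (n + 2)) (s : Fin n → V.carrier) (x : V.carrier),
    (⨅ y, (V.mem y x ⇨ ⨅ z, ⨅ z', (φ.val V (Fin.cons y (Fin.cons z s)) ⊓
      φ.val V (Fin.cons y (Fin.cons z' s)) ⇨ V.eq z z'))) ≤
    ⨆ w, ⨅ z, (V.mem z w ⇔ ⨆ y, V.mem y x ⊓ φ.val V (Fin.cons y (Fin.cons z s)))

end Pool.Agent.Helper290.Sym
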