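import Pool.Agent.Helper290.Sym.Defs

set_option autoImplicit false

namespace Pool.Agent.Helper290.Sym

open scoped symmDiff

namespace BStr

variable {B : Type} [CompleteBooleanAlgebra B] (V : BStr B)

/-! Boolean values of some set-theoretic formulas in a Boolean-valued structure `V`.  Every
definition below uses only `V.eq`, `V.mem`, the Boolean operations, and the quantifiers
`⨅ x : V` and `⨆ x : V` (over the members of `V`), so it is the value of a first-order formula. -/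

/-- `x ⊆ y` -/
def sub (x y : V.carrier) : B := ⨅ z, (V.mem z x ⇨ V.mem z y)

/-- `z = x ∪ y` -/
def union (z x y : V.carrier) : B := ⨅ w, (V.mem w z ⇔ (V.mem w x ⊔ V.mem w y))

/-- `x ∩ y = ∅` -/
def disj (x y : V.carrier) : B := ⨅ w, (V.mem w x ⊓ V.mem w y)ᶜ

/-- `z = {x, y}` -/
def upair (z x y : V.carrier) : B := ⨅ w, (V.mem w z ⇔ (V.eq w x ⊔ V.eq w y))

/-- `p = (x, y)`, the Kuratowski pair `{{x}, {x, y}}` -/
def pair (p x y : V.carrier) : B := ⨅ z, (V.mem z p ⇔ (V.upair z x x ⊔ V.upair z x y))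

/-- `(x, y) ∈ f`; for a function `f` this says `f(x) = y` -/
def rel (f x y : V.carrier) : B := ⨆ p, V.pair p x y ⊓ V.mem p f

/-- `((x, y), z) ∈ t`; for a binary operation `t` this says `t(x, y) = z` -/
def op (t x y z : V.carrier) : B := ⨆ p, V.pair p x y ⊓ V.rel t p z

/-- `t` is a binary operation on `A`: for `x, y ∈ A` exactly one `z` satisfies `t(x, y) = z`,
and this `z` is in `A` -/
def isOp (A t : V.carrier) : B :=
  ⨅ x, ⨅ y, (V.mem x A ⊓ V.mem y A ⇨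
    (⨆ z, V.mem z A ⊓ V.op t x y z) ⊓ (⨅ z, ⨅ z', (V.op t x y z ⊓ V.op t x y z' ⇨ V.eq z z')))

/-- associativity of `t` on `A` -/
def assoc (A t : V.carrier) : B :=
  ⨅ x, ⨅ y, ⨅ z, ⨅ u, ⨅ v, ⨅ w, (V.mem x A ⊓ V.mem y A ⊓ V.mem z A ⊓
    V.op t x y u ⊓ V.op t y z v ⊓ V.op t u z w ⇨ V.op t x v w)

/-- commutativity of `t` on `A` -/
def comm (A t : V.carrier) : B :=
  ⨅ x, ⨅ y, ⨅ z, (V.mem x A ⊓ V.mem y A ⊓ V.op t x y z ⇨ V.op t y x z)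

/-- `e` is a neutral element of `A` for `t` -/
def neutral (A t e : V.carrier) : B :=
  V.mem e A ⊓ ⨅ x, (V.mem x A ⇨ V.op t e x x ⊓ V.op t x e x)

/-- `A` is a group under `t` -/
def group (A t : V.carrier) : B :=
  V.isOp A t ⊓ V.assoc A t ⊓
    ⨆ e, V.neutral A t e ⊓ ⨅ x, (V.mem x A ⇨ ⨆ y, V.mem y A ⊓ V.op t x y e ⊓ V.op t y x e)

/-- `R` with addition `a`, multiplication `m`, order `l`, zero `o` and unit `i` is a complete
ordered field, in other words the field of real numbers -/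
def reals (R a m l o i : V.carrier) : B :=
  V.group R a ⊓ V.comm R a ⊓ V.neutral R a o ⊓
  V.isOp R m ⊓ V.assoc R m ⊓ V.comm R m ⊓ V.neutral R m i ⊓
  (V.eq o i)ᶜ ⊓ V.rel l o i ⊓
  (⨅ x, (V.mem x R ⊓ (V.eq x o)ᶜ ⇨ ⨆ y, V.mem y R ⊓ V.op m x y i)) ⊓
  (⨅ x, ⨅ y, ⨅ z, ⨅ u, ⨅ v, ⨅ w, ⨅ p, (V.mem x R ⊓ V.mem y R ⊓ V.mem z R ⊓
    V.op a y z u ⊓ V.op m x u p ⊓ V.op m x y v ⊓ V.op m x z w ⇨ V.op a v w p)) ⊓
  (⨅ x, ⨅ y, (V.mem x R ⊓ V.mem y R ⇨ V.rel l x y ⊔ V.rel l y x)) ⊓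
  (⨅ x, ⨅ y, (V.mem x R ⊓ V.mem y R ⊓ V.rel l x y ⊓ V.rel l y x ⇨ V.eq x y)) ⊓
  (⨅ x, ⨅ y, ⨅ z, (V.mem x R ⊓ V.mem y R ⊓ V.mem z R ⊓ V.rel l x y ⊓ V.rel l y z ⇨
    V.rel l x z)) ⊓
  (⨅ x, ⨅ y, ⨅ z, ⨅ u, ⨅ v, (V.mem x R ⊓ V.mem y R ⊓ V.mem z R ⊓ V.rel l x y ⊓
    V.op a x z u ⊓ V.op a y z v ⇨ V.rel l u v)) ⊓
  (⨅ x, ⨅ y, ⨅ z, (V.mem x R ⊓ V.mem y R ⊓ V.rel l o x ⊓ V.rel l o y ⊓ V.op m x y z ⇨
    V.rel l o z)) ⊓
  (⨅ Y, (V.sub Y R ⊓ (⨆ y, V.mem y Y) ⊓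
      (⨆ b, V.mem b R ⊓ ⨅ y, (V.mem y Y ⇨ V.rel l y b)) ⇨
    ⨆ b, V.mem b R ⊓ (⨅ y, (V.mem y Y ⇨ V.rel l y b)) ⊓
      ⨅ c, (V.mem c R ⊓ (⨅ y, (V.mem y Y ⇨ V.rel l y c)) ⇨ V.rel l b c)))

/-- `z = g · x = {g · y : y ∈ x}` for the operation `t` -/
def translate (t g x z : V.carrier) : B := ⨅ w, (V.mem w z ⇔ ⨆ y, V.mem y x ⊓ V.op t g y w)

/-- the group `G` (with operation `t`) is amenable: there is a function `μ` from the power set of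
`G` to the interval `[o, i]` of the ordered field `R` (with addition `a`, order `l`, zero `o`,
unit `i`) with `μ(G) = i`, additive on disjoint sets, and left-invariant -/
def amenable (R a l o i G t : V.carrier) : B :=
  ⨆ μ, (⨅ X, (V.sub X G ⇨ ⨆ r, V.mem r R ⊓ V.rel l o r ⊓ V.rel l r i ⊓ V.rel μ X r)) ⊓
    (⨅ X, ⨅ r, ⨅ s, (V.sub X G ⊓ V.rel μ X r ⊓ V.rel μ X s ⇨ V.eq r s)) ⊓
    V.rel μ G i ⊓
    (⨅ X, ⨅ Y, ⨅ Z, ⨅ r, ⨅ s, ⨅ u, (V.sub X G ⊓ V.sub Y G ⊓ V.disj X Y ⊓ V.union Z X Y ⊓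
      V.rel μ X r ⊓ V.rel μ Y s ⊓ V.rel μ Z u ⇨ V.op a r s u)) ⊓
    (⨅ g, ⨅ X, ⨅ Z, ⨅ r, (V.mem g G ⊓ V.sub X G ⊓ V.translate t g X Z ⊓ V.rel μ X r ⇨
      V.rel μ Z r))

/-- a strong form of amenability: there is a set `F` of subsets of `G` whose characteristic
function is a finitely additive left-invariant probability measure on all subsets of `G`, with
values in `{0, 1}` -/
def twoValued (G t : V.carrier) : B :=
  ⨆ F, V.mem G F ⊓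
    (⨅ X, ⨅ Y, ⨅ Z, (V.sub X G ⊓ V.sub Y G ⊓ V.disj X Y ⊓ V.union Z X Y ⇨
      (V.mem Z F ⇔ (V.mem X F ⊔ V.mem Y F)) ⊓ (V.mem X F ⊓ V.mem Y F)ᶜ)) ⊓
    (⨅ g, ⨅ X, ⨅ Z, (V.mem g G ⊓ V.sub X G ⊓ V.translate t g X Z ⇨ (V.mem Z F ⇔ V.mem X F)))

/-- a strong form of non-amenability (a paradoxical decomposition): there are a set `D ⊆ H` and
`b, c, d ∈ H` such that `H = D ∪ bD` while `D`, `cD` and `dD` are pairwise disjoint (a measure
`μ` as in the definition of amenability would satisfy `1 ≤ 2 μ(D)` and `3 μ(D) ≤ 1`) -/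
def paradoxical (H t : V.carrier) : B :=
  ⨆ D, ⨆ b, ⨆ c, ⨆ d, ⨆ D1, ⨆ D2, ⨆ D3, V.sub D H ⊓ V.mem b H ⊓ V.mem c H ⊓ V.mem d H ⊓
    V.translate t b D D1 ⊓ V.translate t c D D2 ⊓ V.translate t d D D3 ⊓
    V.union H D D1 ⊓ V.disj D D2 ⊓ V.disj D D3 ⊓ V.disj D2 D3

/-- there are a group `G` and a subgroup `H` of `G` such that `G` carries a `{0, 1}`-valued
finitely additive left-invariant probability measure on all its subsets, `H` has a paradoxical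
decomposition, and, for every complete ordered field of real numbers, `G` is amenable and `H` is
not amenable (with measures taking values in the interval `[0, 1]` of this field) -/
def failsS : B :=
  ⨆ G, ⨆ H, ⨆ t, V.group G t ⊓ V.sub H G ⊓ V.group H t ⊓ V.twoValued G t ⊓ V.paradoxical H t ⊓
    (⨅ R, ⨅ a, ⨅ m, ⨅ l, ⨅ o, ⨅ i, (V.reals R a m l o i ⇨
      V.amenable R a l o i G t ⊓ (V.amenable R a l o i H t)ᶜ))

end BStr

end Pool.Agent.Helper290.Sym
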