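import Pool.Agent.Helper290.Sym.NonAmen

set_option autoImplicit false

namespace Pool.Agent.Helper290.Sym

/-- Automorphisms of the free group on `ℕ` fixing all but finitely many of the generators. -/
def Fin0 : Subgroup (MulAut (FreeGroup ℕ)) where
  carrier := {γ | ∃ N, ∀ n, N ≤ n → γ (FreeGroup.of n) = FreeGroup.of n}
  one_mem' := ⟨0, fun n _ => rfl⟩
  mul_mem' := by
    rintro γ δ ⟨N, hN⟩ ⟨M, hM⟩
    refine ⟨max N M, fun n hn => ?_⟩
    rw [MulAut.mul_apply, hM n (le_trans (le_max_right _ _) hn),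
      hN n (le_trans (le_max_left _ _) hn)]
  inv_mem' := by
    rintro γ ⟨N, hN⟩
    refine ⟨N, fun n hn => ?_⟩
    have h := hN n hn
    have h2 : γ⁻¹ (γ (FreeGroup.of n)) = FreeGroup.of n := by
      rw [← MulAut.mul_apply, inv_mul_cancel, MulAut.one_apply]
    rw [h] at h2
    exact h2

/-- every element only involves boundedly many generators -/
theorem bound (a : FreeGroup ℕ) : ∃ N : ℕ, ∀ f : FreeGroup ℕ →* FreeGroup ℕ,
    (∀ n, n < N → f (FreeGroup.of n) = FreeGroup.of n) → f a = a := by
  induction a using FreeGroup.induction_on with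
  | C1 => exact ⟨0, fun f _ => map_one f⟩
  | of x => exact ⟨x + 1, fun f hf => hf x (Nat.lt_succ_self x)⟩
  | inv_of x _ =>
    refine ⟨x + 1, fun f hf => ?_⟩
    rw [map_inv, hf x (Nat.lt_succ_self x)]
  | mul x y hx hy =>
    obtain ⟨N, hN⟩ := hx
    obtain ⟨M, hM⟩ := hy
    refine ⟨max N M, fun f hf => ?_⟩
    rw [map_mul, hN f (fun n hn => hf n (lt_of_lt_of_le hn (le_max_left _ _))),
      hM f (fun n hn => hf n (lt_of_lt_of_le hn (le_max_right _ _)))]

theorem boundS (S : Set (FreeGroup ℕ)) (hS : S.Finite) :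
    ∃ N : ℕ, ∀ f : FreeGroup ℕ →* FreeGroup ℕ,
    (∀ n, n < N → f (FreeGroup.of n) = FreeGroup.of n) → ∀ a ∈ S, f a = a := by
  induction S, hS using Set.Finite.induction_on with
  | empty => exact ⟨0, fun f _ a ha => ha.elim⟩
  | @insert b S hb _ ih =>
    obtain ⟨N, hN⟩ := ih
    obtain ⟨M, hM⟩ := bound b
    refine ⟨max N M, fun f hf a ha => ?_⟩
    rcases Set.mem_insert_iff.1 ha with rfl | ha
    · exact hM f (fun n hn => hf n (lt_of_lt_of_le hn (le_max_right _ _)))
    · exact hN f (fun n hn => hf n (lt_of_lt_of_le hn (le_max_left _ _))) a ha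

/-- the endomorphism sending `e n` to `g * e n` and fixing the other generators -/
noncomputable def nielsenHom (n : ℕ) (g : FreeGroup ℕ) : FreeGroup ℕ →* FreeGroup ℕ :=
  FreeGroup.lift (fun i => if i = n then g * FreeGroup.of n else FreeGroup.of i)

theorem nielsenHom_self (n : ℕ) (g : FreeGroup ℕ) :
    nielsenHom n g (FreeGroup.of n) = g * FreeGroup.of n := by
  simp [nielsenHom]

theorem nielsenHom_ne (n : ℕ) (g : FreeGroup ℕ) (i : ℕ) (h : i ≠ n) :
    nielsenHom n g (FreeGroup.of i) = FreeGroup.of i := by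
  simp [nielsenHom, h]

theorem nielsenHom_comp (n : ℕ) (g : FreeGroup ℕ) (hg : ∀ h : FreeGroup ℕ, nielsenHom n h g = g)
    (x : FreeGroup ℕ) : nielsenHom n g⁻¹ (nielsenHom n g x) = x := by
  have : (nielsenHom n g⁻¹).comp (nielsenHom n g) = MonoidHom.id _ := by
    apply FreeGroup.ext_hom
    intro i
    rw [MonoidHom.comp_apply, MonoidHom.id_apply]
    by_cases h : i = n
    · subst h
      rw [nielsenHom_self, map_mul, hg, nielsenHom_self, mul_inv_cancel_left]
    · rw [nielsenHom_ne n g i h, nielsenHom_ne n _ i h]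
  exact DFunLike.congr_fun this x

/-- the Nielsen automorphism sending `e n` to `g * e n` -/
noncomputable def nielsen (n : ℕ) (g : FreeGroup ℕ) (hg : ∀ h : FreeGroup ℕ, nielsenHom n h g = g) :
    MulAut (FreeGroup ℕ) where
  toFun := nielsenHom n g
  invFun := nielsenHom n g⁻¹
  left_inv := fun x => nielsenHom_comp n g hg x
  right_inv := fun x => by
    have h := nielsenHom_comp n g⁻¹ (fun h => by rw [map_inv, hg]) x
    rw [inv_inv] at h
    exact h
  map_mul' := fun x y => map_mul _ x y

theorem nielsen_apply (n : ℕ) (g : FreeGroup ℕ) (hg : ∀ h : FreeGroup ℕ, nielsenHom n h g = g)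
    (x : FreeGroup ℕ) : nielsen n g hg x = nielsenHom n g x := rfl

theorem smul_Fin0 (γ : Fin0) (x : FreeGroup ℕ) : γ • x = γ.1 x := rfl

/-- the sequence of generators -/
def gens : Seq (FreeGroup ℕ) Fin0 where
  e := FreeGroup.of
  fin γ := γ.2
  trans E hE := by
    obtain ⟨N, hN⟩ := boundS E hE
    refine ⟨N, fun n m hn hm => ?_⟩
    have hval : ∀ i, (FreeGroup.freeGroupCongr (Equiv.swap n m) : FreeGroup ℕ ≃* FreeGroup ℕ)
        (FreeGroup.of i) = FreeGroup.of (Equiv.swap n m i) := by
      intro i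
      simp
    have hmem : (FreeGroup.freeGroupCongr (Equiv.swap n m) : MulAut (FreeGroup ℕ)) ∈ Fin0 := by
      refine ⟨max n m + 1, fun i hi => ?_⟩
      have h1 : i ≠ n := by have := le_max_left n m; omega
      have h2 : i ≠ m := by have := le_max_right n m; omega
      have h3 := hval i
      rw [Equiv.swap_apply_of_ne_of_ne h1 h2] at h3
      exact h3
    refine ⟨⟨_, hmem⟩, fun a ha => ?_, ?_⟩
    · refine hN (FreeGroup.freeGroupCongr (Equiv.swap n m) :
        FreeGroup ℕ ≃* FreeGroup ℕ).toMonoidHom (fun i hi => ?_) a ha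
      have h3 := hval i
      rw [Equiv.swap_apply_of_ne_of_ne (by omega) (by omega)] at h3
      exact h3
    · have h3 := hval n
      rw [Equiv.swap_apply_left] at h3
      exact h3
  mul E hE g := by
    obtain ⟨N, hN⟩ := boundS E hE
    obtain ⟨M, hM⟩ := bound g
    refine ⟨max N M, fun n hn => ?_⟩
    have hNn : N ≤ n := le_trans (le_max_left _ _) hn
    have hMn : M ≤ n := le_trans (le_max_right _ _) hn
    have hg : ∀ h : FreeGroup ℕ, nielsenHom n h g = g := fun h =>
      hM (nielsenHom n h) (fun i hi => nielsenHom_ne n h i (by omega))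
    have hmem : nielsen n g hg ∈ Fin0 := by
      refine ⟨n + 1, fun i hi => ?_⟩
      rw [nielsen_apply]
      exact nielsenHom_ne n g i (by omega)
    refine ⟨⟨_, hmem⟩, fun a ha => ?_, ?_⟩
    · rw [smul_Fin0, nielsen_apply]
      exact hN (nielsenHom n g) (fun i hi => nielsenHom_ne n g i (by omega)) a ha
    · rw [smul_Fin0, nielsen_apply, nielsenHom_self]

/-! ### the free subgroup of rank two -/

/-- the embedding of the free group of rank two onto the subgroup generated by `e 0` and `e 1` -/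
noncomputable def emb : FreeGroup Bool →* FreeGroup ℕ := FreeGroup.map (fun b => if b then 1 else 0)

theorem emb_injective : Function.Injective emb := by
  apply FreeGroup.map_injective
  intro a b h
  cases a <;> cases b <;> simp_all

/-- if `γ` fixes `e 0` and `e 1` then it fixes the range of `emb` pointwise -/
theorem fix_emb (γ : MulAut (FreeGroup ℕ)) (h0 : γ (FreeGroup.of 0) = FreeGroup.of 0)
    (h1 : γ (FreeGroup.of 1) = FreeGroup.of 1) (x : FreeGroup Bool) : γ (emb x) = emb x := by
  have : (γ.toMonoidHom).comp emb = emb := by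
    apply FreeGroup.ext_hom
    intro b
    rw [MonoidHom.comp_apply]
    cases b
    · simpa [emb] using h0
    · simpa [emb] using h1
  exact DFunLike.congr_fun this x

/-- the words starting with a power of the first generator -/
def D0 : Set (FreeGroup Bool) :=
  FreeGroup.startsWith (true, true) ∪ FreeGroup.startsWith (true, false)

theorem D0_cover (g : FreeGroup Bool) : g ∈ D0 ∨ FreeGroup.mk [(true, false)] * g ∈ D0 := by
  by_cases h : g ∈ D0
  · exact Or.inl h
  · exact Or.inr (Or.inr (FreeGroup.startsWith_mk_mul g (fun h' => h (Or.inl h'))))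

theorem D0_b (g : FreeGroup Bool) (h : g ∈ D0) :
    FreeGroup.mk [(false, true)] * g ∈ FreeGroup.startsWith (false, true) := by
  refine FreeGroup.startsWith_mk_mul g (fun h' => ?_)
  rcases h with h | h
  · exact Set.disjoint_left.1 (FreeGroup.startsWith.disjoint_iff_ne.2 (by simp)) h h'
  · exact Set.disjoint_left.1 (FreeGroup.startsWith.disjoint_iff_ne.2 (by simp)) h h'

theorem D0_bb (g : FreeGroup Bool) (h : g ∈ D0) :
    FreeGroup.mk [(false, true)] * (FreeGroup.mk [(false, true)] * g) ∈
      FreeGroup.startsWith (false, true) := by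
  refine FreeGroup.startsWith_mk_mul _ (fun h' => ?_)
  exact Set.disjoint_left.1 (FreeGroup.startsWith.disjoint_iff_ne.2 (by simp)) (D0_b g h) h'

theorem not_D0 (g : FreeGroup Bool) (h : g ∈ FreeGroup.startsWith (false, true)) : ¬ g ∈ D0 := by
  rintro (h' | h')
  · exact Set.disjoint_left.1 (FreeGroup.startsWith.disjoint_iff_ne.2 (by simp)) h h'
  · exact Set.disjoint_left.1 (FreeGroup.startsWith.disjoint_iff_ne.2 (by simp)) h h'

/-- the paradoxical decomposition of the free subgroup of rank two -/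
noncomputable def par : Par (FreeGroup ℕ) Fin0 where
  K := emb.range
  fs W hW := by
    refine ⟨{FreeGroup.of 0, FreeGroup.of 1}, by simp, fun γ hγ t => ?_⟩
    have h0 : γ.1 (FreeGroup.of 0) = FreeGroup.of 0 := hγ (FreeGroup.of 0) (by simp)
    have h1 : γ.1 (FreeGroup.of 1) = FreeGroup.of 1 := hγ (FreeGroup.of 1) (by simp)
    have hpt : ∀ y, y ∈ W → γ.1 y = y := by
      intro y hy
      obtain ⟨x, rfl⟩ := hW hy
      exact fix_emb γ.1 h0 h1 x
    rw [smul_Fin0]
    constructor
    · intro h
      have h2 : γ.1 (γ.1 t) = γ.1 t := hpt _ h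
      have h3 : γ.1 t = t := γ.1.injective h2
      rwa [h3] at h
    · intro h
      rw [hpt t h]
      exact h
  D := emb '' D0
  hD := by
    rintro _ ⟨x, _, rfl⟩
    exact ⟨x, rfl⟩
  b := (emb (FreeGroup.mk [(true, false)]))⁻¹
  c := emb (FreeGroup.mk [(false, true)])
  d := emb (FreeGroup.mk [(false, true)]) * emb (FreeGroup.mk [(false, true)])
  hb := emb.range.inv_mem ⟨_, rfl⟩
  hc := ⟨_, rfl⟩
  hd := emb.range.mul_mem ⟨_, rfl⟩ ⟨_, rfl⟩
  cover := by
    rintro _ ⟨x, rfl⟩
    rcases D0_cover x with h | h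
    · exact Or.inl ⟨x, h, rfl⟩
    · right
      rw [inv_inv, ← map_mul]
      exact ⟨_, h, rfl⟩
  disj1 := by
    rintro _ ⟨x, hx, rfl⟩ ⟨y, hy, h⟩
    rw [eq_inv_mul_iff_mul_eq, ← map_mul] at h
    have h2 := emb_injective h
    rw [← h2] at hx
    exact not_D0 _ (D0_b y hy) hx
  disj2 := by
    rintro _ ⟨x, hx, rfl⟩ ⟨y, hy, h⟩
    rw [eq_inv_mul_iff_mul_eq, mul_assoc, ← map_mul, ← map_mul] at h
    have h2 := emb_injective h
    rw [← h2] at hx
    exact not_D0 _ (D0_bb y hy) hx
  disj3 := by
    rintro t ⟨x, hx, h⟩ ⟨y, hy, h'⟩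
    rw [eq_inv_mul_iff_mul_eq] at h h'
    rw [← h, mul_assoc] at h'
    have h1 := mul_left_cancel h'
    rw [← map_mul] at h1
    have h2 := emb_injective h1
    rw [← h2] at hx
    exact not_D0 _ (D0_b y hy) hx

theorem failsS_free : (sys (FreeGroup ℕ) Fin0).model.failsS = ⊤ := by
  rw [eq_top_iff]
  refine ex_intro AM (ex_intro par.KM (ex_intro opM ?_))
  refine le_inf (le_inf (le_inf (le_inf (le_inf ?_ ?_) ?_) ?_) ?_) ?_
  · exact SymSystem.eq_top_of (group_setM ⊤ FS_univ)
  · exact SymSystem.eq_top_of (sub_setM (par.fs _ subset_rfl) FS_univ (fun t _ => Subgroup.mem_top t))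
  · exact SymSystem.eq_top_of (group_setM par.K (par.fs _ subset_rfl))
  · exact SymSystem.eq_top_of (twoValued_AM gens)
  · exact SymSystem.eq_top_of par.paradoxical
  · refine le_iInf fun R => le_iInf fun a => le_iInf fun m => le_iInf fun l => le_iInf fun o =>
      le_iInf fun i => imp_intro fun Δ _ h => le_inf ?_ ?_
    · exact amenable_AM gens h
    · exact par.not_amenable h

end Pool.Agent.Helper290.Sym
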