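import Pool.Agent.Helper290.Sym.Atoms

set_option autoImplicit false

namespace Pool.Agent.Helper290.Sym

open scoped symmDiff
open SymSystem

/-! ### formulas in the symmetric model -/

section
variable {S : SymSystem} {Δ : S.B}

theorem op_congr {t x y z x' y' z' : S.M} (h1 : Δ ≤ eq' x x') (h2 : Δ ≤ eq' y y')
    (h3 : Δ ≤ eq' z z') (h : Δ ≤ S.model.op t x y z) : Δ ≤ S.model.op t x' y' z' := by
  rw [op_eq] at h ⊢
  exact memL (pr_congr (pr_congr h1 h2) h3) h

theorem rel_congr {t x y x' y' : S.M} (h1 : Δ ≤ eq' x x') (h2 : Δ ≤ eq' y y')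
    (h : Δ ≤ S.model.rel t x y) : Δ ≤ S.model.rel t x' y' := by
  rw [rel_eq] at h ⊢
  exact memL (pr_congr h1 h2) h

end

variable {T Γ : Type} [Group T] [Group Γ] [MulDistribMulAction Γ T]

theorem smul_pr' (g : Gp T Γ) (x y : (sys T Γ).M) :
    eq' (S := sys T Γ) (g • pr x y) (pr (g • x) (g • y)) = ⊤ := smul_pr (S := sys T Γ) g x y

theorem smul_tri (g : Gp T Γ) (p q r : T) (h : r = g • (p * q)) :
    eq' (S := sys T Γ) (g • (pr (pr (at' p) (at' q)) (at' (p * q)) : (sys T Γ).M))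
      (pr (pr (at' (g • p)) (at' (g • q))) (at' r)) = ⊤ := by
  have h1 := smul_pr' (Γ := Γ) g (pr (at' p) (at' q)) (at' (p * q))
  have h2 := smul_pr' (Γ := Γ) g (at' p) (at' q)
  have h3 := smul_at (Γ := Γ) g p
  have h4 := smul_at (Γ := Γ) g q
  have h5 := smul_at (Γ := Γ) g (p * q)
  have h6 : (⊤ : (sys T Γ).B) ≤ eq' (S := sys T Γ) (pr (g • at' p) (g • at' q))
      (pr (at' (g • p)) (at' (g • q))) :=
    pr_congr (S := sys T Γ) (eq_top_of h3) (eq_top_of h4)
  have h7 : (⊤ : (sys T Γ).B) ≤ eq' (S := sys T Γ) (g • pr (at' p) (at' q))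
      (pr (at' (g • p)) (at' (g • q))) := trans (S := sys T Γ) (eq_top_of h2) h6
  have h8 : (⊤ : (sys T Γ).B) ≤ eq' (S := sys T Γ)
      (pr (g • pr (at' p) (at' q)) (g • at' (p * q)))
      (pr (pr (at' (g • p)) (at' (g • q))) (at' (g • (p * q)))) :=
    pr_congr (S := sys T Γ) h7 (eq_top_of h5)
  rw [h, eq_top_iff]
  exact trans (S := sys T Γ) (eq_top_of h1) h8

noncomputable def tri (p : T × T) : (sys T Γ).M := pr (pr (at' p.1) (at' p.2)) (at' (p.1 * p.2))

theorem supp_op : Supp (S := sys T Γ)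
    (fun x : (sys T Γ).M => ⨆ p : T × T, (⊤ : (sys T Γ).B) ⊓ eq' x (tri p)) := by
  refine supp_fam (S := sys T Γ) (fun (g : Gp T Γ) (p : T × T) => (g • p.1, g • p.2))
      (fun g p => ⟨(g⁻¹ • p.1, g⁻¹ • p.2), by simp⟩) tri (fun _ => ⊤) ∅ Set.finite_empty ?_
  intro g _ p
  refine ⟨smul_tri g p.1 p.2 _ ?_, (map_top _).symm⟩
  exact (smul_mul' g.1.1 p.1 p.2).symm

/-- the group operation on the atoms -/
noncomputable def opM : (sys T Γ).M := mkM tri (fun _ => ⊤) supp_op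

variable {Δ ψ : (sys T Γ).B}

theorem op_elim {x y z : (sys T Γ).M} (h : Δ ≤ (sys T Γ).model.op opM x y z)
    (k : ∀ (g h : T) (Δ1 : (sys T Γ).B), Δ1 ≤ Δ → Δ1 ≤ eq' x (at' g) → Δ1 ≤ eq' y (at' h) →
      Δ1 ≤ eq' z (at' (g * h)) → Δ1 ≤ ψ) : Δ ≤ ψ := by
  rw [op_eq] at h
  have h1 : Δ ≤ ⨆ p : T × T, ⊤ ⊓ eq' (S := sys T Γ) (pr (pr x y) z)
    (tri p) := h
  refine ex_elim h1 ?_
  intro p Δ1 h2 h3
  have h4 := h3.trans inf_le_right
  obtain ⟨h5, h6⟩ := pr_inj h4
  obtain ⟨h7, h8⟩ := pr_inj h5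
  exact k p.1 p.2 Δ1 h2 h7 h8 h6

theorem op_intro {x y z : (sys T Γ).M} (g h : T) (h1 : Δ ≤ eq' x (at' g)) (h2 : Δ ≤ eq' y (at' h))
    (h3 : Δ ≤ eq' z (at' (g * h))) : Δ ≤ (sys T Γ).model.op opM x y z := by
  rw [op_eq]
  have h4 : Δ ≤ ⨆ p : T × T, ⊤ ⊓ eq' (S := sys T Γ) (pr (pr x y) z)
    (tri p) :=
    ex_intro (g, h) (le_inf le_top (pr_congr (pr_congr h1 h2) h3))
  exact h4

/-- if `x` is both `a g` and `a h` then `g = h` -/
theorem at_inj2 {x : (sys T Γ).M} {g h : T} (h1 : Δ ≤ eq' x (at' g)) (h2 : Δ ≤ eq' x (at' h)) :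
    g = h ∨ Δ ≤ ⊥ := at_inj (trans (symm h1) h2)

/-- a subgroup with a finite support gives a group in the model -/
theorem group_setM (K : Subgroup T) (hK : FS Γ (K : Set T)) :
    (sys T Γ).model.group (setM (K : Set T) hK) opM = ⊤ := by
  rw [eq_top_iff]
  refine le_inf (le_inf ?_ ?_) ?_
  · refine le_iInf fun x => le_iInf fun y => imp_intro fun Δ _ h => ?_
    refine setM_elim hK (h.trans inf_le_left) ?_
    intro g hg Δ1 h1 h2
    refine setM_elim hK (h1.trans (h.trans inf_le_right)) ?_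
    intro k hk Δ2 h3 h4
    refine le_inf ?_ (le_iInf fun z => le_iInf fun z' => imp_intro fun Δ3 h5 h6 => ?_)
    · exact ex_intro (at' (g * k)) (le_inf (setM_intro hK (g * k) (K.mul_mem hg hk) (rfl' _))
        (op_intro g k (h3.trans h2) h4 (rfl' _)))
    · refine op_elim (h6.trans inf_le_left) fun g1 k1 Δ4 h7 h8 h9 h10 => ?_
      refine op_elim (h7.trans (h6.trans inf_le_right)) fun g2 k2 Δ5 h11 h12 h13 h14 => ?_
      rcases at_inj2 (h11.trans h8) h12 with h15 | h15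
      · rcases at_inj2 (h11.trans h9) h13 with h16 | h16
        · subst h15 h16
          exact trans (h11.trans h10) (symm h14)
        · exact h16.trans bot_le
      · exact h15.trans bot_le
  · refine le_iInf fun x => le_iInf fun y => le_iInf fun z => le_iInf fun u => le_iInf fun v =>
      le_iInf fun w => imp_intro fun Δ _ h => ?_
    refine op_elim ((h.trans inf_le_left).trans (inf_le_left.trans inf_le_right))
      fun g1 k1 Δ1 h1 h2 h3 h4 => ?_
    refine op_elim (h1.trans ((h.trans inf_le_left).trans inf_le_right))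
      fun g2 k2 Δ2 h5 h6 h7 h8 => ?_
    refine op_elim (h5.trans (h1.trans (h.trans inf_le_right)))
      fun g3 k3 Δ3 h9 h10 h11 h12 => ?_
    rcases at_inj2 (h9.trans (h5.trans h3)) (h9.trans h6) with h13 | h13
    · rcases at_inj2 (h9.trans (h5.trans h4)) h10 with h14 | h14
      · rcases at_inj2 (h9.trans h7) h11 with h15 | h15
        · subst h13 h14 h15
          rw [mul_assoc] at h12
          exact op_intro g1 (k1 * k2) (h9.trans (h5.trans h2)) (h9.trans h8) h12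
        · exact h15.trans bot_le
      · exact h14.trans bot_le
    · exact h13.trans bot_le
  · refine ex_intro (at' 1) (le_inf (le_inf (setM_intro hK 1 K.one_mem (rfl' _)) ?_) ?_)
    · refine le_iInf fun x => imp_intro fun Δ _ h => ?_
      refine setM_elim hK h fun g _ Δ1 _ h2 => le_inf ?_ ?_
      · exact op_intro 1 g (rfl' _) h2 (by rw [one_mul]; exact h2)
      · exact op_intro g 1 h2 (rfl' _) (by rw [mul_one]; exact h2)
    · refine le_iInf fun x => imp_intro fun Δ _ h => ?_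
      refine setM_elim hK h fun g hg Δ1 _ h2 => ?_
      refine ex_intro (at' g⁻¹) (le_inf (le_inf (setM_intro hK g⁻¹ (K.inv_mem hg) (rfl' _)) ?_) ?_)
      · exact op_intro g g⁻¹ h2 (rfl' _) (by rw [mul_inv_cancel]; exact rfl' _)
      · exact op_intro g⁻¹ g (rfl' _) h2 (by rw [inv_mul_cancel]; exact rfl' _)

/-! ### explicit sets -/

theorem sub_setM {W W' : Set T} (h : FS Γ W) (h' : FS Γ W') (hs : W ⊆ W') :
    (sys T Γ).model.sub (setM W h) (setM W' h') = ⊤ := by
  rw [eq_top_iff]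
  refine le_iInf fun z => imp_intro fun Δ _ h1 => ?_
  exact setM_elim h h1 fun t ht Δ1 _ h3 => setM_intro h' t (hs ht) h3

theorem union_setM {W W1 W2 : Set T} (h : FS Γ W) (h1 : FS Γ W1) (h2 : FS Γ W2)
    (hs : W = W1 ∪ W2) :
    (sys T Γ).model.union (setM W h) (setM W1 h1) (setM W2 h2) = ⊤ := by
  subst hs
  rw [eq_top_iff]
  refine le_iInf fun z => iff_intro (fun Δ _ h3 => ?_) (fun Δ _ h3 => ?_)
  · refine setM_elim h h3 fun t ht Δ1 _ h4 => ?_
    rcases ht with ht | ht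
    · exact le_sup_of_le_left (setM_intro h1 t ht h4)
    · exact le_sup_of_le_right (setM_intro h2 t ht h4)
  · refine or_elim h3 (fun Δ1 _ h4 => ?_) (fun Δ1 _ h4 => ?_)
    · exact setM_elim h1 h4 fun t ht Δ1 _ h5 => setM_intro h t (Or.inl ht) h5
    · exact setM_elim h2 h4 fun t ht Δ1 _ h5 => setM_intro h t (Or.inr ht) h5

theorem disj_setM {W1 W2 : Set T} (h1 : FS Γ W1) (h2 : FS Γ W2) (hs : ∀ t, t ∈ W1 → ¬ t ∈ W2) :
    (sys T Γ).model.disj (setM W1 h1) (setM W2 h2) = ⊤ := by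
  rw [eq_top_iff]
  refine le_iInf fun z => not_intro fun Δ _ h3 => ?_
  refine setM_elim h1 (h3.trans inf_le_left) fun t ht Δ1 h4 h5 => ?_
  have h6 : Δ1 ≤ mem' (at' t) (setM W2 h2) := memL h5 (h4.trans (h3.trans inf_le_right))
  rcases at_mem_setM h2 h6 with h7 | h7
  · exact absurd h7 (hs t ht)
  · exact h7

theorem translate_setM {W W' : Set T} (h : FS Γ W) (h' : FS Γ W') (g : T)
    (hs : ∀ t, g * t ∈ W' ↔ t ∈ W) :
    (sys T Γ).model.translate opM (at' g) (setM W h) (setM W' h') = ⊤ := by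
  rw [eq_top_iff]
  refine le_iInf fun w => iff_intro (fun Δ _ h3 => ?_) (fun Δ _ h3 => ?_)
  · refine setM_elim h' h3 fun t ht Δ1 _ h4 => ?_
    refine ex_intro (at' (g⁻¹ * t)) (le_inf (setM_intro h _ ?_ (rfl' _)) ?_)
    · rw [← hs, mul_inv_cancel_left]
      exact ht
    · exact op_intro g (g⁻¹ * t) (rfl' _) (rfl' _) (by rw [mul_inv_cancel_left]; exact h4)
  · refine ex_elim h3 fun y Δ1 _ h4 => ?_
    refine setM_elim h (h4.trans inf_le_left) fun t ht Δ2 h5 h6 => ?_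
    refine op_elim (h5.trans (h4.trans inf_le_right)) fun g1 k1 Δ3 h7 h8 h9 h10 => ?_
    rcases at_inj h8 with h11 | h11
    · rcases at_inj2 (h7.trans h6) h9 with h12 | h12
      · subst h11 h12
        exact setM_intro h' _ ((hs _).2 ht) h10
      · exact h12.trans bot_le
    · exact h11.trans bot_le

end Pool.Agent.Helper290.Sym
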