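import Mathlib

set_option autoImplicit false

namespace Pool.Agent.Helper290.Sym

open scoped symmDiff

/-! Reasoning in a complete Boolean algebra: contexts `Γ`, entailment `Γ ≤ φ`. -/

variable {B : Type*} [CompleteBooleanAlgebra B] {Γ a b ψ : B}

theorem ex_elim {ι : Sort*} {f : ι → B} (h : Γ ≤ ⨆ i, f i)
    (k : ∀ i, ∀ Δ, Δ ≤ Γ → Δ ≤ f i → Δ ≤ ψ) : Γ ≤ ψ := by
  have h1 : Γ = ⨆ i, Γ ⊓ f i := by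
    rw [← inf_iSup_eq]
    exact (inf_eq_left.2 h).symm
  rw [h1]
  exact iSup_le (fun i => k i _ inf_le_left inf_le_right)

theorem ex_intro {ι : Sort*} {f : ι → B} (i : ι) (h : Γ ≤ f i) : Γ ≤ ⨆ i, f i :=
  h.trans (le_iSup f i)

theorem or_elim (h : Γ ≤ a ⊔ b) (k1 : ∀ Δ, Δ ≤ Γ → Δ ≤ a → Δ ≤ ψ)
    (k2 : ∀ Δ, Δ ≤ Γ → Δ ≤ b → Δ ≤ ψ) : Γ ≤ ψ := by
  have h1 : Γ = (Γ ⊓ a) ⊔ (Γ ⊓ b) := by
    rw [← inf_sup_left]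
    exact (inf_eq_left.2 h).symm
  rw [h1]
  exact sup_le (k1 _ inf_le_left inf_le_right) (k2 _ inf_le_left inf_le_right)

theorem imp_intro (k : ∀ Δ, Δ ≤ Γ → Δ ≤ a → Δ ≤ b) : Γ ≤ a ⇨ b :=
  le_himp_iff.2 (k _ inf_le_left inf_le_right)

theorem mp (h : Γ ≤ a ⇨ b) (h' : Γ ≤ a) : Γ ≤ b :=
  (le_inf le_rfl h').trans (le_himp_iff.1 h)

theorem all_elim {ι : Sort*} {f : ι → B} (h : Γ ≤ ⨅ i, f i) (i : ι) : Γ ≤ f i :=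
  h.trans (iInf_le f i)

theorem iff_intro (k1 : ∀ Δ, Δ ≤ Γ → Δ ≤ a → Δ ≤ b) (k2 : ∀ Δ, Δ ≤ Γ → Δ ≤ b → Δ ≤ a) :
    Γ ≤ a ⇔ b := by
  rw [bihimp_def]
  exact le_inf (imp_intro k2) (imp_intro k1)

theorem iff_mp (h : Γ ≤ a ⇔ b) (h' : Γ ≤ a) : Γ ≤ b := by
  rw [bihimp_def] at h
  exact mp (h.trans inf_le_right) h'

theorem iff_mpr (h : Γ ≤ a ⇔ b) (h' : Γ ≤ b) : Γ ≤ a := by
  rw [bihimp_def] at h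
  exact mp (h.trans inf_le_left) h'

theorem not_intro (k : ∀ Δ, Δ ≤ Γ → Δ ≤ a → Δ ≤ ⊥) : Γ ≤ aᶜ := by
  rw [← himp_bot]
  exact imp_intro k

theorem not_elim (h : Γ ≤ aᶜ) (h' : Γ ≤ a) : Γ ≤ ψ := by
  have : Γ ≤ ⊥ := by
    rw [← himp_bot] at h
    exact mp h h'
  exact this.trans bot_le

theorem by_contra (k : ∀ Δ, Δ ≤ Γ → Δ ≤ aᶜ → Δ ≤ ⊥) : Γ ≤ a := by
  have : Γ ≤ aᶜᶜ := not_intro k
  rwa [compl_compl] at this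

theorem em_elim (a : B) (k1 : ∀ Δ, Δ ≤ Γ → Δ ≤ a → Δ ≤ ψ)
    (k2 : ∀ Δ, Δ ≤ Γ → Δ ≤ aᶜ → Δ ≤ ψ) : Γ ≤ ψ :=
  or_elim (a := a) (b := aᶜ) (by rw [sup_compl_eq_top]; exact le_top) k1 k2

/-- two elements below which exactly the same contexts lie are equal -/
theorem eq_of_forall (k1 : ∀ Δ : B, Δ ≤ a → Δ ≤ b) (k2 : ∀ Δ : B, Δ ≤ b → Δ ≤ a) : a = b :=
  le_antisymm (k1 _ le_rfl) (k2 _ le_rfl)

end Pool.Agent.Helper290.Sym
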