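import Pool.Agent.Helper290.Sym.Groups

set_option autoImplicit false

namespace Pool.Agent.Helper290.Sym

open scoped symmDiff
open SymSystem

variable {T Γ : Type} [Group T] [Group Γ] [MulDistribMulAction Γ T]

/-- the hypotheses on the sequence of elements used to define the measure -/
structure Seq (T Γ : Type) [Group T] [Group Γ] [MulDistribMulAction Γ T] where
  e : ℕ → T
  fin : ∀ γ : Γ, ∃ N, ∀ n, N ≤ n → γ • e n = e n
  trans : ∀ E : Set T, E.Finite → ∃ N, ∀ n m, N ≤ n → N ≤ m →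
    ∃ γ : Γ, (∀ t ∈ E, γ • t = t) ∧ γ • e n = e m
  mul : ∀ E : Set T, E.Finite → ∀ h : T, ∃ N, ∀ n, N ≤ n →
    ∃ γ : Γ, (∀ t ∈ E, γ • t = t) ∧ γ • e n = h * e n

variable (q : Seq T Γ)

/-- almost all `a (e n)` are in `Y` -/
noncomputable def Psi (Y : (sys T Γ).M) : (sys T Γ).B :=
  ⨆ N : ℕ, ⨅ n : ℕ, ⨅ _ : N ≤ n, mem' (at' (q.e n)) Y

theorem Psi_eq (Y : (sys T Γ).M) : ∃ N, ∀ n, N ≤ n → Psi q Y = mem' (at' (q.e n)) Y := by
  obtain ⟨E, hE, hY⟩ := mem_invariant Y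
  obtain ⟨N, hN⟩ := q.trans E hE
  have key : ∀ n m, N ≤ n → N ≤ m → mem' (at' (q.e n)) Y = mem' (at' (q.e m)) Y := by
    intro n m hn hm
    obtain ⟨γ, hγ, h⟩ := hN n m hn hm
    rw [← h, hY γ hγ]
  refine ⟨N, fun n hn => le_antisymm ?_ ?_⟩
  · refine iSup_le fun N' => ?_
    refine (iInf_le _ (max N N')).trans ((iInf_le _ (le_max_right _ _)).trans ?_)
    rw [key _ n (le_max_left _ _) hn]
  · refine ex_intro N (le_iInf fun m => le_iInf fun hm => ?_)
    rw [key n m hn hm]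

theorem mem_mul (Y : (sys T Γ).M) (h : T) :
    ∃ N, ∀ n, N ≤ n → mem' (at' (h * q.e n)) Y = mem' (at' (q.e n)) Y := by
  obtain ⟨E, hE, hY⟩ := mem_invariant Y
  obtain ⟨N, hN⟩ := q.mul E hE h
  refine ⟨N, fun n hn => ?_⟩
  obtain ⟨γ, hγ, h1⟩ := hN n hn
  rw [← h1, hY γ hγ]

theorem Psi_smul (g : Gp T Γ) (Y : (sys T Γ).M) :
    Psi q (g • Y) = (sys T Γ).ρ g (Psi q Y) := by
  obtain ⟨N1, h1⟩ := Psi_eq q Y
  obtain ⟨N2, h2⟩ := Psi_eq q (g • Y)
  obtain ⟨N3, h3⟩ := q.fin g.1.1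
  have h4 := h1 (max N1 (max N2 N3)) (le_max_left _ _)
  have h5 := h2 (max N1 (max N2 N3)) ((le_max_left _ _).trans (le_max_right _ _))
  have h6 := h3 (max N1 (max N2 N3)) ((le_max_right _ _).trans (le_max_right _ _))
  set n := max N1 (max N2 N3)
  rw [h4, h5]
  have h7 := smul_at (Γ := Γ) g (q.e n)
  have h8 : g • q.e n = q.e n := h6
  rw [h8] at h7
  exact mem_smul_right (S := sys T Γ) h7 Y

theorem Psi_supp : Supp (S := sys T Γ) (Psi q) :=
  ⟨∅, Set.finite_empty, fun g _ Y => Psi_smul q g Y⟩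

theorem Psi_ext : Ext (S := sys T Γ) (Psi q) := by
  intro x y Δ h1 h2
  obtain ⟨N1, h3⟩ := Psi_eq q x
  obtain ⟨N2, h4⟩ := Psi_eq q y
  rw [h3 (max N1 N2) (le_max_left _ _)] at h2
  rw [h4 (max N1 N2) (le_max_right _ _)]
  exact memR h1 h2

theorem FS_univ : FS Γ ((⊤ : Subgroup T) : Set T) :=
  ⟨∅, Set.finite_empty, fun γ _ t => by simp⟩

/-- the set of all atoms -/
noncomputable def AM : (sys T Γ).M := setM ((⊤ : Subgroup T) : Set T) FS_univ

theorem at_mem_AM (t : T) (Δ : (sys T Γ).B) : Δ ≤ mem' (at' t) (AM : (sys T Γ).M) :=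
  setM_intro _ t (Subgroup.mem_top t) (rfl' _)

variable {Δ : (sys T Γ).B}

theorem Psi_union {X Y Z : (sys T Γ).M} (h1 : Δ ≤ (sys T Γ).model.union Z X Y) :
    (Δ ≤ Psi q Z → Δ ≤ Psi q X ⊔ Psi q Y) ∧ (Δ ≤ Psi q X ⊔ Psi q Y → Δ ≤ Psi q Z) := by
  obtain ⟨N1, hX⟩ := Psi_eq q X
  obtain ⟨N2, hY⟩ := Psi_eq q Y
  obtain ⟨N3, hZ⟩ := Psi_eq q Z
  rw [hX (max N1 (max N2 N3)) (le_max_left _ _),
    hY (max N1 (max N2 N3)) ((le_max_left _ _).trans (le_max_right _ _)),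
    hZ (max N1 (max N2 N3)) ((le_max_right _ _).trans (le_max_right _ _))]
  exact ⟨fun h => iff_mp (all_elim h1 (at' (q.e (max N1 (max N2 N3))))) h,
    fun h => iff_mpr (all_elim h1 (at' (q.e (max N1 (max N2 N3))))) h⟩

theorem Psi_disj {X Y : (sys T Γ).M} (h1 : Δ ≤ (sys T Γ).model.disj X Y)
    (h2 : Δ ≤ Psi q X) (h3 : Δ ≤ Psi q Y) : Δ ≤ ⊥ := by
  obtain ⟨N1, hX⟩ := Psi_eq q X
  obtain ⟨N2, hY⟩ := Psi_eq q Y
  rw [hX (max N1 N2) (le_max_left _ _)] at h2
  rw [hY (max N1 N2) (le_max_right _ _)] at h3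
  exact not_elim (all_elim h1 (at' (q.e (max N1 N2)))) (le_inf h2 h3)

theorem Psi_translate {g : T} {X Z : (sys T Γ).M}
    (h1 : Δ ≤ (sys T Γ).model.translate opM (at' g) X Z) :
    (Δ ≤ Psi q Z → Δ ≤ Psi q X) ∧ (Δ ≤ Psi q X → Δ ≤ Psi q Z) := by
  obtain ⟨N1, hX⟩ := Psi_eq q X
  obtain ⟨N2, hZ⟩ := Psi_eq q Z
  obtain ⟨N3, hg⟩ := mem_mul q Z g
  have h2 := hX (max N1 (max N2 N3)) (le_max_left _ _)
  have h3 := hZ (max N1 (max N2 N3)) ((le_max_left _ _).trans (le_max_right _ _))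
  have h4 := hg (max N1 (max N2 N3)) ((le_max_right _ _).trans (le_max_right _ _))
  set n := max N1 (max N2 N3)
  rw [h2, h3, ← h4]
  have h5 := all_elim h1 (at' (g * q.e n))
  constructor
  · intro h
    refine ex_elim (iff_mp h5 h) fun y Δ1 _ h6 => ?_
    refine op_elim (h6.trans inf_le_right) fun g1 k1 Δ2 h7 h8 h9 h10 => ?_
    rcases at_inj h8 with h11 | h11
    · rcases at_inj h10 with h12 | h12
      · subst h11
        have h13 : q.e n = k1 := mul_left_cancel h12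
        rw [h13]
        exact memL h9 (h7.trans (h6.trans inf_le_left))
      · exact h12.trans bot_le
    · exact h11.trans bot_le
  · intro h
    exact iff_mpr h5 (ex_intro (at' (q.e n)) (le_inf h (op_intro g (q.e n) (rfl' _) (rfl' _)
      (rfl' _))))

include q in
theorem twoValued_AM : (sys T Γ).model.twoValued AM opM = ⊤ := by
  obtain ⟨P, hP⟩ := power_exists (AM : (sys T Γ).M)
  obtain ⟨F, hF⟩ := sep_supp (u := P) (Psi_supp q) (Psi_ext q)
  have hF' : ∀ z, mem' z F = subv z AM ⊓ Psi q z := fun z => by rw [hF, hP]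
  have hsub : ∀ {Δ : (sys T Γ).B} {X : (sys T Γ).M}, Δ ≤ subv X AM → Δ ≤ Psi q X → Δ ≤ mem' X F :=
    fun {Δ X} h1 h2 => by rw [hF']; exact le_inf h1 h2
  have hel : ∀ {Δ : (sys T Γ).B} {X : (sys T Γ).M}, Δ ≤ mem' X F → Δ ≤ Psi q X :=
    fun {Δ X} h1 => by rw [hF'] at h1; exact h1.trans inf_le_right
  rw [eq_top_iff]
  refine ex_intro F (le_inf (le_inf ?_ ?_) ?_)
  · refine hsub (le_iInf fun z => imp_intro fun Δ _ h => h) ?_
    obtain ⟨N, hN⟩ := Psi_eq q AM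
    rw [hN N le_rfl]
    exact at_mem_AM _ _
  · refine le_iInf fun X => le_iInf fun Y => le_iInf fun Z => imp_intro fun Δ _ h => ?_
    have hX : Δ ≤ subv X AM := h.trans (inf_le_left.trans (inf_le_left.trans inf_le_left))
    have hY : Δ ≤ subv Y AM := h.trans (inf_le_left.trans (inf_le_left.trans inf_le_right))
    have hd : Δ ≤ (sys T Γ).model.disj X Y := h.trans (inf_le_left.trans inf_le_right)
    have hu : Δ ≤ (sys T Γ).model.union Z X Y := h.trans inf_le_right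
    refine le_inf (iff_intro (fun Δ1 h1 h2 => ?_) (fun Δ1 h1 h2 => ?_))
      (not_intro fun Δ1 h1 h2 => ?_)
    · refine or_elim ((Psi_union q (h1.trans hu)).1 (hel h2)) (fun Δ2 h3 h4 => ?_)
        (fun Δ2 h3 h4 => ?_)
      · exact le_sup_of_le_left (hsub (h3.trans (h1.trans hX)) h4)
      · exact le_sup_of_le_right (hsub (h3.trans (h1.trans hY)) h4)
    · refine hsub (le_iInf fun z => imp_intro fun Δ2 h3 h4 => ?_) ?_
      · refine or_elim (iff_mp (all_elim (h3.trans (h1.trans hu)) z) h4) (fun Δ3 h5 h6 => ?_)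
          (fun Δ3 h5 h6 => ?_)
        · exact mp (all_elim (h5.trans (h3.trans (h1.trans hX))) z) h6
        · exact mp (all_elim (h5.trans (h3.trans (h1.trans hY))) z) h6
      · refine (Psi_union q (h1.trans hu)).2 (or_elim h2 (fun Δ2 _ h4 => ?_) (fun Δ2 _ h4 => ?_))
        · exact le_sup_of_le_left (hel h4)
        · exact le_sup_of_le_right (hel h4)
    · exact Psi_disj q (h1.trans hd) (hel (h2.trans inf_le_left)) (hel (h2.trans inf_le_right))
  · refine le_iInf fun g => le_iInf fun X => le_iInf fun Z => imp_intro fun Δ _ h => ?_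
    refine setM_elim FS_univ (h.trans (inf_le_left.trans inf_le_left)) fun t _ Δ1 h1 h2 => ?_
    have hX : Δ1 ≤ subv X AM := h1.trans (h.trans (inf_le_left.trans inf_le_right))
    have ht : Δ1 ≤ (sys T Γ).model.translate opM (at' t) X Z := by
      have h3 : Δ1 ≤ (sys T Γ).model.translate opM g X Z := h1.trans (h.trans inf_le_right)
      refine le_iInf fun w => iff_intro (fun Δ2 h4 h5 => ?_) (fun Δ2 h4 h5 => ?_)
      · refine ex_elim (iff_mp (all_elim (h4.trans h3) w) h5) fun y Δ3 h6 h7 => ?_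
        exact ex_intro y (le_inf (h7.trans inf_le_left)
          (op_congr (h6.trans (h4.trans h2)) (rfl' _) (rfl' _) (h7.trans inf_le_right)))
      · refine iff_mpr (all_elim (h4.trans h3) w) (ex_elim h5 fun y Δ3 h6 h7 => ?_)
        exact ex_intro y (le_inf (h7.trans inf_le_left)
          (op_congr (symm (h6.trans (h4.trans h2))) (rfl' _) (rfl' _) (h7.trans inf_le_right)))
    refine iff_intro (fun Δ2 h3 h4 => ?_) (fun Δ2 h3 h4 => ?_)
    · exact hsub (h3.trans hX) ((Psi_translate q (h3.trans ht)).1 (hel h4))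
    · refine hsub (le_iInf fun z => imp_intro fun Δ3 h5 h6 => ?_)
        ((Psi_translate q (h3.trans ht)).2 (hel h4))
      refine ex_elim (iff_mp (all_elim (h5.trans (h3.trans ht)) z) h6) fun y Δ4 _ h7 => ?_
      refine op_elim (h7.trans inf_le_right) fun g1 k1 Δ5 _ _ _ h8 => ?_
      exact setM_intro _ (g1 * k1) (Subgroup.mem_top _) h8

end Pool.Agent.Helper290.Sym
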