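import Pool.Agent.Helper290.Sym.Names

set_option autoImplicit false

namespace Pool.Agent.Helper290.Sym

open scoped symmDiff

namespace SymSystem

variable {S : SymSystem}

theorem HS_mk {α : Type} {A : α → Name S.B} {v : α → S.B} :
    S.HS (.mk α A v) ↔ S.Symm (.mk α A v) ∧ ∀ i, S.HS (A i) := Iff.rfl

theorem HS.symm' {u : Name S.B} (h : S.HS u) : S.Symm u := by
  cases u with
  | mk α A v => exact h.1

theorem Symm.act {u : Name S.B} (h : S.Symm u) (g : S.G) : S.Symm (u.act (S.ρ g)) := by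
  obtain ⟨E, hE, h⟩ := h
  refine ⟨(fun x => g • x) '' E, hE.image _, fun k hk => ?_⟩
  have h1 := h (g⁻¹ * k * g) (fun x hx => by
    rw [mul_smul, mul_smul, hk (g • x) ⟨x, hx, rfl⟩, inv_smul_smul])
  have h2 := congrArg (S.ρ g) h1
  rw [← Name.act_eq, map_top, ← Name.act_mul, ← map_mul] at h2
  rw [← Name.act_mul, ← map_mul, ← h2]
  congr 3
  group

theorem HS.act {u : Name S.B} (h : S.HS u) (g : S.G) : S.HS (u.act (S.ρ g)) := by
  induction u with
  | mk α A v ih =>
    exact ⟨h.1.act g, fun i => ih i (h.2 i)⟩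

instance mulActM : MulAction S.G S.M where
  smul g u := ⟨u.1.act (S.ρ g), HS.act u.2 g⟩
  one_smul u := Subtype.ext (by
    show u.1.act (S.ρ 1) = u.1
    rw [map_one, Name.act_one])
  mul_smul g k u := Subtype.ext (by
    show u.1.act (S.ρ (g * k)) = (u.1.act (S.ρ k)).act (S.ρ g)
    rw [map_mul, Name.act_mul])

theorem smul_val (g : S.G) (u : S.M) : (g • u).1 = u.1.act (S.ρ g) := rfl

variable {Γ : S.B}

/-- Boolean values of equality and membership in the model -/
def eq' (x y : S.M) : S.B := x.1.eq y.1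
def mem' (x y : S.M) : S.B := x.1.mem y.1

theorem smul_eq (g : S.G) (x y : S.M) : eq' (g • x) (g • y) = S.ρ g (eq' x y) :=
  Name.act_eq _ _ _

theorem smul_mem (g : S.G) (x y : S.M) : mem' (g • x) (g • y) = S.ρ g (mem' x y) :=
  Name.act_mem _ _ _

theorem rfl' (x : S.M) : Γ ≤ eq' x x := by
  rw [eq', Name.eq_refl]; exact le_top
theorem symm {x y : S.M} (h : Γ ≤ eq' x y) : Γ ≤ eq' y x := Name.symm h
theorem trans {x y z : S.M} (h : Γ ≤ eq' x y) (h' : Γ ≤ eq' y z) : Γ ≤ eq' x z :=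
  Name.eq_trans _ _ _ h h'
theorem memL {x y z : S.M} (h : Γ ≤ eq' x y) (h' : Γ ≤ mem' x z) : Γ ≤ mem' y z :=
  Name.mem_congr_left h h'
theorem memR {x y z : S.M} (h : Γ ≤ eq' y z) (h' : Γ ≤ mem' x y) : Γ ≤ mem' x z :=
  Name.mem_congr_right h h'

theorem eq'_comm (x y : S.M) : eq' x y = eq' y x := Name.eq_symm _ _

/-- the elements of the domain of a member of the model, as members of the model -/
def Dom (u : S.M) : Type :=
  match u.1 with
  | .mk α _ _ => α

def el (u : S.M) (i : Dom u) : S.M :=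
  match u, i with
  | ⟨.mk _ A _, h⟩, i => ⟨A i, h.2 i⟩

def vl (u : S.M) (i : Dom u) : S.B :=
  match u, i with
  | ⟨.mk _ _ v, _⟩, i => v i

theorem mem'_eq (x u : S.M) : mem' x u = ⨆ i : Dom u, vl u i ⊓ eq' x (el u i) := by
  obtain ⟨u, hu⟩ := u
  cases u with
  | mk α A v => rfl

theorem mem_elim {x u : S.M} {ψ : S.B} (h : Γ ≤ mem' x u)
    (k : ∀ i : Dom u, ∀ Δ, Δ ≤ Γ → Δ ≤ vl u i → Δ ≤ eq' x (el u i) → Δ ≤ ψ) : Γ ≤ ψ := by
  rw [mem'_eq] at h
  exact ex_elim h (fun i Δ h1 h2 => k i Δ h1 (h2.trans inf_le_left) (h2.trans inf_le_right))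

theorem vl_le_mem (u : S.M) (i : Dom u) : vl u i ≤ mem' (el u i) u := by
  rw [mem'_eq]
  exact ex_intro i (le_inf le_rfl (rfl' _))

/-- extensionality in the model -/
theorem ext' {x y : S.M} (h1 : ∀ z, ∀ Δ, Δ ≤ Γ → Δ ≤ mem' z x → Δ ≤ mem' z y)
    (h2 : ∀ z, ∀ Δ, Δ ≤ Γ → Δ ≤ mem' z y → Δ ≤ mem' z x) : Γ ≤ eq' x y := by
  obtain ⟨x, hx⟩ := x
  obtain ⟨y, hy⟩ := y
  cases x with
  | mk α A v =>
    cases y with
    | mk β C w =>
      refine Name.eq_intro (fun i Δ hΔ hv => ?_) (fun i Δ hΔ hv => ?_)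
      · exact h1 ⟨A i, hx.2 i⟩ Δ hΔ (hv.trans (Name.le_mem A v i))
      · exact h2 ⟨C i, hy.2 i⟩ Δ hΔ (hv.trans (Name.le_mem C w i))

/-- induction on membership for members of the model -/
theorem dom_induction {P : S.M → Prop} (h : ∀ u, (∀ i : Dom u, P (el u i)) → P u) (u : S.M) :
    P u := by
  obtain ⟨u, hu⟩ := u
  induction u with
  | mk α A v ih => exact h _ (fun i => ih i (hu.2 i))

/-- a function on the model with values in `B` which has a finite support -/
def Supp (Φ : S.M → S.B) : Prop :=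
  ∃ E : Set S.X, E.Finite ∧ ∀ g : S.G, (∀ x ∈ E, g • x = x) → ∀ u, Φ (g • u) = S.ρ g (Φ u)

/-- A name with domain in the model whose membership function has finite support is in the
model. -/
theorem HS_of_supp {α : Type} (A : α → S.M) (v : α → S.B)
    (h : Supp (fun x : S.M => x.1.mem (.mk α (fun i => (A i).1) v))) :
    S.HS (.mk α (fun i => (A i).1) v) := by
  refine ⟨?_, fun i => (A i).2⟩
  obtain ⟨E, hE, h⟩ := h
  refine ⟨E, hE, fun g hg => ?_⟩
  have key : ∀ x : S.M, x.1.mem ((Name.mk α (fun i => (A i).1) v).act (S.ρ g)) =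
      x.1.mem (.mk α (fun i => (A i).1) v) := by
    intro x
    have h1 := h g hg (g⁻¹ • x)
    rw [smul_inv_smul] at h1
    have h2 : x.1 = (g⁻¹ • x).1.act (S.ρ g) := by
      rw [← smul_val, smul_inv_smul]
    rw [h2, Name.act_mem, ← h1, ← h2]
  rw [eq_top_iff]
  refine Name.eq_intro (fun i Δ _ hv => ?_) (fun i Δ _ hv => ?_)
  · have h3 := hv.trans (Name.le_mem (fun i => Name.act (S.ρ g) (A i).1) (fun i => S.ρ g (v i)) i)
    have h4 := key (g • A i)
    rw [smul_val] at h4
    rw [← h4]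
    exact h3
  · have h3 := hv.trans (Name.le_mem (fun i => (A i).1) v i)
    rw [← key (A i)] at h3
    exact h3

/-- the member of the model with given domain and values -/
def mkM {α : Type} (A : α → S.M) (v : α → S.B)
    (h : Supp (fun x : S.M => ⨆ i, v i ⊓ eq' x (A i))) : S.M :=
  ⟨.mk α (fun i => (A i).1) v, HS_of_supp A v h⟩

theorem mem_mkM {α : Type} (A : α → S.M) (v : α → S.B)
    (h : Supp (fun x : S.M => ⨆ i, v i ⊓ eq' x (A i))) (x : S.M) :
    mem' x (mkM A v h) = ⨆ i, v i ⊓ eq' x (A i) := rfl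

/-- every member of the model is fixed by the pointwise stabiliser of a finite set -/
theorem exists_support (u : S.M) : ∃ E : Set S.X, E.Finite ∧
    ∀ g : S.G, (∀ x ∈ E, g • x = x) → eq' (g • u) u = ⊤ := HS.symm' u.2

theorem eq_smul_left {u : S.M} {g : S.G} (h : eq' (g • u) u = ⊤) (x : S.M) :
    eq' (g • x) u = S.ρ g (eq' x u) := by
  rw [← smul_eq]
  apply eq_of_forall
  · intro Δ h1
    exact trans h1 (symm (by rw [h]; exact le_top))
  · intro Δ h1
    exact trans h1 (by rw [h]; exact le_top)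

theorem mem_smul_left {u : S.M} {g : S.G} (h : eq' (g • u) u = ⊤) (x : S.M) :
    mem' (g • x) u = S.ρ g (mem' x u) := by
  rw [← smul_mem]
  apply eq_of_forall
  · intro Δ h1
    exact memR (symm (by rw [h]; exact le_top)) h1
  · intro Δ h1
    exact memR (by rw [h]; exact le_top) h1

theorem mem_smul_right {u : S.M} {g : S.G} (h : eq' (g • u) u = ⊤) (x : S.M) :
    mem' u (g • x) = S.ρ g (mem' u x) := by
  rw [← smul_mem]
  apply eq_of_forall
  · intro Δ h1
    exact memL (symm (by rw [h]; exact le_top)) h1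
  · intro Δ h1
    exact memL (by rw [h]; exact le_top) h1

theorem smul_iInf (g : S.G) (Φ : S.M → S.B) : ⨅ x, Φ (g • x) = ⨅ x, Φ x :=
  (MulAction.surjective g).iInf_comp Φ

theorem smul_iSup (g : S.G) (Φ : S.M → S.B) : ⨆ x, Φ (g • x) = ⨆ x, Φ x :=
  (MulAction.surjective g).iSup_comp Φ

/-! ### formulas -/

theorem val_smul (g : S.G) {n : ℕ} (φ : Fml n) (s : Fin n → S.M) :
    φ.val S.model (fun i => g • s i) = S.ρ g (φ.val S.model s) := by
  induction φ with
  | eq i j => exact smul_eq g _ _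
  | mem i j => exact smul_mem g _ _
  | fls => exact (map_bot _).symm
  | imp φ ψ ih1 ih2 =>
    show φ.val S.model _ ⇨ ψ.val S.model _ = S.ρ g (φ.val S.model s ⇨ ψ.val S.model s)
    rw [ih1, ih2, map_himp]
  | all φ ih =>
    show (⨅ x, φ.val S.model (Fin.cons x (fun i => g • s i))) =
      S.ρ g (⨅ x, φ.val S.model (Fin.cons x s))
    rw [map_iInf]
    refine (smul_iInf g (fun x : S.M => φ.val S.model
      (Fin.cons x (fun i => g • s i) : Fin _ → S.M))).symm.trans ?_
    refine iInf_congr fun x => ?_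
    refine Eq.trans ?_ (ih (Fin.cons x s : Fin _ → S.M))
    congr 1
    funext i
    refine Fin.cases ?_ (fun i => ?_) i
    · rfl
    · rfl

theorem val_congr {n : ℕ} (φ : Fml n) (s t : Fin n → S.M) (Γ : S.B) (h : ∀ i, Γ ≤ eq' (s i) (t i)) :
    (Γ ≤ φ.val S.model s ↔ Γ ≤ φ.val S.model t) := by
  induction φ generalizing Γ with
  | eq i j =>
    constructor
    · intro h1
      exact trans (symm (h i)) (trans h1 (h j))
    · intro h1
      exact trans (h i) (trans h1 (symm (h j)))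
  | mem i j =>
    constructor
    · intro h1
      exact memR (h j) (memL (h i) h1)
    · intro h1
      exact memR (symm (h j)) (memL (symm (h i)) h1)
  | fls => exact Iff.rfl
  | imp φ ψ ih1 ih2 =>
    constructor
    · intro h1
      exact imp_intro fun Δ hΔ h2 => (ih2 s t Δ (fun i => hΔ.trans (h i))).1
        (mp (hΔ.trans h1) ((ih1 s t Δ (fun i => hΔ.trans (h i))).2 h2))
    · intro h1
      exact imp_intro fun Δ hΔ h2 => (ih2 s t Δ (fun i => hΔ.trans (h i))).2
        (mp (hΔ.trans h1) ((ih1 s t Δ (fun i => hΔ.trans (h i))).1 h2))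
  | all φ ih =>
    have h3 : ∀ x : S.M, ∀ i, Γ ≤ eq' ((Fin.cons x s : Fin _ → S.M) i)
        ((Fin.cons x t : Fin _ → S.M) i) := by
      intro x i
      refine Fin.cases ?_ (fun i => ?_) i
      · exact rfl' _
      · exact h i
    constructor
    · intro h1
      exact le_iInf fun x => (ih _ _ Γ (h3 x)).1 (all_elim h1 x)
    · intro h1
      exact le_iInf fun x => (ih _ _ Γ (h3 x)).2 (all_elim h1 x)

end SymSystem

end Pool.Agent.Helper290.Sym
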