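import Pool.Agent.Helper290.Sym.Logic
import Pool.Agent.Helper290.Sym.Defs

set_option autoImplicit false

namespace Pool.Agent.Helper290.Sym

open scoped symmDiff

namespace Name

variable {B : Type} [CompleteBooleanAlgebra B] {Γ : B}

theorem eq_mk {α β : Type} (A : α → Name B) (v : α → B) (C : β → Name B) (w : β → B) :
    eq (mk α A v) (mk β C w) =
    (⨅ i, (v i ⇨ ⨆ j, w j ⊓ eq (A i) (C j))) ⊓ (⨅ j, (w j ⇨ ⨆ i, v i ⊓ eq (A i) (C j))) := rfl

theorem mem_mk (x : Name B) {β : Type} (C : β → Name B) (w : β → B) :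
    mem x (mk β C w) = ⨆ j, w j ⊓ eq x (C j) := rfl

theorem eq_refl (u : Name B) : eq u u = ⊤ := by
  induction u with
  | mk α A v ih =>
    rw [eq_mk, eq_top_iff]
    refine le_inf (le_iInf fun i => imp_intro fun Δ _ h => ?_)
      (le_iInf fun i => imp_intro fun Δ _ h => ?_)
    · exact ex_intro i (le_inf h (by rw [ih]; exact le_top))
    · exact ex_intro i (le_inf h (by rw [ih]; exact le_top))

theorem eq_symm (u w : Name B) : eq u w = eq w u := by
  induction u generalizing w with
  | mk α A v ih =>
    cases w with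
    | mk β C w =>
      rw [eq_mk, eq_mk, inf_comm]
      simp only [ih]

theorem eq_trans (u w z : Name B) (h1 : Γ ≤ eq u w) (h2 : Γ ≤ eq w z) : Γ ≤ eq u z := by
  induction u generalizing w z Γ with
  | mk α A v ih =>
    cases w with
    | mk β C w =>
      cases z with
      | mk γ D z =>
        rw [eq_mk] at h1 h2 ⊢
        refine le_inf (le_iInf fun i => imp_intro fun Δ hΔ hv => ?_)
          (le_iInf fun k => imp_intro fun Δ hΔ hz => ?_)
        · refine ex_elim (mp (all_elim ((hΔ.trans h1).trans inf_le_left) i) hv) ?_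
          intro j Δ1 hΔ1 h3
          refine ex_elim (mp (all_elim (((hΔ1.trans hΔ).trans h2).trans inf_le_left) j)
            (h3.trans inf_le_left)) ?_
          intro k Δ2 hΔ2 h4
          exact ex_intro k (le_inf (h4.trans inf_le_left)
            (ih i _ _ (hΔ2.trans (h3.trans inf_le_right)) (h4.trans inf_le_right)))
        · refine ex_elim (mp (all_elim ((hΔ.trans h2).trans inf_le_right) k) hz) ?_
          intro j Δ1 hΔ1 h3
          refine ex_elim (mp (all_elim (((hΔ1.trans hΔ).trans h1).trans inf_le_right) j)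
            (h3.trans inf_le_left)) ?_
          intro i Δ2 hΔ2 h4
          exact ex_intro i (le_inf (h4.trans inf_le_left)
            (ih i _ _ (h4.trans inf_le_right) (hΔ2.trans (h3.trans inf_le_right))))

theorem symm {u w : Name B} (h : Γ ≤ eq u w) : Γ ≤ eq w u := by rwa [eq_symm]

theorem mem_congr_left {x y u : Name B} (h : Γ ≤ eq x y) (h' : Γ ≤ mem x u) : Γ ≤ mem y u := by
  cases u with
  | mk α A v =>
    refine ex_elim h' ?_
    intro i Δ hΔ h1
    exact ex_intro i (le_inf (h1.trans inf_le_left)
      (eq_trans _ _ _ (symm (hΔ.trans h)) (h1.trans inf_le_right)))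

theorem mem_congr_right {x u w : Name B} (h : Γ ≤ eq u w) (h' : Γ ≤ mem x u) : Γ ≤ mem x w := by
  cases u with
  | mk α A v =>
    cases w with
    | mk β C w =>
      refine ex_elim h' ?_
      intro i Δ hΔ h1
      rw [eq_mk] at h
      refine ex_elim (mp (all_elim ((hΔ.trans h).trans inf_le_left) i) (h1.trans inf_le_left)) ?_
      intro j Δ1 hΔ1 h2
      exact ex_intro j (le_inf (h2.trans inf_le_left)
        (eq_trans _ _ _ (hΔ1.trans (h1.trans inf_le_right)) (h2.trans inf_le_right)))

theorem le_mem {α : Type} (A : α → Name B) (v : α → B) (i : α) : v i ≤ mem (A i) (mk α A v) := by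
  rw [mem_mk]
  exact ex_intro i (le_inf le_rfl (by rw [eq_refl]; exact le_top))

/-- extensionality, with quantifiers over the domains -/
theorem eq_intro {α β : Type} {A : α → Name B} {v : α → B} {C : β → Name B} {w : β → B}
    (h1 : ∀ i, ∀ Δ, Δ ≤ Γ → Δ ≤ v i → Δ ≤ mem (A i) (mk β C w))
    (h2 : ∀ j, ∀ Δ, Δ ≤ Γ → Δ ≤ w j → Δ ≤ mem (C j) (mk α A v)) :
    Γ ≤ eq (mk α A v) (mk β C w) := by
  rw [eq_mk]
  refine le_inf (le_iInf fun i => imp_intro fun Δ hΔ hv => h1 i Δ hΔ hv)
    (le_iInf fun j => imp_intro fun Δ hΔ hw => ?_)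
  have h3 := h2 j Δ hΔ hw
  rw [mem_mk] at h3
  refine h3.trans (iSup_mono fun i => ?_)
  rw [eq_symm]

/-! ### automorphisms -/

theorem act_mk (π : B ≃o B) {α : Type} (A : α → Name B) (v : α → B) :
    act π (mk α A v) = mk α (fun i => act π (A i)) (fun i => π (v i)) := rfl

theorem act_eq (π : B ≃o B) (u w : Name B) : eq (act π u) (act π w) = π (eq u w) := by
  induction u generalizing w with
  | mk α A v ih =>
    cases w with
    | mk β C w =>
      simp only [act_mk, eq_mk, ih, map_inf, map_iInf, map_iSup, map_himp]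

theorem act_mem (π : B ≃o B) (u w : Name B) : mem (act π u) (act π w) = π (mem u w) := by
  cases w with
  | mk β C w =>
    simp only [act_mk, mem_mk, act_eq, map_iSup, map_inf]

theorem act_one (u : Name B) : act (1 : B ≃o B) u = u := by
  induction u with
  | mk α A v ih =>
    rw [act_mk]
    congr 1
    funext i
    exact ih i

theorem act_mul (π σ : B ≃o B) (u : Name B) : act (π * σ) u = act π (act σ u) := by
  induction u with
  | mk α A v ih =>
    rw [act_mk, act_mk, act_mk]
    congr 1
    funext i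
    exact ih i

end Name

end Pool.Agent.Helper290.Sym
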