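import Pool.Agent.Helper290.Sym.Amen

set_option autoImplicit false

namespace Pool.Agent.Helper290.Sym

open scoped symmDiff
open SymSystem

/-- a subgroup all of whose subsets have a finite support, with a paradoxical decomposition -/
structure Par (T Γ : Type) [Group T] [Group Γ] [MulDistribMulAction Γ T] where
  K : Subgroup T
  fs : ∀ W : Set T, W ⊆ (K : Set T) → FS Γ W
  D : Set T
  hD : D ⊆ (K : Set T)
  b : T
  c : T
  d : T
  hb : b ∈ K
  hc : c ∈ K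
  hd : d ∈ K
  cover : ∀ t ∈ K, t ∈ D ∨ b⁻¹ * t ∈ D
  disj1 : ∀ t ∈ D, ¬ c⁻¹ * t ∈ D
  disj2 : ∀ t ∈ D, ¬ d⁻¹ * t ∈ D
  disj3 : ∀ t, c⁻¹ * t ∈ D → ¬ d⁻¹ * t ∈ D

variable {T Γ : Type} [Group T] [Group Γ] [MulDistribMulAction Γ T] (p : Par T Γ)

namespace Par

/-- the translate `g D` -/
def tr (g : T) : Set T := {t | g⁻¹ * t ∈ p.D}

theorem tr_sub (g : T) (hg : g ∈ p.K) : p.tr g ⊆ (p.K : Set T) := by
  intro t ht
  have h1 := p.K.mul_mem hg (p.hD ht)
  rwa [mul_inv_cancel_left] at h1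

/-- the subset `W` of `K` in the model -/
noncomputable def st (W : Set T) (h : W ⊆ (p.K : Set T)) : (sys T Γ).M := setM W (p.fs W h)

noncomputable def KM : (sys T Γ).M := p.st (p.K : Set T) subset_rfl

theorem translate_tr (g : T) (hg : g ∈ p.K) :
    (sys T Γ).model.translate opM (at' g) (p.st p.D p.hD) (p.st (p.tr g) (p.tr_sub g hg)) = ⊤ := by
  refine translate_setM (p.fs _ p.hD) (p.fs _ (p.tr_sub g hg)) g fun t => ?_
  show g⁻¹ * (g * t) ∈ p.D ↔ t ∈ p.D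
  rw [inv_mul_cancel_left]

theorem mem_KM (t : T) (ht : t ∈ p.K) (Δ : (sys T Γ).B) : Δ ≤ mem' (at' t) p.KM :=
  setM_intro (p.fs _ subset_rfl) t ht (rfl' _)

theorem sub_st (W : Set T) (hW : W ⊆ (p.K : Set T)) :
    (sys T Γ).model.sub (p.st W hW) p.KM = ⊤ :=
  sub_setM (p.fs W hW) (p.fs _ subset_rfl) hW

theorem union_st (W W1 W2 : Set T) (hW : W ⊆ (p.K : Set T)) (hW1 : W1 ⊆ (p.K : Set T))
    (hW2 : W2 ⊆ (p.K : Set T)) (h : W = W1 ∪ W2) :
    (sys T Γ).model.union (p.st W hW) (p.st W1 hW1) (p.st W2 hW2) = ⊤ :=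
  union_setM (p.fs W hW) (p.fs _ hW1) (p.fs _ hW2) h

theorem disj_st (W1 W2 : Set T) (hW1 : W1 ⊆ (p.K : Set T))
    (hW2 : W2 ⊆ (p.K : Set T)) (h : ∀ t, t ∈ W1 → ¬ t ∈ W2) :
    (sys T Γ).model.disj (p.st W1 hW1) (p.st W2 hW2) = ⊤ :=
  disj_setM (p.fs _ hW1) (p.fs _ hW2) h

theorem K_eq : (p.K : Set T) = p.D ∪ p.tr p.b := by
  apply Set.Subset.antisymm
  · intro t ht
    exact p.cover t ht
  · rintro t (ht | ht)
    · exact p.hD ht
    · exact p.tr_sub p.b p.hb ht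

theorem paradoxical : (sys T Γ).model.paradoxical p.KM opM = ⊤ := by
  rw [eq_top_iff]
  refine ex_intro (p.st p.D p.hD) (ex_intro (at' p.b) (ex_intro (at' p.c) (ex_intro (at' p.d)
    (ex_intro (p.st (p.tr p.b) (p.tr_sub p.b p.hb)) (ex_intro (p.st (p.tr p.c) (p.tr_sub p.c p.hc))
    (ex_intro (p.st (p.tr p.d) (p.tr_sub p.d p.hd)) ?_))))))
  refine le_inf (le_inf (le_inf (le_inf (le_inf (le_inf (le_inf (le_inf (le_inf (le_inf
    ?_ ?_) ?_) ?_) ?_) ?_) ?_) ?_) ?_) ?_) ?_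
  · exact eq_top_of (p.sub_st _ p.hD)
  · exact p.mem_KM _ p.hb _
  · exact p.mem_KM _ p.hc _
  · exact p.mem_KM _ p.hd _
  · exact eq_top_of (p.translate_tr p.b p.hb)
  · exact eq_top_of (p.translate_tr p.c p.hc)
  · exact eq_top_of (p.translate_tr p.d p.hd)
  · exact eq_top_of (p.union_st _ _ _ _ _ _ p.K_eq)
  · exact eq_top_of (p.disj_st _ _ _ _ p.disj1)
  · exact eq_top_of (p.disj_st _ _ _ _ p.disj2)
  · exact eq_top_of (p.disj_st _ _ _ _ p.disj3)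

theorem not_amenable {Δ : (sys T Γ).B} {R a m l o i : (sys T Γ).M}
    (h : Δ ≤ (sys T Γ).model.reals R a m l o i) :
    Δ ≤ ((sys T Γ).model.amenable R a l o i p.KM opM)ᶜ := by
  refine not_intro fun Δ0 h0 h1 => ?_
  refine ex_elim h1 fun μ Δ1 h2 h3 => ?_
  have hsum := h3.trans (inf_le_left.trans inf_le_right)
  have hval := h3.trans (inf_le_left.trans (inf_le_left.trans (inf_le_left.trans inf_le_left)))
  have hfun := h3.trans (inf_le_left.trans (inf_le_left.trans (inf_le_left.trans inf_le_right)))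
  have hone : Δ1 ≤ (sys T Γ).model.rel μ p.KM i :=
    h3.trans (inf_le_left.trans (inf_le_left.trans inf_le_right))
  have hinv := h3.trans inf_le_right
  -- the value of an explicit set
  have value : ∀ (W : Set T) (hW : W ⊆ (p.K : Set T)) (Δ2 : (sys T Γ).B), Δ2 ≤ Δ1 →
      Δ2 ≤ ⨆ r : (sys T Γ).M, mem' r R ⊓ (sys T Γ).model.rel l o r ⊓
        (sys T Γ).model.rel l r i ⊓ (sys T Γ).model.rel μ (p.st W hW) r := by
    intro W hW Δ2 h4
    exact mp (all_elim (h4.trans hval) (p.st W hW)) (eq_top_of (p.sub_st _ hW))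
  -- additivity for explicit sets
  have add : ∀ (W1 W2 W3 : Set T) (hW1 : W1 ⊆ (p.K : Set T)) (hW2 : W2 ⊆ (p.K : Set T))
      (hW3 : W3 ⊆ (p.K : Set T)) (_ : W3 = W1 ∪ W2) (_ : ∀ t, t ∈ W1 → ¬ t ∈ W2)
      (r s u : (sys T Γ).M) (Δ2 : (sys T Γ).B), Δ2 ≤ Δ1 →
      Δ2 ≤ (sys T Γ).model.rel μ (p.st W1 hW1) r → Δ2 ≤ (sys T Γ).model.rel μ (p.st W2 hW2) s →
      Δ2 ≤ (sys T Γ).model.rel μ (p.st W3 hW3) u → Δ2 ≤ (sys T Γ).model.op a r s u := by
    intro W1 W2 W3 hW1 hW2 hW3 hu hd r s u Δ2 h4 h5 h6 h7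
    exact mp (all_elim (all_elim (all_elim (all_elim (all_elim (all_elim (h4.trans hsum)
      (p.st W1 hW1)) (p.st W2 hW2)) (p.st W3 hW3)) r) s) u)
      (le_inf (le_inf (le_inf (le_inf (le_inf (le_inf (eq_top_of (p.sub_st _ hW1))
        (eq_top_of (p.sub_st _ hW2))) (eq_top_of (p.disj_st _ _ _ _ hd)))
        (eq_top_of (p.union_st _ _ _ _ _ _ hu))) h5) h6) h7)
  -- invariance
  have inv : ∀ (g : T) (hg : g ∈ p.K) (r : (sys T Γ).M) (Δ2 : (sys T Γ).B), Δ2 ≤ Δ1 →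
      Δ2 ≤ (sys T Γ).model.rel μ (p.st p.D p.hD) r →
      Δ2 ≤ (sys T Γ).model.rel μ (p.st (p.tr g) (p.tr_sub g hg)) r := by
    intro g hg r Δ2 h4 h5
    exact mp (all_elim (all_elim (all_elim (all_elim (h4.trans hinv) (at' g)) (p.st p.D p.hD))
      (p.st (p.tr g) (p.tr_sub g hg))) r)
      (le_inf (le_inf (le_inf (p.mem_KM g hg _) (eq_top_of (p.sub_st _ p.hD)))
        (eq_top_of (p.translate_tr g hg))) h5)
  -- the sets
  have hB := p.tr_sub p.b p.hb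
  have hC := p.tr_sub p.c p.hc
  have hDd := p.tr_sub p.d p.hd
  let D' : Set T := (p.K : Set T) \ p.D
  have hD' : D' ⊆ (p.K : Set T) := Set.sdiff_subset
  let U : Set T := p.tr p.b \ D'
  have hU : U ⊆ (p.K : Set T) := Set.sdiff_subset.trans hB
  let V : Set T := p.D ∪ p.tr p.c
  have hV : V ⊆ (p.K : Set T) := Set.union_subset p.hD hC
  let Y : Set T := V ∪ p.tr p.d
  have hY : Y ⊆ (p.K : Set T) := Set.union_subset hV hDd
  refine ex_elim (value p.D p.hD Δ1 le_rfl) fun r Δ2 h4 h5 => ?_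
  have hrR : Δ2 ≤ mem' r R := h5.trans (inf_le_left.trans (inf_le_left.trans inf_le_left))
  have hr0 : Δ2 ≤ (sys T Γ).model.rel l o r :=
    h5.trans (inf_le_left.trans (inf_le_left.trans inf_le_right))
  have hrm : Δ2 ≤ (sys T Γ).model.rel μ (p.st p.D p.hD) r := h5.trans inf_le_right
  refine ex_elim (value D' hD' Δ2 h4) fun s Δ3 h6 h7 => ?_
  have hsR : Δ3 ≤ mem' s R := h7.trans (inf_le_left.trans (inf_le_left.trans inf_le_left))
  have hsm : Δ3 ≤ (sys T Γ).model.rel μ (p.st D' hD') s := h7.trans inf_le_right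
  refine ex_elim (value U hU Δ3 (h6.trans h4)) fun u Δ4 h8 h9 => ?_
  have huR : Δ4 ≤ mem' u R := h9.trans (inf_le_left.trans (inf_le_left.trans inf_le_left))
  have hu0 : Δ4 ≤ (sys T Γ).model.rel l o u :=
    h9.trans (inf_le_left.trans (inf_le_left.trans inf_le_right))
  have hum : Δ4 ≤ (sys T Γ).model.rel μ (p.st U hU) u := h9.trans inf_le_right
  refine ex_elim (value V hV Δ4 (h8.trans (h6.trans h4))) fun w Δ5 h10 h11 => ?_
  have hwR : Δ5 ≤ mem' w R := h11.trans (inf_le_left.trans (inf_le_left.trans inf_le_left))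
  have hwm : Δ5 ≤ (sys T Γ).model.rel μ (p.st V hV) w := h11.trans inf_le_right
  refine ex_elim (value Y hY Δ5 (h10.trans (h8.trans (h6.trans h4)))) fun y Δ6 h12 h13 => ?_
  have hyR : Δ6 ≤ mem' y R := h13.trans (inf_le_left.trans (inf_le_left.trans inf_le_left))
  have hy1 : Δ6 ≤ (sys T Γ).model.rel l y i := h13.trans (inf_le_left.trans inf_le_right)
  have hym : Δ6 ≤ (sys T Γ).model.rel μ (p.st Y hY) y := h13.trans inf_le_right
  have e5 : Δ6 ≤ Δ4 := h12.trans h10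
  have e4 : Δ6 ≤ Δ3 := e5.trans h8
  have e3 : Δ6 ≤ Δ2 := e4.trans h6
  have e2 : Δ6 ≤ Δ1 := e3.trans h4
  refine core (e2.trans (h2.trans (h0.trans h))) (e3.trans hrR) (e4.trans hsR) (e5.trans huR)
    (h12.trans hwR) hyR ?_ ?_ ?_ ?_ (e3.trans hr0) (e5.trans hu0) hy1
  · refine add p.D D' (p.K : Set T) p.hD hD' subset_rfl
      (Set.union_sdiff_cancel p.hD).symm (fun t h1 h2 => h2.2 h1) r s i Δ6 e2 (e3.trans hrm)
      (e4.trans hsm) (e2.trans hone)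
  · refine add D' U (p.tr p.b) hD' hU hB ?_ (fun t h1 h2 => h2.2 h1) s u r Δ6 e2 (e4.trans hsm)
      (e5.trans hum) (inv p.b p.hb r Δ6 e2 (e3.trans hrm))
    refine (Set.union_sdiff_cancel ?_).symm
    rintro t ⟨h1, h2⟩
    exact (p.cover t h1).resolve_left h2
  · exact add p.D (p.tr p.c) V p.hD hC hV rfl p.disj1 r r w Δ6 e2 (e3.trans hrm)
      (inv p.c p.hc r Δ6 e2 (e3.trans hrm)) (h12.trans hwm)
  · refine add V (p.tr p.d) Y hV hDd hY rfl ?_ w r y Δ6 e2 (h12.trans hwm)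
      (inv p.d p.hd r Δ6 e2 (e3.trans hrm)) hym
    rintro t (ht | ht)
    · exact p.disj2 t ht
    · exact p.disj3 t ht

end Par

end Pool.Agent.Helper290.Sym
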