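import Pool.Agent.Helper290.Sym.ZF
import Pool.Agent.Helper290.Sym.Formulas

set_option autoImplicit false

namespace Pool.Agent.Helper290.Sym

open scoped symmDiff

namespace SymSystem

variable {S : SymSystem} {Γ : S.B}

/-- ordered pairs -/
def pr (x y : S.M) : S.M := upair (upair x x) (upair x y)

theorem upair_congr {x y x' y' : S.M} (h1 : Γ ≤ eq' x x') (h2 : Γ ≤ eq' y y') :
    Γ ≤ eq' (upair x y) (upair x' y') := by
  refine ext' (fun z Δ hΔ h => ?_) (fun z Δ hΔ h => ?_)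
  · rw [mem_upair] at h ⊢
    exact or_elim h (fun Δ1 h3 h4 => (trans h4 ((h3.trans hΔ).trans h1)).trans le_sup_left)
      (fun Δ1 h3 h4 => (trans h4 ((h3.trans hΔ).trans h2)).trans le_sup_right)
  · rw [mem_upair] at h ⊢
    exact or_elim h (fun Δ1 h3 h4 => (trans h4 (symm ((h3.trans hΔ).trans h1))).trans le_sup_left)
      (fun Δ1 h3 h4 => (trans h4 (symm ((h3.trans hΔ).trans h2))).trans le_sup_right)

theorem pr_congr {x y x' y' : S.M} (h1 : Γ ≤ eq' x x') (h2 : Γ ≤ eq' y y') :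
    Γ ≤ eq' (pr x y) (pr x' y') :=
  upair_congr (upair_congr h1 h1) (upair_congr h1 h2)

theorem left_mem_upair (x y : S.M) : Γ ≤ mem' x (upair x y) := by
  rw [mem_upair]
  exact (rfl' x).trans le_sup_left

theorem right_mem_upair (x y : S.M) : Γ ≤ mem' y (upair x y) := by
  rw [mem_upair]
  exact (rfl' y).trans le_sup_right

theorem mem_upair_elim {x y z : S.M} {ψ : S.B} (h : Γ ≤ mem' z (upair x y))
    (k1 : ∀ Δ, Δ ≤ Γ → Δ ≤ eq' z x → Δ ≤ ψ) (k2 : ∀ Δ, Δ ≤ Γ → Δ ≤ eq' z y → Δ ≤ ψ) : Γ ≤ ψ := by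
  rw [mem_upair] at h
  exact or_elim h k1 k2

/-- `{x} = {a, b}` implies `a = x` and `b = x` -/
theorem sing_inj {x a b : S.M} (h : Γ ≤ eq' (upair x x) (upair a b)) :
    Γ ≤ eq' a x ∧ Γ ≤ eq' b x := by
  constructor
  · exact mem_upair_elim (memR (symm h) (left_mem_upair a b)) (fun _ _ h => h) (fun _ _ h => h)
  · exact mem_upair_elim (memR (symm h) (right_mem_upair a b)) (fun _ _ h => h) (fun _ _ h => h)

theorem pr_inj {x y x' y' : S.M} (h : Γ ≤ eq' (pr x y) (pr x' y')) :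
    Γ ≤ eq' x x' ∧ Γ ≤ eq' y y' := by
  have h1 : Γ ≤ eq' x x' := by
    refine mem_upair_elim (memR h (left_mem_upair _ _)) (fun Δ _ h3 => symm (sing_inj h3).1)
      (fun Δ _ h3 => symm (sing_inj h3).1)
  refine ⟨h1, ?_⟩
  refine mem_upair_elim (memR h (right_mem_upair _ _)) (fun Δ h2 h3 => ?_) (fun Δ h2 h3 => ?_)
  · -- {x, y} = {x'}: then y = x' = x
    have h4 := sing_inj (symm h3)
    -- {x', y'} in {{x},{x,y}}
    refine mem_upair_elim (memR (symm (h2.trans h)) (right_mem_upair _ _)) (fun Δ1 h5 h6 => ?_)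
      (fun Δ1 h5 h6 => ?_)
    · have h7 := (sing_inj (symm h6)).2
      exact trans (h5.trans h4.2) (trans (symm ((h5.trans h2).trans h1)) (symm h7))
    · have h8 : Δ1 ≤ mem' y' (upair x y) := memR h6 (right_mem_upair _ _)
      refine mem_upair_elim h8 (fun Δ2 h9 h10 => ?_) (fun Δ2 h9 h10 => symm h10)
      exact trans ((h9.trans h5).trans h4.2)
        (trans (symm (((h9.trans h5).trans h2).trans h1)) (symm h10))
  · -- {x, y} = {x', y'}
    refine mem_upair_elim (memR h3 (right_mem_upair _ _)) (fun Δ1 h5 h6 => ?_)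
      (fun Δ1 h5 h6 => h6)
    refine mem_upair_elim (memR (symm (h5.trans h3)) (right_mem_upair _ _)) (fun Δ2 h7 h8 => ?_)
      (fun Δ2 h7 h8 => symm h8)
    exact trans (h7.trans h6) (trans (symm (((h7.trans h5).trans h2).trans h1)) (symm h8))

theorem pr_eq (x y x' y' : S.M) : eq' (pr x y) (pr x' y') = eq' x x' ⊓ eq' y y' := by
  apply eq_of_forall
  · intro Δ h
    exact le_inf (pr_inj h).1 (pr_inj h).2
  · intro Δ h
    exact pr_congr (h.trans inf_le_left) (h.trans inf_le_right)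

theorem smul_char {u w : S.M} {g : S.G} (h : ∀ x, mem' (g • x) w = S.ρ g (mem' x u)) :
    eq' (g • u) w = ⊤ := by
  have key : ∀ z, mem' z (g • u) = mem' z w := by
    intro z
    have h1 := h (g⁻¹ • z)
    rw [← smul_mem, smul_inv_smul] at h1
    exact h1.symm
  rw [eq_top_iff]
  refine ext' (fun z Δ _ h1 => ?_) (fun z Δ _ h1 => ?_)
  · rwa [← key]
  · rwa [key]

theorem smul_upair (g : S.G) (x y : S.M) : eq' (g • upair x y) (upair (g • x) (g • y)) = ⊤ := by
  apply smul_char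
  intro z
  rw [mem_upair, mem_upair, smul_eq, smul_eq, map_sup]

theorem smul_pr (g : S.G) (x y : S.M) : eq' (g • pr x y) (pr (g • x) (g • y)) = ⊤ := by
  rw [eq_top_iff]
  refine trans (eq_top_of (smul_upair g _ _)) ?_
  exact upair_congr (eq_top_of (smul_upair g _ _)) (eq_top_of (smul_upair g _ _))

theorem isUpair_eq (z x y : S.M) : S.model.upair z x y = eq' z (upair x y) := by
  apply eq_of_forall
  · intro Δ h
    have h : Δ ≤ ⨅ w : S.M, (mem' w z ⇔ (eq' w x ⊔ eq' w y)) := h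
    refine ext' (fun w Δ1 h1 h2 => ?_) (fun w Δ1 h1 h2 => ?_)
    · rw [mem_upair]
      exact iff_mp (all_elim (h1.trans h) w) h2
    · rw [mem_upair] at h2
      exact iff_mpr (all_elim (h1.trans h) w) h2
  · intro Δ h
    refine le_iInf fun w => iff_intro (fun Δ1 h1 h2 => ?_) (fun Δ1 h1 h2 => ?_)
    · show Δ1 ≤ eq' w x ⊔ eq' w y
      rw [← mem_upair]
      exact memR (h1.trans h) h2
    · have h2 : Δ1 ≤ eq' w x ⊔ eq' w y := h2
      rw [← mem_upair] at h2
      exact memR (symm (h1.trans h)) h2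

theorem isPair_eq (p x y : S.M) : S.model.pair p x y = eq' p (pr x y) := by
  rw [pr, ← isUpair_eq]
  show (⨅ z : S.M, (mem' z p ⇔ (S.model.upair z x x ⊔ S.model.upair z x y))) =
    ⨅ z : S.M, (mem' z p ⇔ (eq' z (upair x x) ⊔ eq' z (upair x y)))
  refine iInf_congr fun z => ?_
  rw [isUpair_eq, isUpair_eq]

theorem rel_eq (f x y : S.M) : S.model.rel f x y = mem' (pr x y) f := by
  show (⨆ p : S.M, S.model.pair p x y ⊓ mem' p f) = _
  apply eq_of_forall
  · intro Δ h
    refine ex_elim h ?_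
    intro p Δ1 h1 h2
    have h3 := h2.trans inf_le_left
    rw [isPair_eq] at h3
    exact memL h3 (h2.trans inf_le_right)
  · intro Δ h
    refine ex_intro (pr x y) (le_inf ?_ h)
    rw [isPair_eq]
    exact rfl' _

theorem op_eq (t x y z : S.M) : S.model.op t x y z = mem' (pr (pr x y) z) t := by
  show (⨆ p : S.M, S.model.pair p x y ⊓ S.model.rel t p z) = _
  apply eq_of_forall
  · intro Δ h
    refine ex_elim h ?_
    intro p Δ1 h1 h2
    have h3 := h2.trans inf_le_left
    have h4 := h2.trans inf_le_right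
    rw [isPair_eq] at h3
    rw [rel_eq] at h4
    exact memL (pr_congr h3 (rfl' _)) h4
  · intro Δ h
    refine ex_intro (pr x y) (le_inf ?_ ?_)
    · rw [isPair_eq]
      exact rfl' _
    · rw [rel_eq]
      exact h

/-- membership in itself has value `⊥` -/
theorem mem_self (x : S.M) : mem' x x = ⊥ := by
  refine dom_induction (P := fun x => mem' x x = ⊥) ?_ x
  intro u ih
  rw [eq_bot_iff]
  refine mem_elim le_rfl ?_
  intro i Δ h1 h2 h3
  rw [← ih i]
  exact memR h3 (memL h3 h1)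

theorem mem_num (k n : ℕ) (h : k < n) : mem' (num k : S.M) (num n) = ⊤ := by
  induction n with
  | zero => omega
  | succ n ih =>
    show mem' (num k : S.M) (succM (num n)) = ⊤
    rw [mem_succM]
    rcases Nat.lt_succ_iff_lt_or_eq.1 h with h | h
    · rw [ih h, top_sup_eq]
    · rw [h, eq_top_iff]
      exact (rfl' _).trans le_sup_right

theorem eq_num (k n : ℕ) (h : k ≠ n) : eq' (num k : S.M) (num n) = ⊥ := by
  wlog hlt : k < n generalizing k n
  · rw [eq'_comm]
    exact this n k h.symm (by omega)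
  rw [eq_bot_iff, ← mem_self (num n : S.M)]
  exact memL le_rfl (eq_top_of (mem_num k n hlt))

/-- families of members of the model which are permuted by the group -/
theorem supp_fam {ι : Type} (sh : S.G → ι → ι) (hsh : ∀ g, Function.Surjective (sh g))
    (u : ι → S.M) (v : ι → S.B) (E : Set S.X) (hE : E.Finite)
    (h : ∀ g : S.G, (∀ x ∈ E, g • x = x) → ∀ i, eq' (g • u i) (u (sh g i)) = ⊤ ∧
      v (sh g i) = S.ρ g (v i)) :
    Supp (fun x : S.M => ⨆ i, v i ⊓ eq' x (u i)) := by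
  refine ⟨E, hE, fun g hg x => ?_⟩
  show (⨆ i, v i ⊓ eq' (g • x) (u i)) = S.ρ g (⨆ i, v i ⊓ eq' x (u i))
  rw [map_iSup, ← (hsh g).iSup_comp (g := fun i => v i ⊓ eq' (g • x) (u i))]
  refine iSup_congr fun i => ?_
  obtain ⟨h1, h2⟩ := h g hg i
  rw [h2, map_inf, ← smul_eq]
  congr 1
  apply eq_of_forall
  · intro Δ h3
    exact trans h3 (symm (eq_top_of h1))
  · intro Δ h3
    exact trans h3 (eq_top_of h1)

/-- definable binary relations between two sets -/
theorem rel_exists (U W : S.M) (Φ : S.M → S.M → S.B)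
    (hext : ∀ (x y x' y' : S.M) (Γ : S.B), Γ ≤ eq' x x' → Γ ≤ eq' y y' → Γ ≤ Φ x y → Γ ≤ Φ x' y')
    (E : Set S.X) (hE : E.Finite)
    (hs : ∀ g : S.G, (∀ x ∈ E, g • x = x) → ∀ x y, Φ (g • x) (g • y) = S.ρ g (Φ x y)) :
    ∃ f : S.M, ∀ x y, mem' (pr x y) f = mem' x U ⊓ mem' y W ⊓ Φ x y := by
  have h : ∀ p, (⨆ x, ⨆ y, mem' x U ⊓ mem' y W ⊓ Φ x y ⊓ eq' p (pr x y)) =
      ⨆ k : Dom U × Dom W, (vl U k.1 ⊓ vl W k.2 ⊓ Φ (el U k.1) (el W k.2)) ⊓
        eq' p (pr (el U k.1) (el W k.2)) := by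
    intro p
    apply eq_of_forall
    · intro Δ h1
      refine ex_elim h1 fun x Δ1 _ h2 => ex_elim h2 fun y Δ2 _ h3 => ?_
      refine mem_elim (((h3.trans inf_le_left).trans inf_le_left).trans inf_le_left) ?_
      intro i Δ3 h4 h5 h6
      refine mem_elim (h4.trans (((h3.trans inf_le_left).trans inf_le_left).trans inf_le_right)) ?_
      intro j Δ4 h7 h8 h9
      refine ex_intro (i, j) (le_inf (le_inf (le_inf (h7.trans h5) h8) ?_) ?_)
      · exact hext _ _ _ _ _ (h7.trans h6) h9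
          (h7.trans (h4.trans ((h3.trans inf_le_left).trans inf_le_right)))
      · exact trans (h7.trans (h4.trans (h3.trans inf_le_right))) (pr_congr (h7.trans h6) h9)
    · intro Δ h1
      refine ex_elim h1 ?_
      rintro ⟨i, j⟩ Δ1 _ h2
      refine ex_intro (el U i) (ex_intro (el W j) (le_inf (le_inf (le_inf ?_ ?_) ?_) ?_))
      · exact (((h2.trans inf_le_left).trans inf_le_left).trans inf_le_left).trans (vl_le_mem U i)
      · exact (((h2.trans inf_le_left).trans inf_le_left).trans inf_le_right).trans (vl_le_mem W j)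
      · exact (h2.trans inf_le_left).trans inf_le_right
      · exact h2.trans inf_le_right
  have hsupp : Supp (fun p => ⨆ x, ⨆ y, mem' x U ⊓ mem' y W ⊓ Φ x y ⊓ eq' p (pr x y)) := by
    obtain ⟨E1, hE1, h1⟩ := exists_support U
    obtain ⟨E2, hE2, h2⟩ := exists_support W
    refine ⟨E ∪ (E1 ∪ E2), hE.union (hE1.union hE2), fun g hg p => ?_⟩
    show (⨆ x, ⨆ y, mem' x U ⊓ mem' y W ⊓ Φ x y ⊓ eq' (g • p) (pr x y)) =
      S.ρ g (⨆ x, ⨆ y, mem' x U ⊓ mem' y W ⊓ Φ x y ⊓ eq' p (pr x y))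
    rw [map_iSup, ← smul_iSup g]
    refine iSup_congr fun x => ?_
    rw [map_iSup, ← smul_iSup g]
    refine iSup_congr fun y => ?_
    rw [mem_smul_left (h1 g (fun x hx => hg x (Or.inr (Or.inl hx)))),
      mem_smul_left (h2 g (fun x hx => hg x (Or.inr (Or.inr hx)))),
      hs g (fun x hx => hg x (Or.inl hx)), map_inf, map_inf, map_inf, ← smul_eq]
    congr 1
    apply eq_of_forall
    · intro Δ h3
      exact trans h3 (symm (eq_top_of (smul_pr g x y)))
    · intro Δ h3
      exact trans h3 (eq_top_of (smul_pr g x y))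
  refine ⟨mkM (fun k : Dom U × Dom W => pr (el U k.1) (el W k.2))
    (fun k => vl U k.1 ⊓ vl W k.2 ⊓ Φ (el U k.1) (el W k.2)) (Supp.congr h hsupp), ?_⟩
  intro x y
  rw [mem_mkM, ← h]
  apply eq_of_forall
  · intro Δ h1
    refine ex_elim h1 fun x' Δ1 _ h2 => ex_elim h2 fun y' Δ2 _ h3 => ?_
    obtain ⟨h4, h5⟩ := pr_inj (h3.trans inf_le_right)
    refine le_inf (le_inf ?_ ?_) ?_
    · exact memL (symm h4) (((h3.trans inf_le_left).trans inf_le_left).trans inf_le_left)
    · exact memL (symm h5) (((h3.trans inf_le_left).trans inf_le_left).trans inf_le_right)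
    · exact hext _ _ _ _ _ (symm h4) (symm h5) ((h3.trans inf_le_left).trans inf_le_right)
  · intro Δ h1
    exact ex_intro x (ex_intro y (le_inf h1 (rfl' _)))

end SymSystem

end Pool.Agent.Helper290.Sym
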