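import Pool.Agent.Helper290.Sym.DeepZF

set_option autoImplicit false

namespace Pool.Agent.Helper290.Sym

/-- Derivations in classical first-order logic with equality (natural deduction, for formulas
with free variables among `n`): `Prf Γ φ` says that `φ` is derivable from the set `Γ`. -/
inductive Prf : {n : ℕ} → Set (Fml n) → Fml n → Prop
  /-- assumption -/
  | ax {n : ℕ} {Γ : Set (Fml n)} {φ : Fml n} : φ ∈ Γ → Prf Γ φ
  /-- introduction of an implication -/
  | impI {n : ℕ} {Γ : Set (Fml n)} {φ ψ : Fml n} : Prf (insert φ Γ) ψ → Prf Γ (.imp φ ψ)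
  /-- modus ponens -/
  | impE {n : ℕ} {Γ : Set (Fml n)} {φ ψ : Fml n} : Prf Γ (.imp φ ψ) → Prf Γ φ → Prf Γ ψ
  /-- proof by contradiction -/
  | raa {n : ℕ} {Γ : Set (Fml n)} {φ : Fml n} : Prf (insert φ.neg Γ) .fls → Prf Γ φ
  /-- generalisation over a new variable -/
  | allI {n : ℕ} {Γ : Set (Fml n)} {φ : Fml (n + 1)} :
      Prf {ψ | ∃ γ ∈ Γ, ψ = γ.ren Fin.succ} φ → Prf Γ (.all φ)
  /-- specialisation to a variable -/
  | allE {n : ℕ} {Γ : Set (Fml n)} {φ : Fml (n + 1)} (i : Fin n) :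
      Prf Γ (.all φ) → Prf Γ (φ.ren (Fin.cons i id))
  /-- the domain is not empty: a new variable may be used -/
  | dom {n : ℕ} {Γ : Set (Fml n)} {φ : Fml n} :
      Prf {ψ | ∃ γ ∈ Γ, ψ = γ.ren Fin.succ} (φ.ren Fin.succ) → Prf Γ φ
  /-- reflexivity of equality -/
  | refl {n : ℕ} {Γ : Set (Fml n)} (i : Fin n) : Prf Γ (.eq i i)
  /-- substitution of equals -/
  | subst {n : ℕ} {Γ : Set (Fml n)} (φ : Fml (n + 1)) (i j : Fin n) :
      Prf Γ (.eq i j) → Prf Γ (φ.ren (Fin.cons i id)) → Prf Γ (φ.ren (Fin.cons j id))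

/-- A set of sentences is consistent if no contradiction is derivable from it. -/
def Consistent (Θ : Set (Fml 0)) : Prop := ¬ Prf Θ .fls

/-- the universal closure of a formula -/
def Fml.close : {n : ℕ} → Fml n → Fml 0
  | 0, φ => φ
  | _ + 1, φ => Fml.close (.all φ)

/-- the axioms of ZF (with free variables) -/
inductive IsAxiom : {n : ℕ} → Fml n → Prop
  | extensionality : IsAxiom (Fml.ax_ext (0 : Fin 2) 1)
  | foundation : IsAxiom (Fml.ax_found (0 : Fin 1))
  | pairing : IsAxiom (Fml.ax_pair (0 : Fin 2) 1)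
  | union : IsAxiom (Fml.ax_union (0 : Fin 1))
  | power : IsAxiom (Fml.ax_power (0 : Fin 1))
  | infinity : IsAxiom (Fml.ax_inf (n := 0))
  | separation {n : ℕ} (φ : Fml (n + 1)) : IsAxiom (Fml.ax_sep φ)
  | replacement {n : ℕ} (φ : Fml (n + 2)) : IsAxiom (Fml.ax_repl φ)

/-- the theory ZF: all universal closures of axioms -/
def ZF : Set (Fml 0) := {θ | ∃ (n : ℕ) (φ : Fml n), IsAxiom φ ∧ θ = φ.close}

section soundness

set_option linter.unusedSectionVars false

variable {V : BStr Prop} (hV : ∀ x y : V.carrier, V.eq x y ↔ x = y) [Inhabited V.carrier]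

include hV in
theorem Prf.sound {n : ℕ} {Γ : Set (Fml n)} {φ : Fml n} (h : Prf Γ φ) (s : Fin n → V.carrier)
    (hs : ∀ γ ∈ Γ, γ.val V s) : φ.val V s := by
  have lift : ∀ {n : ℕ} (Γ : Set (Fml n)) (s : Fin n → V.carrier) (x : V.carrier),
      (∀ γ ∈ Γ, γ.val V s) → ∀ ψ ∈ {ψ : Fml (n + 1) | ∃ γ ∈ Γ, ψ = γ.ren Fin.succ},
        ψ.val V (Fin.cons x s) := by
    rintro n Γ s x hs ψ ⟨γ, hγ, rfl⟩
    rw [Fml.val_ren]
    exact hs γ hγ
  induction h with
  | ax h => exact hs _ h
  | @impI n Γ φ ψ _ ih =>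
    intro h1
    refine ih s ?_
    rintro γ (rfl | hγ)
    · exact h1
    · exact hs γ hγ
  | impE _ _ ih1 ih2 => exact ih1 s hs (ih2 s hs)
  | @raa n Γ φ _ ih =>
    by_contra h1
    refine ih s ?_
    rintro γ (rfl | hγ)
    · rw [Fml.val_neg]
      exact h1
    · exact hs γ hγ
  | allI _ ih =>
    rw [Fml.val_all, iInf_Prop_eq]
    exact fun x => ih _ (lift _ s x hs)
  | @allE n Γ φ i _ ih =>
    have h1 := ih s hs
    rw [Fml.val_all, iInf_Prop_eq] at h1
    rw [Fml.val_ren]
    have h2 : (fun k => s ((Fin.cons i id : Fin (n + 1) → Fin n) k)) = Fin.cons (s i) s := by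
      funext k
      refine Fin.cases ?_ (fun k => ?_) k <;> rfl
    rw [h2]
    exact h1 (s i)
  | @dom n Γ φ _ ih =>
    have h1 := ih (Fin.cons default s) (lift _ s _ hs)
    rw [Fml.val_ren] at h1
    exact h1
  | refl i => exact (hV _ _).2 rfl
  | @subst n Γ φ i j _ _ ih1 ih2 =>
    have h1 : s i = s j := (hV _ _).1 (ih1 s hs)
    have h2 := ih2 s hs
    rw [Fml.val_ren] at h2 ⊢
    have h3 : (fun k => s ((Fin.cons i id : Fin (n + 1) → Fin n) k)) =
        fun k => s ((Fin.cons j id : Fin (n + 1) → Fin n) k) := by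
      funext k
      refine Fin.cases ?_ (fun k => ?_) k
      · exact h1
      · rfl
    rw [← h3]
    exact h2

theorem val_close {n : ℕ} (φ : Fml n) (h : ∀ s : Fin n → V.carrier, φ.val V s) :
    φ.close.val V Fin.elim0 := by
  induction n with
  | zero => exact h _
  | succ n ih =>
    refine ih (.all φ) fun s => ?_
    rw [Fml.val_all, iInf_Prop_eq]
    exact fun x => h _

theorem models_axiom (hZ : ModelsZF V) {n : ℕ} {φ : Fml n} (h : IsAxiom φ)
    (s : Fin n → V.carrier) : φ.val V s := by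
  cases h with
  | extensionality =>
    rw [Fml.val_ax_ext]
    exact hZ.extensionality _ _
  | foundation =>
    rw [Fml.val_ax_found]
    exact hZ.foundation _
  | pairing =>
    rw [Fml.val_ax_pair, hZ.pairing]
    trivial
  | union =>
    rw [Fml.val_ax_union, hZ.union]
    trivial
  | power =>
    rw [Fml.val_ax_power, hZ.power]
    trivial
  | infinity =>
    rw [Fml.val_ax_inf, hZ.infinity]
    trivial
  | @separation n φ =>
    rw [← Fin.cons_self_tail s, Fml.val_ax_sep, hZ.separation]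
    trivial
  | @replacement n φ =>
    rw [← Fin.cons_self_tail s, Fml.val_ax_repl]
    exact hZ.replacement _ _ _

include hV in
/-- a theory with a two-valued model is consistent -/
theorem consistent_of_model (hZ : ModelsZF V) {θ : Fml 0} (hθ : θ.val V Fin.elim0) :
    Consistent (insert θ ZF) := by
  intro h
  refine h.sound hV Fin.elim0 ?_
  rintro γ (rfl | ⟨n, φ, hφ, rfl⟩)
  · exact hθ
  · exact val_close φ fun s => models_axiom hZ hφ s

end soundness

end Pool.Agent.Helper290.Sym
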