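import Pool.Agent.Helper290.Sym.Logic

set_option autoImplicit false

namespace Pool.Agent.Helper290.Sym

/-- The regular sets of conditions of a preorder (smaller means stronger): the complete Boolean
algebra of the forcing `P`. -/
@[ext] structure Reg (P : Type) [Preorder P] where
  carrier : Set P
  reg' : ∀ p, (∀ q, q ≤ p → ∃ r, r ≤ q ∧ r ∈ carrier) → p ∈ carrier
  down' : ∀ p q, q ≤ p → p ∈ carrier → q ∈ carrier

namespace Reg

variable {P : Type} [Preorder P]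

instance : Membership P (Reg P) := ⟨fun a p => p ∈ a.carrier⟩

theorem reg {a : Reg P} {p : P} (h : ∀ q, q ≤ p → ∃ r, r ≤ q ∧ r ∈ a) : p ∈ a := a.reg' p h

theorem down {a : Reg P} {p q : P} (h : q ≤ p) (hp : p ∈ a) : q ∈ a := a.down' p q h hp

theorem ext' {a b : Reg P} (h : ∀ p, p ∈ a ↔ p ∈ b) : a = b := Reg.ext (Set.ext h)

instance : PartialOrder (Reg P) where
  le a b := ∀ p, p ∈ a → p ∈ b
  le_refl a p h := h
  le_trans a b c h1 h2 p h := h2 p (h1 p h)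
  le_antisymm a b h1 h2 := ext' (fun p => ⟨h1 p, h2 p⟩)

theorem le_def {a b : Reg P} : a ≤ b ↔ ∀ p, p ∈ a → p ∈ b := Iff.rfl

/-- regularisation of a set of conditions -/
def cl (s : Set P) : Reg P where
  carrier := {p | ∀ q, q ≤ p → ∃ r, r ≤ q ∧ ∃ t, r ≤ t ∧ t ∈ s}
  reg' := by
    intro p h q hq
    obtain ⟨r, hr, h1⟩ := h q hq
    obtain ⟨r', hr', h2⟩ := h1 r le_rfl
    exact ⟨r', hr'.trans hr, h2⟩
  down' := fun p q h hp r hr => hp r (hr.trans h)

theorem mem_cl {s : Set P} {p : P} : p ∈ cl s ↔ ∀ q, q ≤ p → ∃ r, r ≤ q ∧ ∃ t, r ≤ t ∧ t ∈ s :=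
  Iff.rfl

def neg (a : Reg P) : Reg P where
  carrier := {p | ∀ q, q ≤ p → ¬ q ∈ a}
  reg' := by
    intro p h q hq hqa
    obtain ⟨r, hr, h1⟩ := h q hq
    exact h1 r le_rfl (down hr hqa)
  down' := fun p q h hp r hr => hp r (hr.trans h)

def and (a b : Reg P) : Reg P where
  carrier := {p | p ∈ a ∧ p ∈ b}
  reg' := fun p h => ⟨reg (fun q hq => by
      obtain ⟨r, hr, h1⟩ := h q hq
      exact ⟨r, hr, h1.1⟩), reg (fun q hq => by
      obtain ⟨r, hr, h1⟩ := h q hq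
      exact ⟨r, hr, h1.2⟩)⟩
  down' := fun p q h hp => ⟨down h hp.1, down h hp.2⟩

def inter (s : Set (Reg P)) : Reg P where
  carrier := {p | ∀ a ∈ s, p ∈ a}
  reg' := fun p h a ha => reg (fun q hq => by
      obtain ⟨r, hr, h1⟩ := h q hq
      exact ⟨r, hr, h1 a ha⟩)
  down' := fun p q h hp a ha => down h (hp a ha)

def union (s : Set (Reg P)) : Reg P where
  carrier := {p | ∀ q, q ≤ p → ∃ r, r ≤ q ∧ ∃ a ∈ s, r ∈ a}
  reg' := by
    intro p h q hq
    obtain ⟨r, hr, h1⟩ := h q hq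
    obtain ⟨r', hr', h2⟩ := h1 r le_rfl
    exact ⟨r', hr'.trans hr, h2⟩
  down' := fun p q h hp r hr => hp r (hr.trans h)

def or (a b : Reg P) : Reg P where
  carrier := {p | ∀ q, q ≤ p → ∃ r, r ≤ q ∧ (r ∈ a ∨ r ∈ b)}
  reg' := by
    intro p h q hq
    obtain ⟨r, hr, h1⟩ := h q hq
    obtain ⟨r', hr', h2⟩ := h1 r le_rfl
    exact ⟨r', hr'.trans hr, h2⟩
  down' := fun p q h hp r hr => hp r (hr.trans h)

def tp : Reg P := ⟨Set.univ, fun _ _ => trivial, fun _ _ _ _ => trivial⟩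
def bt : Reg P := ⟨∅, fun p h => by
  obtain ⟨r, _, h⟩ := h p le_rfl
  exact h, fun _ _ _ h => h⟩

instance : CompleteBooleanAlgebra (Reg P) where
  sup := or
  le_sup_left a b p h q hq := ⟨q, le_rfl, Or.inl (down hq h)⟩
  le_sup_right a b p h q hq := ⟨q, le_rfl, Or.inr (down hq h)⟩
  sup_le a b c h1 h2 p h := reg (fun q hq => by
    obtain ⟨r, hr, h3⟩ := h q hq
    exact ⟨r, hr, h3.elim (h1 r) (h2 r)⟩)
  inf := and
  inf_le_left a b p h := h.1
  inf_le_right a b p h := h.2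
  le_inf a b c h1 h2 p h := ⟨h1 p h, h2 p h⟩
  sSup := union
  isLUB_sSup s := ⟨fun a ha p h q hq => ⟨q, le_rfl, a, ha, down hq h⟩, fun a h p hp =>
    reg (fun q hq => by
      obtain ⟨r, hr, b, hb, h3⟩ := hp q hq
      exact ⟨r, hr, h hb r h3⟩)⟩
  sInf := inter
  isGLB_sInf s := ⟨fun a ha p h => h a ha, fun a h p hp b hb => h hb p hp⟩
  top := tp
  le_top a p _ := trivial
  bot := bt
  bot_le a p h := h.elim
  compl := neg
  le_sup_inf a b c p h := fun q hq => by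
    obtain ⟨r, hr, h1⟩ := h.1 q hq
    obtain ⟨r', hr', h2⟩ := h.2 r (hr.trans hq)
    rcases h1 with h1 | h1
    · exact ⟨r, hr, Or.inl h1⟩
    · rcases h2 with h2 | h2
      · exact ⟨r', hr'.trans hr, Or.inl h2⟩
      · exact ⟨r', hr'.trans hr, Or.inr ⟨down hr' h1, h2⟩⟩
  inf_compl_le_bot a p h := absurd h.1 (h.2 p le_rfl)
  top_le_sup_compl a p _ := fun q _ => by
    by_cases h : ∃ r, r ≤ q ∧ r ∈ a
    · obtain ⟨r, hr, h⟩ := h
      exact ⟨r, hr, Or.inl h⟩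
    · exact ⟨q, le_rfl, Or.inr (fun r hr hra => h ⟨r, hr, hra⟩)⟩

theorem mem_inf {a b : Reg P} {p : P} : p ∈ a ⊓ b ↔ p ∈ a ∧ p ∈ b := Iff.rfl
theorem mem_top (p : P) : p ∈ (⊤ : Reg P) := trivial
theorem not_mem_bot (p : P) : ¬ p ∈ (⊥ : Reg P) := fun h => h
theorem mem_compl {a : Reg P} {p : P} : p ∈ aᶜ ↔ ∀ q, q ≤ p → ¬ q ∈ a := Iff.rfl

instance [Nonempty P] : Nontrivial (Reg P) :=
  ⟨⊥, ⊤, fun h => not_mem_bot (Classical.arbitrary P) (h ▸ mem_top _)⟩

/-! automorphisms of the forcing -/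

variable {G : Type} [Group G] [MulAction G P]

def smulReg (hmono : ∀ (g : G) (p q : P), p ≤ q → g • p ≤ g • q) (g : G) (a : Reg P) : Reg P where
  carrier := {p | g⁻¹ • p ∈ a}
  reg' := fun p h => reg (fun q hq => by
    obtain ⟨r, hr, h1⟩ := h (g • q) (by
      have := hmono g _ _ hq
      rwa [smul_inv_smul] at this)
    refine ⟨g⁻¹ • r, ?_, h1⟩
    have := hmono g⁻¹ _ _ hr
    rwa [inv_smul_smul] at this)
  down' := fun p q h hp => down (hmono g⁻¹ _ _ h) hp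

def rho (hmono : ∀ (g : G) (p q : P), p ≤ q → g • p ≤ g • q) : G →* (Reg P ≃o Reg P) where
  toFun g :=
    { toFun := smulReg hmono g
      invFun := smulReg hmono g⁻¹
      left_inv := fun a => ext' (fun p => by
        show g⁻¹ • (g⁻¹)⁻¹ • p ∈ a ↔ p ∈ a
        rw [inv_inv, inv_smul_smul])
      right_inv := fun a => ext' (fun p => by
        show (g⁻¹)⁻¹ • g⁻¹ • p ∈ a ↔ p ∈ a
        rw [inv_inv, smul_inv_smul])
      map_rel_iff' := by
        intro a b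
        constructor
        · intro h p hp
          have := h (g • p) (by
            show g⁻¹ • g • p ∈ a
            rwa [inv_smul_smul])
          have h2 : g⁻¹ • g • p ∈ b := this
          rwa [inv_smul_smul] at h2
        · intro h p hp
          exact h _ hp }
  map_one' := by
    apply RelIso.ext
    intro a
    refine ext' (fun p => ?_)
    show (1 : G)⁻¹ • p ∈ a ↔ p ∈ a
    rw [inv_one, one_smul]
  map_mul' g k := by
    apply RelIso.ext
    intro a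
    refine ext' (fun p => ?_)
    show (g * k)⁻¹ • p ∈ a ↔ k⁻¹ • g⁻¹ • p ∈ a
    rw [mul_inv_rev, mul_smul]

theorem mem_rho (hmono : ∀ (g : G) (p q : P), p ≤ q → g • p ≤ g • q) (g : G) (a : Reg P) (p : P) :
    p ∈ rho hmono g a ↔ g⁻¹ • p ∈ a := Iff.rfl

end Reg

end Pool.Agent.Helper290.Sym
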