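import Pool.Agent.Helper290.Sym.Pairs
import Pool.Agent.Helper290.Sym.Cohen

set_option autoImplicit false

namespace Pool.Agent.Helper290.Sym

open scoped symmDiff

/-! Given a group `Γ` acting on a set `T`: Cohen reals indexed by `T × ℕ`, and for each `t` the
set `a t` of the Cohen reals with first index `t`.  The group consists of the permutations of
`T × ℕ` which lie over the action of an element of `Γ`. -/

structure Idx (T : Type) where
  t : T
  m : ℕ

@[ext] structure Pos (T : Type) where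
  i : Idx T
  k : ℕ

inductive Spt (T : Type)
  | idx (i : Idx T)
  | pt (t : T)

section
variable (T Γ : Type) [Group Γ] [MulAction Γ T]

def Gp : Subgroup (Γ × Equiv.Perm (Idx T)) where
  carrier := {g | ∀ i : Idx T, (g.2 i).t = g.1 • i.t}
  one_mem' := fun i => by simp
  mul_mem' := by
    intro g h hg hh i
    show (g.2 (h.2 i)).t = (g.1 * h.1) • i.t
    rw [hg, hh, mul_smul]
  inv_mem' := by
    intro g hg i
    show (g.2.symm i).t = g.1⁻¹ • i.t
    have := hg (g.2.symm i)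
    rw [Equiv.apply_symm_apply] at this
    rw [this, inv_smul_smul]

end

variable {T Γ : Type} [Group Γ] [MulAction Γ T]

instance : MulAction (Gp T Γ) T where
  smul g t := g.1.1 • t
  one_smul t := one_smul Γ t
  mul_smul g h t := mul_smul g.1.1 h.1.1 t

instance : MulAction (Gp T Γ) (Idx T) where
  smul g i := g.1.2 i
  one_smul _ := rfl
  mul_smul _ _ _ := rfl

instance : MulAction (Gp T Γ) (Pos T) where
  smul g j := ⟨g • j.i, j.k⟩
  one_smul _ := rfl
  mul_smul _ _ _ := rfl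

instance : MulAction (Gp T Γ) (Spt T) where
  smul g x := match x with
    | .idx i => .idx (g • i)
    | .pt t => .pt (g • t)
  one_smul x := by
    cases x with
    | idx i => rfl
    | pt t => exact congrArg Spt.pt (one_smul (Gp T Γ) t)
  mul_smul g h x := by
    cases x with
    | idx i => rfl
    | pt t => exact congrArg Spt.pt (mul_smul g h t)

theorem smul_T (g : Gp T Γ) (t : T) : g • t = g.1.1 • t := rfl
theorem smul_Idx (g : Gp T Γ) (i : Idx T) : g • i = g.1.2 i := rfl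
theorem smul_Idx_t (g : Gp T Γ) (i : Idx T) : (g • i).t = g • i.t := g.2 i
theorem smul_Pos (g : Gp T Γ) (j : Pos T) : g • j = ⟨g • j.i, j.k⟩ := rfl
theorem smul_idx (g : Gp T Γ) (i : Idx T) : g • Spt.idx i = Spt.idx (g • i) := rfl
theorem smul_pt (g : Gp T Γ) (t : T) : g • Spt.pt t = Spt.pt (g • t) := rfl

/-- the symmetric system -/
abbrev sys (T Γ : Type) [Group Γ] [MulAction Γ T] : SymSystem where
  B := Reg (Cond (Pos T))
  G := Gp T Γ
  X := Spt T
  ρ := Cond.rho (Gp T Γ) (Pos T)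

/-! ### the key lemma: finite conditions can be moved out of the way -/

/-- swap `[0, N)` and `[N, 2 N)` -/
def sw (N m : ℕ) : ℕ := if m < N then m + N else if m < 2 * N then m - N else m

theorem sw_sw (N m : ℕ) : sw N (sw N m) = m := by
  unfold sw
  split_ifs <;> omega

open Classical in
/-- the permutation of the indices over `γ` which is the identity over the fixed points of `γ`
and swaps `[0, N)` and `[N, 2N)` elsewhere -/
noncomputable def mv (γ : Γ) (N : ℕ) : Equiv.Perm (Idx T) where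
  toFun i := ⟨γ • i.t, if γ • i.t = i.t then i.m else sw N i.m⟩
  invFun i := ⟨γ⁻¹ • i.t, if γ⁻¹ • i.t = i.t then i.m else sw N i.m⟩
  left_inv := by
    rintro ⟨t, m⟩
    by_cases h : γ • t = t
    · have h2 : γ⁻¹ • t = t := by rw [inv_smul_eq_iff, h]
      simp [h, h2]
    · have h2 : t ≠ γ • t := fun h' => h h'.symm
      simp [h, h2, sw_sw]
  right_inv := by
    rintro ⟨t, m⟩
    by_cases h : γ⁻¹ • t = t
    · have h2 : γ • t = t := (inv_smul_eq_iff.1 h).symm
      simp [h, h2]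
    · have h2 : t ≠ γ⁻¹ • t := fun h' => h h'.symm
      simp [h, h2, sw_sw]

noncomputable def mvG (γ : Γ) (N : ℕ) : Gp T Γ := ⟨(γ, mv γ N), fun _ => rfl⟩

theorem mvG_idx (γ : Γ) (N : ℕ) (i : Idx T) (h : γ • i.t = i.t) : (mvG γ N : Gp T Γ) • i = i := by
  obtain ⟨t, m⟩ := i
  show (⟨γ • t, _⟩ : Idx T) = _
  have h : γ • t = t := h
  simp [h]

theorem mvG_inv (γ : Γ) (N : ℕ) (i : Idx T) :
    ((mvG γ N : Gp T Γ)⁻¹ • i = i ∧ γ • i.t = i.t) ∨
    (((mvG γ N : Gp T Γ)⁻¹ • i).m = sw N i.m) := by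
  classical
  by_cases h : γ⁻¹ • i.t = i.t
  · left
    have h2 : γ • i.t = i.t := (inv_smul_eq_iff.1 h).symm
    refine ⟨?_, h2⟩
    rw [inv_smul_eq_iff, mvG_idx γ N i h2]
  · right
    show (if γ⁻¹ • i.t = i.t then i.m else sw N i.m) = sw N i.m
    rw [if_neg h]

theorem key_le (E : Set (Spt T)) (γ : Γ)
    (hγ : ∀ t, (Spt.pt t ∈ E ∨ ∃ m, Spt.idx ⟨t, m⟩ ∈ E) → γ • t = t)
    (b b' : Reg (Cond (Pos T)))
    (h : ∀ g : Gp T Γ, g.1.1 = γ → (∀ x ∈ E, g • x = x) → b' = (sys T Γ).ρ g b) : b ≤ b' := by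
  intro p hp
  refine Reg.reg fun q hq => ?_
  have hqb : q ∈ b := Reg.down hq hp
  -- a bound for the second indices in `q`
  obtain ⟨N, hN⟩ : ∃ N, ∀ j ∈ q.s, j.i.m < N := by
    obtain ⟨N, hN⟩ := (q.fin.image (fun j => j.i.m)).bddAbove
    exact ⟨N + 1, fun j hj => Nat.lt_succ_of_le (hN ⟨j, hj, rfl⟩)⟩
  have hg := h (mvG γ N) rfl (by
    rintro (⟨⟨t, m⟩⟩ | t) hx
    · rw [smul_idx, mvG_idx γ N _ (hγ t (Or.inr ⟨m, hx⟩))]
    · exact congrArg Spt.pt (hγ t (Or.inl hx)))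
  have h1 : (mvG γ N : Gp T Γ) • q ∈ b' := by
    rw [hg]
    show (mvG γ N : Gp T Γ)⁻¹ • (mvG γ N : Gp T Γ) • q ∈ b
    rw [inv_smul_smul]
    exact hqb
  refine ⟨Cond.union q ((mvG γ N : Gp T Γ) • q), Cond.union_le_left _ _, ?_⟩
  refine Reg.down (Cond.union_le_right ?_) h1
  intro j hj hj2
  rw [Cond.mem_smul_s] at hj2
  rw [Cond.smul_f]
  have h3 : (mvG γ N : Gp T Γ)⁻¹ • j = ⟨(mvG γ N : Gp T Γ)⁻¹ • j.i, j.k⟩ := rfl
  rcases mvG_inv γ N j.i with ⟨h2, _⟩ | h2
  · rw [h3, h2]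
  · exfalso
    have h4 := hN _ hj
    have h5 := hN _ hj2
    rw [h3] at h5
    have h6 : ((mvG γ N : Gp T Γ)⁻¹ • j.i).m < N := h5
    rw [h2] at h6
    unfold sw at h6
    rw [if_pos h4] at h6
    omega

theorem key_eq (E : Set (Spt T)) (γ : Γ)
    (hγ : ∀ t, (Spt.pt t ∈ E ∨ ∃ m, Spt.idx ⟨t, m⟩ ∈ E) → γ • t = t)
    (b b' : Reg (Cond (Pos T)))
    (h : ∀ g : Gp T Γ, g.1.1 = γ → (∀ x ∈ E, g • x = x) → b' = (sys T Γ).ρ g b) : b = b' := by
  apply le_antisymm (key_le E γ hγ b b' h)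
  refine key_le E γ⁻¹ (fun t ht => by rw [inv_smul_eq_iff, hγ t ht]) b' b (fun g hg hE => ?_)
  have h1 := h g⁻¹ (by
    show g.1.1⁻¹ = γ
    rw [hg, inv_inv]) (fun x hx => by rw [inv_smul_eq_iff, hE x hx])
  rw [h1, ← RelIso.mul_apply, ← map_mul, mul_inv_cancel, map_one]
  rfl

end Pool.Agent.Helper290.Sym
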