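import Pool.Agent.Helper290.Sym.DeepZF
import Pool.Agent.Helper290.Sym.Logic

set_option autoImplicit false
set_option linter.unusedSectionVars false

namespace Pool.Agent.Helper290.Sym

open scoped symmDiff

/-! ### there are countably many formulas -/

namespace Fml

def enc : {n : ℕ} → Fml n → ℕ
  | _, .eq i j => 5 * Nat.pair i.1 j.1
  | _, .mem i j => 5 * Nat.pair i.1 j.1 + 1
  | _, .fls => 2
  | _, .imp φ ψ => 5 * Nat.pair φ.enc ψ.enc + 3
  | _, .all φ => 5 * φ.enc + 4

theorem enc_inj {n : ℕ} (φ ψ : Fml n) (h : φ.enc = ψ.enc) : φ = ψ := by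
  induction φ with
  | eq i j =>
    cases ψ with
    | eq i' j' =>
      simp only [enc] at h
      have h1 : Nat.pair i.1 j.1 = Nat.pair i'.1 j'.1 := by omega
      obtain ⟨h2, h3⟩ := Nat.pair_eq_pair.1 h1
      rw [Fin.ext h2, Fin.ext h3]
    | mem i j => simp only [enc] at h; omega
    | fls => simp only [enc] at h; omega
    | imp a b => simp only [enc] at h; omega
    | all a => simp only [enc] at h; omega
  | mem i j =>
    cases ψ with
    | mem i' j' =>
      simp only [enc] at h
      have h1 : Nat.pair i.1 j.1 = Nat.pair i'.1 j'.1 := by omega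
      obtain ⟨h2, h3⟩ := Nat.pair_eq_pair.1 h1
      rw [Fin.ext h2, Fin.ext h3]
    | eq i j => simp only [enc] at h; omega
    | fls => simp only [enc] at h; omega
    | imp a b => simp only [enc] at h; omega
    | all a => simp only [enc] at h; omega
  | fls =>
    cases ψ with
    | fls => rfl
    | eq i j => simp only [enc] at h; omega
    | mem i j => simp only [enc] at h; omega
    | imp a b => simp only [enc] at h; omega
    | all a => simp only [enc] at h; omega
  | imp φ1 φ2 ih1 ih2 =>
    cases ψ with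
    | imp a b =>
      simp only [enc] at h
      have h1 : Nat.pair φ1.enc φ2.enc = Nat.pair a.enc b.enc := by omega
      obtain ⟨h2, h3⟩ := Nat.pair_eq_pair.1 h1
      rw [ih1 a h2, ih2 b h3]
    | eq i j => simp only [enc] at h; omega
    | mem i j => simp only [enc] at h; omega
    | fls => simp only [enc] at h; omega
    | all a => simp only [enc] at h; omega
  | all φ ih =>
    cases ψ with
    | all a =>
      simp only [enc] at h
      rw [ih a (by omega)]
    | eq i j => simp only [enc] at h; omega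
    | mem i j => simp only [enc] at h; omega
    | fls => simp only [enc] at h; omega
    | imp a b => simp only [enc] at h; omega

instance (n : ℕ) : Countable (Fml n) := ⟨⟨enc, fun φ ψ h => enc_inj φ ψ h⟩⟩

end Fml

/-! ### generic filters -/

section
variable {B : Type} [CompleteBooleanAlgebra B] [Nontrivial B] (W : BStr B) [Inhabited W.carrier]

/-- a requirement: a formula and the indices of its parameters -/
def Req : Type := Σ k : ℕ, Fml (k + 1) × (Fin k → ℕ)

instance : Countable Req := inferInstanceAs (Countable (Σ k : ℕ, Fml (k + 1) × (Fin k → ℕ)))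
instance : Nonempty Req := ⟨⟨0, .fls, Fin.elim0⟩⟩

theorem exists_enum : ∃ e : ℕ → Req, ∀ (r : Req) (N : ℕ), ∃ n, N ≤ n ∧ e n = r := by
  obtain ⟨g, hg⟩ := exists_surjective_nat Req
  refine ⟨fun n => g n.unpair.1, fun r N => ?_⟩
  obtain ⟨a, ha⟩ := hg r
  refine ⟨Nat.pair a N, Nat.right_le_pair a N, ?_⟩
  simp [ha]

theorem exists_step (b : {b : B // b ≠ ⊥}) (X : ℕ → W.carrier) (r : Req) :
    ∃ (b' : {b : B // b ≠ ⊥}) (x : W.carrier), b'.1 ≤ b.1 ∧
      (b'.1 ≤ (⨆ y, r.2.1.val W (Fin.cons y (fun i => X (r.2.2 i))))ᶜ ∨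
        b'.1 ≤ r.2.1.val W (Fin.cons x (fun i => X (r.2.2 i)))) := by
  by_cases h : ∃ y, b.1 ⊓ r.2.1.val W (Fin.cons y (fun i => X (r.2.2 i))) ≠ ⊥
  · obtain ⟨y, hy⟩ := h
    exact ⟨⟨_, hy⟩, y, inf_le_left, Or.inr inf_le_right⟩
  · refine ⟨b, default, le_rfl, Or.inl ?_⟩
    push Not at h
    rw [le_compl_iff_disjoint_right, disjoint_iff, inf_iSup_eq]
    simp [h]

/-- the data of a generic filter -/
structure Gen where
  b : ℕ → B
  ne : ∀ n, b n ≠ ⊥
  mono : ∀ n m, n ≤ m → b m ≤ b n
  x : ℕ → W.carrier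
  gen : ∀ (k : ℕ) (φ : Fml (k + 1)) (s : Fin k → ℕ),
    (∃ n, b n ≤ (⨆ y, φ.val W (Fin.cons y (fun i => x (s i))))ᶜ) ∨
    (∃ n m, b n ≤ φ.val W (Fin.cons (x m) (fun i => x (s i))))

theorem exists_gen : Nonempty (Gen W) := by
  classical
  obtain ⟨e, he⟩ := exists_enum
  choose F1 F2 hF1 hF2 using exists_step W
  let st : ℕ → {b : B // b ≠ ⊥} × (ℕ → W.carrier) := fun n => Nat.rec
    (⟨⊤, top_ne_bot⟩, fun _ => default)
    (fun n p => (F1 p.1 p.2 (e n), Function.update p.2 n (F2 p.1 p.2 (e n)))) n
  have hst : ∀ n, st (n + 1) = (F1 (st n).1 (st n).2 (e n),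
      Function.update (st n).2 n (F2 (st n).1 (st n).2 (e n))) := fun n => rfl
  let x : ℕ → W.carrier := fun n => (st (n + 1)).2 n
  have hx : ∀ m n, n < m → (st m).2 n = x n := by
    intro m
    induction m with
    | zero => intro n hn; omega
    | succ m ih =>
      intro n hn
      rcases Nat.lt_succ_iff_lt_or_eq.1 hn with h | h
      · rw [hst]
        show Function.update (st m).2 m _ n = x n
        rw [Function.update_of_ne (by omega), ih n h]
      · rw [h]
  refine ⟨⟨fun n => (st n).1.1, fun n => (st n).1.2, ?_, x, ?_⟩⟩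
  · intro n m hnm
    induction m with
    | zero =>
      have : n = 0 := by omega
      rw [this]
    | succ m ih =>
      rcases Nat.lt_succ_iff_lt_or_eq.1 (Nat.lt_succ_of_le hnm) with h | h
      · refine le_trans ?_ (ih (by omega))
        rw [hst]
        exact hF1 _ _ _
      · rw [h]
  · intro k φ s
    obtain ⟨N, hN⟩ : ∃ N, ∀ i, s i < N := by
      obtain ⟨N, hN⟩ := (Set.finite_range s).bddAbove
      exact ⟨N + 1, fun i => Nat.lt_succ_of_le (hN ⟨i, rfl⟩)⟩
    obtain ⟨n, hn, hr⟩ := he ⟨k, φ, s⟩ N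
    have h1 : (fun i => (st n).2 (s i)) = fun i => x (s i) := by
      funext i
      exact hx n (s i) (lt_of_lt_of_le (hN i) hn)
    have h2 := hF2 (st n).1 (st n).2 (e n)
    have h3 : x n = F2 (st n).1 (st n).2 (e n) := by
      show (st (n + 1)).2 n = _
      rw [hst]
      exact Function.update_self _ _ _
    have h4 : (st (n + 1)).1 = F1 (st n).1 (st n).2 (e n) := by rw [hst]
    rw [← h3, ← h4] at h2
    rw [hr] at h2
    rcases h2 with h2 | h2
    · left
      refine ⟨n + 1, ?_⟩
      rw [← h1]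
      exact h2
    · right
      refine ⟨n + 1, n, ?_⟩
      rw [← h1]
      exact h2

variable {W} (G : Gen W)

namespace Gen

/-- the generic filter -/
def U (a : B) : Prop := ∃ n, G.b n ≤ a

theorem U_mono {a a' : B} (h : a ≤ a') (h1 : G.U a) : G.U a' := by
  obtain ⟨n, hn⟩ := h1
  exact ⟨n, hn.trans h⟩

theorem U_inf {a a' : B} (h : G.U a) (h1 : G.U a') : G.U (a ⊓ a') := by
  obtain ⟨n, hn⟩ := h
  obtain ⟨m, hm⟩ := h1
  exact ⟨max n m, le_inf ((G.mono _ _ (le_max_left _ _)).trans hn)
    ((G.mono _ _ (le_max_right _ _)).trans hm)⟩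

theorem U_top : G.U ⊤ := ⟨0, le_top⟩

theorem U_bot : ¬ G.U ⊥ := by
  rintro ⟨n, hn⟩
  exact G.ne n (le_bot_iff.1 hn)

theorem U_decide {k : ℕ} (φ : Fml k) (s : Fin k → ℕ) :
    G.U (φ.val W (fun i => G.x (s i))) ∨ G.U (φ.val W (fun i => G.x (s i)))ᶜ := by
  have h := G.gen k (φ.ren Fin.succ) s
  have h1 : ∀ y, (φ.ren Fin.succ).val W (Fin.cons y (fun i => G.x (s i))) =
      φ.val W (fun i => G.x (s i)) := by
    intro y
    rw [Fml.val_ren]
    rfl
  simp only [h1, iSup_const] at h
  rcases h with ⟨n, h⟩ | ⟨n, m, h⟩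
  · exact Or.inr ⟨n, h⟩
  · exact Or.inl ⟨n, h⟩

theorem eqv_aux (hW : ModelsZF W) : Equivalence (fun i j : ULift.{1} ℕ =>
    G.U (W.eq (G.x i.down) (G.x j.down))) where
  refl i := by
    rw [hW.eq_refl]
    exact G.U_top
  symm h := G.U_mono (hW.eq_symm _ _) h
  trans h h' := G.U_mono (hW.eq_trans _ _ _) (G.U_inf h h')

def setoid (hW : ModelsZF W) : Setoid (ULift.{1} ℕ) := ⟨_, G.eqv_aux hW⟩

/-- the two-valued structure obtained from a generic filter -/
def two (hW : ModelsZF W) : BStr Prop where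
  carrier := Quotient (G.setoid hW)
  eq a b := a = b
  mem := Quotient.lift₂ (fun i j : ULift.{1} ℕ => G.U (W.mem (G.x i.down) (G.x j.down))) (by
    intro a b a' b' h1 h2
    have h1 : G.U (W.eq (G.x a.down) (G.x a'.down)) := h1
    have h2 : G.U (W.eq (G.x b.down) (G.x b'.down)) := h2
    apply propext
    constructor
    · intro h
      have h3 := G.U_mono (hW.mem_congr_left _ _ _) (G.U_inf h1 h)
      exact G.U_mono (hW.mem_congr_right _ _ _) (G.U_inf h2 h3)
    · intro h
      have h3 := G.U_mono (hW.mem_congr_left _ _ _) (G.U_inf (G.U_mono (hW.eq_symm _ _) h1) h)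
      exact G.U_mono (hW.mem_congr_right _ _ _) (G.U_inf (G.U_mono (hW.eq_symm _ _) h2) h3))

variable (hW : ModelsZF W)

def pt (i : ℕ) : (G.two hW).carrier := Quotient.mk (G.setoid hW) ⟨i⟩

theorem pt_surj (a : (G.two hW).carrier) : ∃ i, G.pt hW i = a := by
  obtain ⟨⟨i⟩, hi⟩ := Quotient.exists_rep a
  exact ⟨i, hi⟩

/-- the truth lemma -/
theorem truth {k : ℕ} (φ : Fml k) (s : Fin k → ℕ) :
    φ.val (G.two hW) (fun i => G.pt hW (s i)) ↔ G.U (φ.val W (fun i => G.x (s i))) := by
  induction φ with
  | eq i j => exact Quotient.eq (r := G.setoid hW)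
  | mem i j => exact Iff.rfl
  | fls =>
    constructor
    · intro h
      exact h.elim
    · intro h
      exact G.U_bot h
  | imp φ ψ ih1 ih2 =>
    have e1 : (φ.imp ψ).val (G.two hW) (fun i => G.pt hW (s i)) ↔
      (φ.val (G.two hW) (fun i => G.pt hW (s i)) → ψ.val (G.two hW) (fun i => G.pt hW (s i))) :=
      Iff.rfl
    rw [e1, ih1, ih2, Fml.val_imp]
    constructor
    · intro h
      rcases G.U_decide φ s with h1 | h1
      · exact G.U_mono (by rw [himp_eq]; exact le_sup_left) (h h1)
      · exact G.U_mono (by rw [himp_eq]; exact le_sup_right) h1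
    · intro h h1
      exact G.U_mono (by rw [inf_comm]; exact inf_himp_le) (G.U_inf h h1)
  | @all k φ ih =>
    have e1 : (Fml.all φ).val (G.two hW) (fun i => G.pt hW (s i)) ↔
        ∀ n : ℕ, φ.val (G.two hW) (Fin.cons (G.pt hW n) (fun i => G.pt hW (s i))) := by
      rw [Fml.val_all, iInf_Prop_eq]
      constructor
      · intro h n
        exact h _
      · intro h a
        obtain ⟨n, rfl⟩ := G.pt_surj hW a
        exact h n
    have e2 : ∀ n : ℕ, (Fin.cons (G.pt hW n) (fun i => G.pt hW (s i)) :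
        Fin (k + 1) → (G.two hW).carrier) =
        fun i => G.pt hW ((Fin.cons n s : Fin (k + 1) → ℕ) i) := by
      intro n
      funext i
      refine Fin.cases ?_ (fun i => ?_) i <;> rfl
    have e3 : ∀ n : ℕ, (Fin.cons (G.x n) (fun i => G.x (s i)) :
        Fin (k + 1) → W.carrier) =
        fun i => G.x ((Fin.cons n s : Fin (k + 1) → ℕ) i) := by
      intro n
      funext i
      refine Fin.cases ?_ (fun i => ?_) i <;> rfl
    rw [e1, Fml.val_all]
    constructor
    · intro h
      rcases G.gen k φ.neg s with ⟨n, h1⟩ | ⟨n, m, h1⟩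
      · refine ⟨n, h1.trans (le_of_eq ?_)⟩
        rw [compl_iSup]
        refine iInf_congr fun y => ?_
        rw [Fml.val_neg, compl_compl]
      · exfalso
        have h0 := h m
        rw [e2] at h0
        have h2 := (ih _).1 h0
        rw [← e3] at h2
        rw [Fml.val_neg] at h1
        have h3 := G.U_inf h2 ⟨n, h1⟩
        rw [inf_compl_eq_bot] at h3
        exact G.U_bot h3
    · intro h n
      rw [e2]
      refine (ih _).2 ?_
      rw [← e3]
      exact G.U_mono (iInf_le (fun x => φ.val W (Fin.cons x fun i => G.x (s i))) _) h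

theorem transfer {k : ℕ} (φ : Fml k) (h : ∀ s : Fin k → W.carrier, φ.val W s = ⊤)
    (s : Fin k → (G.two hW).carrier) : φ.val (G.two hW) s = ⊤ := by
  choose t ht using fun i => G.pt_surj hW (s i)
  have h1 : s = fun i => G.pt hW (t i) := funext fun i => (ht i).symm
  rw [h1]
  refine eq_top_iff.2 (fun _ => (G.truth hW φ t).2 ?_)
  rw [h]
  exact G.U_top

/-- the two-valued structure is a model of ZF -/
theorem two_models : ModelsZF (G.two hW) where
  eq_refl x := by
    have h := G.transfer hW (Fml.ax_refl (0 : Fin 1)) (fun s => by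
      rw [Fml.val_ax_refl]
      exact hW.eq_refl _) (fun _ => x)
    rwa [Fml.val_ax_refl] at h
  eq_symm x y := by
    have h := G.transfer hW (Fml.ax_symm (0 : Fin 2) 1) (fun s => by
      rw [Fml.val_ax_symm, himp_eq_top_iff]
      exact hW.eq_symm _ _) ![x, y]
    rwa [Fml.val_ax_symm, himp_eq_top_iff] at h
  eq_trans x y z := by
    have h := G.transfer hW (Fml.ax_trans (0 : Fin 3) 1 2) (fun s => by
      rw [Fml.val_ax_trans, himp_eq_top_iff]
      exact hW.eq_trans _ _ _) ![x, y, z]
    rwa [Fml.val_ax_trans, himp_eq_top_iff] at h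
  mem_congr_left x y z := by
    have h := G.transfer hW (Fml.ax_memL (0 : Fin 3) 1 2) (fun s => by
      rw [Fml.val_ax_memL, himp_eq_top_iff]
      exact hW.mem_congr_left _ _ _) ![x, y, z]
    rwa [Fml.val_ax_memL, himp_eq_top_iff] at h
  mem_congr_right x y z := by
    have h := G.transfer hW (Fml.ax_memR (0 : Fin 3) 1 2) (fun s => by
      rw [Fml.val_ax_memR, himp_eq_top_iff]
      exact hW.mem_congr_right _ _ _) ![x, y, z]
    rwa [Fml.val_ax_memR, himp_eq_top_iff] at h
  extensionality x y := by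
    have h := G.transfer hW (Fml.ax_ext (0 : Fin 2) 1) (fun s => by
      rw [Fml.val_ax_ext, himp_eq_top_iff]
      exact hW.extensionality _ _) ![x, y]
    rwa [Fml.val_ax_ext, himp_eq_top_iff] at h
  foundation x := by
    have h := G.transfer hW (Fml.ax_found (0 : Fin 1)) (fun s => by
      rw [Fml.val_ax_found, himp_eq_top_iff]
      exact hW.foundation _) (fun _ => x)
    rwa [Fml.val_ax_found, himp_eq_top_iff] at h
  pairing x y := by
    have h := G.transfer hW (Fml.ax_pair (0 : Fin 2) 1) (fun s => by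
      rw [Fml.val_ax_pair]
      exact hW.pairing _ _) ![x, y]
    rwa [Fml.val_ax_pair] at h
  union x := by
    have h := G.transfer hW (Fml.ax_union (0 : Fin 1)) (fun s => by
      rw [Fml.val_ax_union]
      exact hW.union _) (fun _ => x)
    rwa [Fml.val_ax_union] at h
  power x := by
    have h := G.transfer hW (Fml.ax_power (0 : Fin 1)) (fun s => by
      rw [Fml.val_ax_power]
      exact hW.power _) (fun _ => x)
    rwa [Fml.val_ax_power] at h
  infinity := by
    have h := G.transfer hW (Fml.ax_inf (n := 0)) (fun s => by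
      rw [Fml.val_ax_inf]
      exact hW.infinity) Fin.elim0
    rwa [Fml.val_ax_inf] at h
  separation φ s x := by
    have h := G.transfer hW (Fml.ax_sep φ) (fun t => by
      have h1 : t = Fin.cons (t 0) (fun i => t i.succ) := by
        funext i
        refine Fin.cases ?_ (fun i => ?_) i <;> rfl
      rw [h1, Fml.val_ax_sep]
      exact hW.separation _ _ _) (Fin.cons x s)
    rwa [Fml.val_ax_sep] at h
  replacement φ s x := by
    have h := G.transfer hW (Fml.ax_repl φ) (fun t => by
      have h1 : t = Fin.cons (t 0) (fun i => t i.succ) := by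
        funext i
        refine Fin.cases ?_ (fun i => ?_) i <;> rfl
      rw [h1, Fml.val_ax_repl, himp_eq_top_iff]
      exact hW.replacement _ _ _) (Fin.cons x s)
    rwa [Fml.val_ax_repl, himp_eq_top_iff] at h

end Gen

end

end Pool.Agent.Helper290.Sym
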