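import Pool.Agent.Helper290.Sym.Model

set_option autoImplicit false

namespace Pool.Agent.Helper290.Sym

open scoped symmDiff

namespace SymSystem

variable {S : SymSystem} {Γ : S.B}

/-! ### supports -/

theorem Supp.inf {Φ Ψ : S.M → S.B} (h1 : Supp Φ) (h2 : Supp Ψ) : Supp (fun x => Φ x ⊓ Ψ x) := by
  obtain ⟨E, hE, h1⟩ := h1
  obtain ⟨F, hF, h2⟩ := h2
  refine ⟨E ∪ F, hE.union hF, fun g hg u => ?_⟩
  show _ = S.ρ g (_)
  simp only []
  rw [h1 g (fun x hx => hg x (Or.inl hx)), h2 g (fun x hx => hg x (Or.inr hx)), map_inf]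

theorem Supp.sup {Φ Ψ : S.M → S.B} (h1 : Supp Φ) (h2 : Supp Ψ) : Supp (fun x => Φ x ⊔ Ψ x) := by
  obtain ⟨E, hE, h1⟩ := h1
  obtain ⟨F, hF, h2⟩ := h2
  refine ⟨E ∪ F, hE.union hF, fun g hg u => ?_⟩
  show _ = S.ρ g (_)
  simp only []
  rw [h1 g (fun x hx => hg x (Or.inl hx)), h2 g (fun x hx => hg x (Or.inr hx)), map_sup]

theorem supp_mem (u : S.M) : Supp (fun x => mem' x u) := by
  obtain ⟨E, hE, h⟩ := exists_support u
  exact ⟨E, hE, fun g hg x => mem_smul_left (h g hg) x⟩

theorem supp_eq (u : S.M) : Supp (fun x => eq' x u) := by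
  obtain ⟨E, hE, h⟩ := exists_support u
  exact ⟨E, hE, fun g hg x => eq_smul_left (h g hg) x⟩

theorem Supp.congr {Φ Ψ : S.M → S.B} (h : ∀ x, Φ x = Ψ x) (h1 : Supp Φ) : Supp Ψ := by
  have : Φ = Ψ := funext h
  rwa [← this]

theorem fix_of_inv {u : S.M} {g : S.G} (h : ∀ x, mem' (g • x) u = S.ρ g (mem' x u)) :
    eq' (g • u) u = ⊤ := by
  have key : ∀ z, mem' z (g • u) = mem' z u := by
    intro z
    have h1 := h (g⁻¹ • z)
    rw [← smul_mem, smul_inv_smul] at h1
    exact h1.symm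
  rw [eq_top_iff]
  refine ext' (fun z Δ _ h1 => ?_) (fun z Δ _ h1 => ?_)
  · rwa [← key]
  · rwa [key]

theorem exists_support_fin {n : ℕ} (s : Fin n → S.M) : ∃ E : Set S.X, E.Finite ∧
    ∀ g : S.G, (∀ x ∈ E, g • x = x) → ∀ i, eq' (g • s i) (s i) = ⊤ := by
  choose E hE h using fun i => exists_support (s i)
  exact ⟨⋃ i, E i, Set.finite_iUnion hE, fun g hg i =>
    h i g (fun x hx => hg x (Set.mem_iUnion.2 ⟨i, hx⟩))⟩

theorem val_fix {n : ℕ} (φ : Fml n) (g : S.G) (s t : Fin n → S.M)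
    (h : ∀ i, eq' (g • s i) (t i) = ⊤) : φ.val S.model t = S.ρ g (φ.val S.model s) := by
  rw [← val_smul]
  apply eq_of_forall
  · intro Δ h1
    exact (val_congr φ _ _ Δ (fun i => by rw [h]; exact le_top)).2 h1
  · intro Δ h1
    exact (val_congr φ _ _ Δ (fun i => by rw [h]; exact le_top)).1 h1

theorem eq_top_of {a : S.B} (h : a = ⊤) : Γ ≤ a := by rw [h]; exact le_top

/-- `Φ` respects equality -/
def Ext (Φ : S.M → S.B) : Prop := ∀ (x y : S.M) (Γ : S.B), Γ ≤ eq' x y → Γ ≤ Φ x → Γ ≤ Φ y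

/-- separation -/
theorem sep_supp {u : S.M} {Ψ : S.M → S.B} (hS : Supp Ψ) (hE : Ext Ψ) :
    ∃ w : S.M, ∀ z, mem' z w = mem' z u ⊓ Ψ z := by
  have h : ∀ z, mem' z u ⊓ Ψ z = ⨆ i, (vl u i ⊓ Ψ (el u i)) ⊓ eq' z (el u i) := by
    intro z
    apply eq_of_forall
    · intro Δ h1
      refine mem_elim (h1.trans inf_le_left) ?_
      intro i Δ1 h2 h3 h4
      exact ex_intro i (le_inf (le_inf h3 (hE _ _ _ h4 ((h2.trans h1).trans inf_le_right))) h4)
    · intro Δ h1
      refine ex_elim h1 ?_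
      intro i Δ1 h2 h3
      refine le_inf ?_ (hE _ _ _ (symm (h3.trans inf_le_right))
        ((h3.trans inf_le_left).trans inf_le_right))
      exact memL (symm (h3.trans inf_le_right))
        (((h3.trans inf_le_left).trans inf_le_left).trans (vl_le_mem u i))
  refine ⟨mkM (el u) (fun i => vl u i ⊓ Ψ (el u i)) (Supp.congr h ((supp_mem u).inf hS)), ?_⟩
  intro z
  rw [mem_mkM, h]

theorem top_of_exists {Φ : S.M → S.B} (u : S.M) (h : Φ u = ⊤) : (⨆ u, Φ u) = ⊤ :=
  eq_top_iff.2 (h ▸ le_iSup Φ u)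

theorem iInf_iff_top {Φ Ψ : S.M → S.B} (h : ∀ z, Φ z = Ψ z) : (⨅ z, (Φ z ⇔ Ψ z)) = ⊤ := by
  rw [iInf_eq_top]
  intro z
  rw [h, bihimp_self]

/-! ### the axioms -/

/-- unordered pairs -/
theorem supp_upair (x y : S.M) :
    Supp (fun z : S.M => ⨆ b : Bool, (⊤ : S.B) ⊓ eq' z (cond b x y)) := by
  refine Supp.congr ?_ ((supp_eq x).sup (supp_eq y))
  intro z
  rw [iSup_bool_eq, top_inf_eq, top_inf_eq]
  rfl

def upair (x y : S.M) : S.M := mkM (fun b : Bool => cond b x y) (fun _ => ⊤) (supp_upair x y)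

theorem mem_upair (x y z : S.M) : mem' z (upair x y) = eq' z x ⊔ eq' z y := by
  rw [upair, mem_mkM, iSup_bool_eq, top_inf_eq, top_inf_eq]
  rfl

theorem union_exists (x : S.M) : ∃ u : S.M, ∀ z, mem' z u = ⨆ y, mem' y x ⊓ mem' z y := by
  have h : ∀ z, (⨆ y, mem' y x ⊓ mem' z y) =
      ⨆ p : (Σ i : Dom x, Dom (el x i)),
        (vl x p.1 ⊓ vl (el x p.1) p.2) ⊓ eq' z (el (el x p.1) p.2) := by
    intro z
    apply eq_of_forall
    · intro Δ h1
      refine ex_elim h1 ?_
      intro y Δ1 h2 h3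
      refine mem_elim (h3.trans inf_le_left) ?_
      intro i Δ2 h4 h5 h6
      refine mem_elim (memR h6 (h4.trans (h3.trans inf_le_right))) ?_
      intro j Δ3 h7 h8 h9
      exact ex_intro (⟨i, j⟩ : Σ i : Dom x, Dom (el x i)) (le_inf (le_inf (h7.trans h5) h8) h9)
    · intro Δ h1
      refine ex_elim h1 ?_
      rintro ⟨i, j⟩ Δ1 h2 h3
      refine ex_intro (el x i) (le_inf ?_ ?_)
      · exact ((h3.trans inf_le_left).trans inf_le_left).trans (vl_le_mem x i)
      · exact memL (symm (h3.trans inf_le_right))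
          (((h3.trans inf_le_left).trans inf_le_right).trans (vl_le_mem _ j))
  have hs : Supp (fun z => ⨆ y, mem' y x ⊓ mem' z y) := by
    obtain ⟨E, hE, hx⟩ := exists_support x
    refine ⟨E, hE, fun g hg z => ?_⟩
    show (⨆ y, mem' y x ⊓ mem' (g • z) y) = S.ρ g (⨆ y, mem' y x ⊓ mem' z y)
    rw [map_iSup, ← smul_iSup g (fun y => mem' y x ⊓ mem' (g • z) y)]
    refine iSup_congr fun y => ?_
    rw [mem_smul_left (hx g hg), smul_mem, map_inf]
  refine ⟨mkM (fun p : (Σ i : Dom x, Dom (el x i)) => el (el x p.1) p.2)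
    (fun p => vl x p.1 ⊓ vl (el x p.1) p.2) (Supp.congr h hs), ?_⟩
  intro z
  rw [mem_mkM, h]

def subv (y x : S.M) : S.B := ⨅ z, (mem' z y ⇨ mem' z x)

theorem supp_subv (x : S.M) : Supp (fun y => subv y x) := by
  obtain ⟨E, hE, hx⟩ := exists_support x
  refine ⟨E, hE, fun g hg y => ?_⟩
  show (⨅ z, (mem' z (g • y) ⇨ mem' z x)) = S.ρ g (⨅ z, (mem' z y ⇨ mem' z x))
  rw [map_iInf, ← smul_iInf g (fun z => (mem' z (g • y) ⇨ mem' z x))]
  refine iInf_congr fun z => ?_
  rw [mem_smul_left (hx g hg), smul_mem, map_himp]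

theorem power_exists (x : S.M) : ∃ p : S.M, ∀ y, mem' y p = subv y x := by
  let I : Type := {f : Dom x → S.B // Supp (fun z => ⨆ i, f i ⊓ eq' z (el x i))}
  let A : I → S.M := fun f => mkM (el x) f.1 f.2
  have h : ∀ y, subv y x = ⨆ f : I, subv (A f) x ⊓ eq' y (A f) := by
    intro y
    apply eq_of_forall
    · intro Δ h1
      have h2 : ∀ z, mem' z y ⊓ mem' z x =
          ⨆ i, (mem' (el x i) y ⊓ vl x i) ⊓ eq' z (el x i) := by
        intro z
        apply eq_of_forall
        · intro Δ1 h3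
          refine mem_elim (h3.trans inf_le_right) ?_
          intro i Δ2 h4 h5 h6
          exact ex_intro i (le_inf (le_inf (memL h6 (h4.trans (h3.trans inf_le_left))) h5) h6)
        · intro Δ1 h3
          refine ex_elim h3 ?_
          intro i Δ2 h4 h5
          have h6 := symm (h5.trans inf_le_right)
          exact le_inf (memL h6 ((h5.trans inf_le_left).trans inf_le_left))
            (memL h6 (((h5.trans inf_le_left).trans inf_le_right).trans (vl_le_mem x i)))
      have hs := Supp.congr h2 ((supp_mem y).inf (supp_mem x))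
      let f : I := ⟨fun i => mem' (el x i) y ⊓ vl x i, hs⟩
      have hf : ∀ z, mem' z (A f) = mem' z y ⊓ mem' z x := fun z => (h2 z).symm
      refine ex_intro f (le_inf (le_iInf fun z => imp_intro fun Δ1 _ h3 => ?_) (ext' ?_ ?_))
      · rw [hf] at h3
        exact h3.trans inf_le_right
      · intro z Δ1 h3 h4
        rw [hf]
        exact le_inf h4 (mp (all_elim (h3.trans h1) z) h4)
      · intro z Δ1 h3 h4
        rw [hf] at h4
        exact h4.trans inf_le_left
    · intro Δ h1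
      refine ex_elim h1 ?_
      intro f Δ1 h2 h3
      refine le_iInf fun z => imp_intro fun Δ2 h4 h5 => ?_
      exact mp (all_elim (h4.trans (h3.trans inf_le_left)) z)
        (memR (h4.trans (h3.trans inf_le_right)) h5)
  refine ⟨mkM A (fun f => subv (A f) x) (Supp.congr h (supp_subv x)), ?_⟩
  intro y
  rw [mem_mkM, h]

/-! infinity -/

theorem supp_fix {α : Type} (A : α → S.M) (v : α → S.B) (hA : ∀ i, ∀ g : S.G, eq' (g • A i) (A i) = ⊤)
    (hv : ∀ i, ∀ g : S.G, S.ρ g (v i) = v i) : Supp (fun x : S.M => ⨆ i, v i ⊓ eq' x (A i)) := by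
  refine ⟨∅, Set.finite_empty, fun g _ z => ?_⟩
  rw [map_iSup]
  refine iSup_congr fun i => ?_
  rw [map_inf, hv, eq_smul_left (hA i g)]

def emp : S.M := mkM (fun i : Empty => i.elim) (fun _ => ⊤)
  (supp_fix _ _ (fun i => i.elim) (fun i => i.elim))

theorem mem_emp (z : S.M) : mem' z (emp : S.M) = ⊥ := by
  rw [emp, mem_mkM, iSup_of_empty]

theorem succ_aux (x z : S.M) : mem' z x ⊔ eq' z x =
    ⨆ o : Option (Dom x), (o.elim ⊤ (vl x)) ⊓ eq' z (o.elim x (el x)) := by
  rw [iSup_option, mem'_eq z x, sup_comm]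
  simp

theorem supp_succ (x : S.M) :
    Supp (fun z => ⨆ o : Option (Dom x), (o.elim ⊤ (vl x)) ⊓ eq' z (o.elim x (el x))) :=
  Supp.congr (succ_aux x) ((supp_mem x).sup (supp_eq x))

def succM (x : S.M) : S.M := mkM (fun o : Option (Dom x) => o.elim x (el x))
    (fun o => o.elim ⊤ (vl x)) (supp_succ x)

theorem mem_succM (x z : S.M) : mem' z (succM x) = mem' z x ⊔ eq' z x := by
  rw [succM, mem_mkM, succ_aux]

def num : ℕ → S.M
  | 0 => emp
  | n + 1 => succM (num n)

theorem num_fix (n : ℕ) (g : S.G) : eq' (g • (num n : S.M)) (num n) = ⊤ := by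
  induction n with
  | zero =>
    apply fix_of_inv
    intro x
    show mem' (g • x) (emp : S.M) = S.ρ g (mem' x emp)
    rw [mem_emp, mem_emp, map_bot]
  | succ n ih =>
    apply fix_of_inv
    intro x
    show mem' (g • x) (succM (num n) : S.M) = S.ρ g (mem' x (succM (num n)))
    rw [mem_succM, mem_succM, map_sup, mem_smul_left ih, eq_smul_left ih]

def om : S.M := mkM (fun n : ℕ => num n) (fun _ => ⊤)
  (supp_fix _ _ (fun n g => num_fix n g) (fun _ _ => map_top _))

theorem mem_om (z : S.M) : mem' z (om : S.M) = ⨆ n : ℕ, eq' z (num n) := by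
  rw [om, mem_mkM]
  simp only [top_inf_eq]

/-! replacement -/

theorem val_ext {n : ℕ} (φ : Fml (n + 1)) (s : Fin n → S.M) :
    Ext (fun z : S.M => φ.val S.model (Fin.cons z s : Fin _ → S.M)) := by
  intro x y Γ h1 h2
  refine (val_congr φ _ _ Γ ?_).1 h2
  intro i
  refine Fin.cases ?_ (fun i => ?_) i
  · exact h1
  · exact rfl' _

theorem val_supp {n : ℕ} (φ : Fml (n + 1)) (s : Fin n → S.M) :
    Supp (fun z : S.M => φ.val S.model (Fin.cons z s : Fin _ → S.M)) := by
  obtain ⟨E, hE, hs⟩ := exists_support_fin s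
  refine ⟨E, hE, fun g hg z => ?_⟩
  refine val_fix φ g _ _ ?_
  intro i
  refine Fin.cases ?_ (fun i => ?_) i
  · exact eq_top_iff.2 (rfl' _)
  · exact hs g hg i

theorem collection {n : ℕ} (φ : Fml (n + 2)) (s : Fin n → S.M) (x : S.M) :
    ∃ C : S.M, ∀ i : Dom x, ∀ z : S.M,
      φ.val S.model (Fin.cons (el x i) (Fin.cons z s : Fin _ → S.M) : Fin _ → S.M) ≤
      ⨆ z' : S.M, mem' z' C ⊓
        φ.val S.model (Fin.cons (el x i) (Fin.cons z' s : Fin _ → S.M) : Fin _ → S.M) := by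
  classical
  let F : Dom x → S.M → S.B := fun i z =>
    φ.val S.model (Fin.cons (el x i) (Fin.cons z s : Fin _ → S.M) : Fin _ → S.M)
  have hc : ∀ (i : Dom x) (b : S.B), ∃ z0 : S.M, (∃ z, F i z = b) → F i z0 = b := by
    intro i b
    by_cases h : ∃ z, F i z = b
    · obtain ⟨z, hz⟩ := h
      exact ⟨z, fun _ => hz⟩
    · exact ⟨emp, fun h' => absurd h' h⟩
  choose Z hZ using hc
  have hs : Supp (fun z : S.M => ⨆ p : Dom x × S.B × S.G, (⊤ : S.B) ⊓ eq' z (p.2.2 • Z p.1 p.2.1)) := by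
    refine ⟨∅, Set.finite_empty, fun g _ z => ?_⟩
    show (⨆ p : Dom x × S.B × S.G, (⊤ : S.B) ⊓ eq' (g • z) (p.2.2 • Z p.1 p.2.1)) = _
    rw [map_iSup]
    let e : Dom x × S.B × S.G → Dom x × S.B × S.G := fun p => (p.1, p.2.1, g * p.2.2)
    have he : Function.Surjective e := by
      rintro ⟨i, b, k⟩
      exact ⟨(i, b, g⁻¹ * k), by simp [e]⟩
    rw [← he.iSup_comp (g := fun p : Dom x × S.B × S.G => (⊤ : S.B) ⊓ eq' (g • z) (p.2.2 • Z p.1 p.2.1))]
    refine iSup_congr fun p => ?_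
    show (⊤ : S.B) ⊓ eq' (g • z) ((g * p.2.2) • Z p.1 p.2.1) = _
    rw [mul_smul, smul_eq, map_inf, map_top]
  refine ⟨mkM (fun p : Dom x × S.B × S.G => p.2.2 • Z p.1 p.2.1) (fun _ => ⊤) hs, ?_⟩
  intro i z
  refine ex_intro (Z i (F i z)) (le_inf ?_ (le_of_eq (hZ i (F i z) ⟨z, rfl⟩).symm))
  rw [mem_mkM]
  refine ex_intro (i, F i z, (1 : S.G)) (le_inf le_top ?_)
  show F i z ≤ eq' (Z i (F i z)) ((1 : S.G) • Z i (F i z))
  rw [one_smul]
  exact rfl' _

/-- The symmetric model is a model of ZF. -/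
theorem models (S : SymSystem) : ModelsZF S.model where
  eq_refl x := eq_top_iff.2 (rfl' _)
  eq_symm x y := symm le_rfl
  eq_trans x y z := trans inf_le_left inf_le_right
  mem_congr_left x y z := memL inf_le_left inf_le_right
  mem_congr_right x y z := memR inf_le_left inf_le_right
  extensionality x y := ext' (fun z _ h h1 => iff_mp (all_elim h z) h1)
    (fun z _ h h1 => iff_mpr (all_elim h z) h1)
  foundation x := by
    refine by_contra fun Δ h1 h2 => ?_
    refine ex_elim h1 ?_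
    intro y Δ1 h3 h4
    revert Δ1
    revert y
    show ∀ y : S.M, ∀ Δ1, Δ1 ≤ Δ → Δ1 ≤ mem' y x → Δ1 ≤ ⊥
    intro y
    refine dom_induction (P := fun y => ∀ Δ1, Δ1 ≤ Δ → Δ1 ≤ mem' y x → Δ1 ≤ ⊥) ?_ y
    intro y ih Δ1 h3 h4
    refine not_elim (h3.trans h2) (ex_intro y (le_inf h4 (le_iInf fun z => imp_intro
      fun Δ2 h5 h6 => not_intro fun Δ3 h7 h8 => ?_)))
    refine mem_elim h8 ?_
    intro i Δ4 h9 h10 h11
    exact ih i Δ4 (h9.trans (h7.trans (h5.trans h3))) (memL h11 ((h9.trans h7).trans h6))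
  pairing x y := top_of_exists (upair x y) (iInf_iff_top (mem_upair x y))
  union x := by
    obtain ⟨u, hu⟩ := union_exists x
    exact top_of_exists u (iInf_iff_top hu)
  power x := by
    obtain ⟨u, hu⟩ := power_exists x
    exact top_of_exists u (iInf_iff_top hu)
  infinity := by
    refine top_of_exists om (eq_top_iff.2 (le_inf ?_ ?_))
    · refine ex_intro (emp : S.M) (le_inf ?_ ?_)
      · show _ ≤ mem' emp om
        rw [mem_om]
        exact ex_intro 0 (rfl' _)
      · refine le_iInf fun z => ?_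
        show _ ≤ (mem' z emp)ᶜ
        rw [mem_emp, compl_bot]
    · refine le_iInf fun x => imp_intro fun Δ _ h1 => ?_
      have h2 : Δ ≤ mem' x om := h1
      rw [mem_om] at h2
      refine ex_elim h2 ?_
      intro n Δ1 h3 h4
      refine ex_intro (num (n + 1) : S.M) (le_inf ?_ (le_iInf fun z => ?_))
      · show _ ≤ mem' _ om
        rw [mem_om]
        exact ex_intro (n + 1) (rfl' _)
      · show _ ≤ (mem' z (succM (num n)) ⇔ (mem' z x ⊔ eq' z x))
        rw [mem_succM]
        refine iff_intro (fun Δ2 h5 h6 => ?_) (fun Δ2 h5 h6 => ?_)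
        · refine or_elim h6 (fun Δ3 h7 h8 => ?_) (fun Δ3 h7 h8 => ?_)
          · exact (memR (symm (h7.trans (h5.trans h4))) h8).trans le_sup_left
          · exact (trans h8 (symm (h7.trans (h5.trans h4)))).trans le_sup_right
        · refine or_elim h6 (fun Δ3 h7 h8 => ?_) (fun Δ3 h7 h8 => ?_)
          · exact (memR (h7.trans (h5.trans h4)) h8).trans le_sup_left
          · exact (trans h8 (h7.trans (h5.trans h4))).trans le_sup_right
  separation φ s x := by
    obtain ⟨w, hw⟩ := sep_supp (u := x) (val_supp φ s) (val_ext φ s)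
    exact top_of_exists w (iInf_iff_top hw)
  replacement := by
    intro n φ s x
    obtain ⟨C, hC⟩ := collection φ s x
    let Ψ : S.M → S.B := fun z => ⨆ y : S.M, mem' y x ⊓
      φ.val S.model (Fin.cons y (Fin.cons z s : Fin _ → S.M) : Fin _ → S.M)
    have hE : Ext Ψ := by
      intro z z' Γ h1 h2
      refine ex_elim h2 ?_
      intro y Δ h3 h4
      refine ex_intro y (le_inf (h4.trans inf_le_left) ?_)
      refine (val_congr φ _ _ Δ ?_).1 (h4.trans inf_le_right)
      intro i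
      refine Fin.cases ?_ (fun i => Fin.cases ?_ (fun i => ?_) i) i
      · exact rfl' _
      · exact h3.trans h1
      · exact rfl' _
    have hS : Supp Ψ := by
      obtain ⟨E, hE, hs⟩ := exists_support_fin s
      obtain ⟨F, hF, hx⟩ := exists_support x
      refine ⟨E ∪ F, hE.union hF, fun g hg z => ?_⟩
      show (⨆ y : S.M, mem' y x ⊓
        φ.val S.model (Fin.cons y (Fin.cons (g • z) s : Fin _ → S.M) : Fin _ → S.M)) =
        S.ρ g (⨆ y : S.M, mem' y x ⊓
        φ.val S.model (Fin.cons y (Fin.cons z s : Fin _ → S.M) : Fin _ → S.M))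
      rw [map_iSup, ← smul_iSup g]
      refine iSup_congr fun y => ?_
      rw [map_inf, mem_smul_left (hx g (fun x hx => hg x (Or.inr hx)))]
      congr 1
      refine val_fix φ g _ _ ?_
      intro i
      refine Fin.cases ?_ (fun i => Fin.cases ?_ (fun i => ?_) i) i
      · exact eq_top_iff.2 (rfl' _)
      · exact eq_top_iff.2 (rfl' _)
      · exact hs g (fun x hx => hg x (Or.inl hx)) i
    obtain ⟨w, hw⟩ := sep_supp (u := C) hS hE
    refine ex_intro w (le_iInf fun z => iff_intro (fun Δ h1 h2 => ?_) (fun Δ h1 h2 => ?_))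
    · have h3 : Δ ≤ mem' z w := h2
      rw [hw] at h3
      exact h3.trans inf_le_right
    · show Δ ≤ mem' z w
      rw [hw]
      refine le_inf ?_ h2
      refine ex_elim h2 ?_
      intro y Δ1 h3 h4
      refine mem_elim (h4.trans inf_le_left) ?_
      intro i Δ2 h5 h6 h7
      have h8 : Δ2 ≤ φ.val S.model (Fin.cons (el x i) (Fin.cons z s : Fin _ → S.M) : Fin _ → S.M) := by
        refine (val_congr φ _ _ Δ2 ?_).1 (h5.trans (h4.trans inf_le_right))
        intro i
        refine Fin.cases ?_ (fun i => ?_) i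
        · exact h7
        · exact rfl' _
      refine ex_elim (h8.trans (hC i z)) ?_
      intro z' Δ3 h9 h10
      have h11 : Δ3 ≤ eq' z' z := by
        have h12 := mp (all_elim ((h9.trans (h5.trans (h3.trans h1)))) (el x i))
          (show Δ3 ≤ mem' (el x i) x from (h9.trans h6).trans (vl_le_mem x i))
        exact mp (all_elim (all_elim h12 z') z) (le_inf (h10.trans inf_le_right) (h9.trans h8))
      exact memL h11 (h10.trans inf_le_left)

end SymSystem

end Pool.Agent.Helper290.Sym
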